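import Mathlib

namespace Pool.Agent.MaxTerm59

open MeasureTheory AddCircle

theorem parseval_le (c : ℤ → ℂ) (hs : Summable fun n => ‖c n‖) (B : ℝ)
    (hB : ∀ z : ℂ, ‖z‖ = 1 → ‖∑' n : ℤ, c n * z ^ n‖ ≤ B) (S : Finset ℤ) :
    ∑ n ∈ S, ‖c n‖ ^ 2 ≤ B ^ 2 := by
  have hT : Fact ((0 : ℝ) < 1) := ⟨one_pos⟩
  have hB0 : 0 ≤ B := (norm_nonneg _).trans (hB 1 (by simp))
  have hsum : Summable (fun n => c n • (fourier n : C(AddCircle (1 : ℝ), ℂ))) := by
    refine Summable.of_norm ?_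
    simp_rw [norm_smul, fourier_norm, mul_one]
    exact hs
  set F : C(AddCircle (1 : ℝ), ℂ) := ∑' n, c n • fourier n with hF
  have hFB : ‖F‖ ≤ B := by
    rw [ContinuousMap.norm_le _ hB0]
    intro t
    have h1 : F t = ∑' n : ℤ, c n * ((toCircle t : Circle) : ℂ) ^ n := by
      have h2 := (ContinuousMap.evalCLM ℂ t).hasSum hsum.hasSum
      have h3 := h2.tsum_eq
      have h4 : (ContinuousMap.evalCLM ℂ t) (∑' n, c n • fourier n) = F t := rfl
      rw [h4] at h3
      rw [← h3]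
      refine tsum_congr fun n => ?_
      show c n * (fourier n t : ℂ) = _
      rw [fourier_apply, toCircle_zsmul, Circle.coe_zpow]
    rw [h1]
    exact hB _ (Circle.norm_coe _)
  set TL : C(AddCircle (1 : ℝ), ℂ) →L[ℂ] Lp ℂ 2 (@haarAddCircle (1 : ℝ) hT) :=
    ContinuousMap.toLp (E := ℂ) 2 haarAddCircle ℂ with hTL
  have hnorm : ‖TL F‖ ≤ B := by
    refine (TL.le_opNorm F).trans ?_
    have h1 : ‖TL‖ ≤ 1 := by
      refine (ContinuousMap.toLp_norm_le (p := 2) (𝕜 := ℂ) (E := ℂ)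
        (@haarAddCircle (1 : ℝ) hT)).trans ?_
      simp [measureUnivNNReal]
    calc ‖TL‖ * ‖F‖ ≤ 1 * B := mul_le_mul h1 hFB (norm_nonneg _) zero_le_one
      _ = B := one_mul B
  have horth := orthonormal_fourier (T := (1 : ℝ)) (hT := hT)
  have hinner : ∀ n : ℤ, inner ℂ (@fourierLp (1 : ℝ) hT 2 _ n) (TL F) = c n := by
    intro n
    have h1 := TL.hasSum hsum.hasSum
    have h2 := (innerSL ℂ (@fourierLp (1 : ℝ) hT 2 _ n)).hasSum h1
    have h3 : HasSum (fun m => if m = n then c n else 0) (c n) := hasSum_ite_eq n (c n)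
    refine h2.unique ?_
    have h5 : (fun m : ℤ => (innerSL ℂ (@fourierLp (1 : ℝ) hT 2 _ n)) (TL (c m • fourier m))) =
        fun m => if m = n then c n else 0 := by
      funext m
      rw [map_smul, map_smul, innerSL_apply_apply, smul_eq_mul]
      have h4 : inner ℂ (@fourierLp (1 : ℝ) hT 2 _ n) (TL (fourier m)) =
          if n = m then 1 else 0 := (orthonormal_iff_ite.1 horth) n m
      rw [h4]
      by_cases h : m = n
      · simp [h]
      · simp [h, Ne.symm h]
    rw [h5]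
    exact h3
  have hbes := horth.sum_inner_products_le (TL F) (s := S)
  simp_rw [hinner] at hbes
  exact hbes.trans (pow_le_pow_left₀ (norm_nonneg _) hnorm 2)

end Pool.Agent.MaxTerm59
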