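import Pool.Agent.MaxTerm59.HypIDef

namespace Pool.Agent.MaxTerm59

theorem HypI.conj {B ε : ℝ} {q : ℂ} {s : ℕ → ℂ} (H : HypI B ε q s) :
    HypI B ε ((starRingEnd ℂ) q) (fun i => (starRingEnd ℂ) (s i)) := by
  refine ⟨?_, ?_, ?_, ?_, ?_⟩
  · simpa using H.q_lt
  · simpa using H.q_sq
  · intro i
    simpa using H.size i
  · intro i
    simpa using H.energy i
  · intro z hz
    have hz' : ‖(starRingEnd ℂ) z‖ = 1 := by simpa using hz
    have h := H.bound _ hz'
    have e : (1 : ℂ) + z + (starRingEnd ℂ) q * z ^ 2 +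
        ∑' i : ℕ, (starRingEnd ℂ) (s i) *
          (z ^ (-(i + 1 : ℤ)) + (starRingEnd ℂ) q ^ (i + 2) * z ^ (i + 3)) =
        (starRingEnd ℂ) (1 + (starRingEnd ℂ) z + q * ((starRingEnd ℂ) z) ^ 2 +
          ∑' i : ℕ, s i * (((starRingEnd ℂ) z) ^ (-(i + 1 : ℤ)) +
            q ^ (i + 2) * ((starRingEnd ℂ) z) ^ (i + 3))) := by
      simp only [map_add, map_mul, map_one, map_pow, Complex.conj_conj, Complex.conj_tsum,
        map_zpow₀]
    rw [e, RCLike.norm_conj]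
    exact h

end Pool.Agent.MaxTerm59
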