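import Mathlib

namespace Pool.Agent.MaxTerm59

/-- The part of a Laurent series supported on the class `j + M ℤ`, as a function of `z = ω ^ M`. -/
noncomputable def cls (c : ℤ → ℂ) (M : ℕ) (j : ℤ) (z : ℂ) : ℂ := ∑' i : ℤ, c (j + i * M) * z ^ i

private theorem classFn_inj (M : ℕ) (hM : 0 < M) (j : ℤ) :
    Function.Injective fun i : ℤ => j + i * M := by
  intro a b h
  have h1 : a * (M : ℤ) = b * M := add_left_cancel h
  exact mul_right_cancel₀ (by exact_mod_cast hM.ne') h1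

theorem cls_summable (c : ℤ → ℂ) (hs : Summable fun n => ‖c n‖) (M : ℕ) (hM : 0 < M) (j : ℤ) (z : ℂ)
    (hz : ‖z‖ = 1) : Summable fun i : ℤ => ‖c (j + i * M) * z ^ i‖ := by
  have h := hs.comp_injective (classFn_inj M hM j)
  refine h.congr fun i => ?_
  simp [norm_zpow, hz]

private theorem classFn_root (M : ℕ) (hM : 0 < M) (k : ℤ) :
    ∑ s ∈ Finset.range M, (Complex.exp (2 * Real.pi * Complex.I / (M : ℂ)) ^ s) ^ k =
      if (M : ℤ) ∣ k then (M : ℂ) else 0 := by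
  have hprim := Complex.isPrimitiveRoot_exp M hM.ne'
  set ζ := Complex.exp (2 * Real.pi * Complex.I / (M : ℂ)) with hζ
  have h1 : ∀ s : ℕ, (ζ ^ s) ^ k = (ζ ^ k) ^ s := by
    intro s
    rw [← zpow_natCast, ← zpow_natCast, ← zpow_mul, ← zpow_mul, mul_comm]
  simp only [h1]
  split_ifs with hk
  · have h2 : ζ ^ k = 1 := (hprim.zpow_eq_one_iff_dvd k).2 hk
    simp [h2]
  · have h2 : ζ ^ k ≠ 1 := fun h => hk ((hprim.zpow_eq_one_iff_dvd k).1 h)
    have h3 : (ζ ^ k) ^ M = 1 := by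
      rw [← h1, hprim.pow_eq_one, one_zpow]
    rw [geom_sum_eq h2, h3, sub_self, zero_div]

private theorem classFn_norm_root (M : ℕ) (hM : 0 < M) {z w : ℂ} (hz : ‖z‖ = 1) (hw : w ^ M = z)
    (s : ℕ) : ‖w * Complex.exp (2 * Real.pi * Complex.I / (M : ℂ)) ^ s‖ = 1 := by
  have hprim := Complex.isPrimitiveRoot_exp M hM.ne'
  have h1 : ‖w‖ = 1 := by
    have h2 : ‖w‖ ^ M = 1 := by rw [← norm_pow, hw, hz]
    exact (pow_eq_one_iff_of_nonneg (norm_nonneg _) hM.ne').1 h2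
  rw [norm_mul, norm_pow, hprim.norm'_eq_one hM.ne', one_pow, mul_one, h1]

/-- The averaging identity. -/
private theorem classFn_avg (c : ℤ → ℂ) (hs : Summable fun n => ‖c n‖) (M : ℕ) (hM : 0 < M)
    (j : ℤ) {z w : ℂ} (hz : ‖z‖ = 1) (hw : w ^ M = z) :
    ∑ s ∈ Finset.range M,
      (w * Complex.exp (2 * Real.pi * Complex.I / (M : ℂ)) ^ s) ^ (-j) *
        ∑' n : ℤ, c n * (w * Complex.exp (2 * Real.pi * Complex.I / (M : ℂ)) ^ s) ^ n =
      M * cls c M j z := by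
  set ζ := Complex.exp (2 * Real.pi * Complex.I / (M : ℂ)) with hζ
  have hnorm : ∀ s : ℕ, ‖w * ζ ^ s‖ = 1 := classFn_norm_root M hM hz hw
  have hne : ∀ s : ℕ, w * ζ ^ s ≠ 0 := by
    intro s h
    have := hnorm s
    rw [h, norm_zero] at this
    exact zero_ne_one this
  have hw0 : w ≠ 0 := by
    have := hne 0
    simpa using this
  have h1 : ∀ s : ℕ, (w * ζ ^ s) ^ (-j) * ∑' n : ℤ, c n * (w * ζ ^ s) ^ n =
      ∑' n : ℤ, c n * w ^ (n - j) * (ζ ^ s) ^ (n - j) := by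
    intro s
    rw [← tsum_mul_left]
    congr 1
    ext n
    have h2 : (w * ζ ^ s) ^ (n - j) = w ^ (n - j) * (ζ ^ s) ^ (n - j) := mul_zpow _ _ _
    rw [mul_assoc, ← h2, zpow_sub₀ (hne s), zpow_neg]
    field_simp
  have hsum : ∀ s : ℕ, Summable fun n : ℤ => c n * w ^ (n - j) * (ζ ^ s) ^ (n - j) := by
    intro s
    apply Summable.of_norm
    refine hs.congr fun n => ?_
    rw [mul_assoc, ← mul_zpow, norm_mul, norm_zpow, hnorm s, one_zpow, mul_one]
  rw [Finset.sum_congr rfl fun s _ => h1 s, ← Summable.tsum_finsetSum fun s _ => hsum s]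
  have h3 : ∀ n : ℤ, ∑ s ∈ Finset.range M, c n * w ^ (n - j) * (ζ ^ s) ^ (n - j) =
      c n * w ^ (n - j) * (if (M : ℤ) ∣ (n - j) then (M : ℂ) else 0) := by
    intro n
    rw [← Finset.mul_sum, classFn_root M hM]
  simp only [h3]
  have hsupp : Function.support (fun n : ℤ => c n * w ^ (n - j) *
      (if (M : ℤ) ∣ (n - j) then (M : ℂ) else 0)) ⊆ Set.range fun i : ℤ => j + i * M := by
    intro n hn
    rw [Function.mem_support] at hn
    by_cases hd : (M : ℤ) ∣ (n - j)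
    · obtain ⟨i, hi⟩ := hd
      refine ⟨i, ?_⟩
      simp only
      linarith [mul_comm (M : ℤ) i]
    · simp [hd] at hn
  rw [← (classFn_inj M hM j).tsum_eq hsupp, cls, ← tsum_mul_left]
  congr 1
  ext i
  have h4 : j + i * (M : ℤ) - j = i * M := by ring
  rw [h4, if_pos (Dvd.intro_left i rfl), mul_comm i (M : ℤ), zpow_mul, zpow_natCast, hw]
  ring

private theorem classFn_exists_root (M : ℕ) (hM : 0 < M) (z : ℂ) : ∃ w : ℂ, w ^ M = z :=
  ⟨z ^ ((M : ℂ)⁻¹), Complex.cpow_nat_inv_pow z hM.ne'⟩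

/-- Averaging over the `M`-th roots of `z` bounds linear combinations of two class functions. -/
theorem cls_pair_bound (c : ℤ → ℂ) (hs : Summable fun n => ‖c n‖) (B : ℝ)
    (hB : ∀ z : ℂ, ‖z‖ = 1 → ‖∑' n : ℤ, c n * z ^ n‖ ≤ B) (M : ℕ) (hM : 0 < M) (m : ℕ)
    (z α β : ℂ) (hz : ‖z‖ = 1) :
    ∃ u : ℂ, ‖u‖ = ‖β‖ ∧
      ‖α * cls c M 0 z + β * cls c M (-(m : ℤ)) z‖ ≤
        B * ((∑ s ∈ Finset.range M,
          ‖α + u * Complex.exp (2 * Real.pi * Complex.I * (s * m : ℕ) / (M : ℂ))‖) / M) := by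
  obtain ⟨w, hw⟩ := classFn_exists_root M hM z
  have hM0 : (M : ℝ) ≠ 0 := by exact_mod_cast hM.ne'
  have hMC : (M : ℂ) ≠ 0 := by exact_mod_cast hM.ne'
  have hnorm := classFn_norm_root M hM hz hw
  refine ⟨β * w ^ m, ?_, ?_⟩
  · have h1 : ‖w‖ = 1 := by simpa using hnorm 0
    rw [norm_mul, norm_pow, h1, one_pow, mul_one]
  · have e0 := classFn_avg c hs M hM 0 hz hw
    have e1 := classFn_avg c hs M hM (-(m : ℤ)) hz hw
    have hexp : ∀ s : ℕ, Complex.exp (2 * Real.pi * Complex.I * (s * m : ℕ) / (M : ℂ)) =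
        (Complex.exp (2 * Real.pi * Complex.I / (M : ℂ)) ^ s) ^ m := by
      intro s
      rw [← pow_mul, ← Complex.exp_nat_mul]
      congr 1
      push_cast
      ring
    set ζ := Complex.exp (2 * Real.pi * Complex.I / (M : ℂ)) with hζ
    have e2 : (M : ℂ) * (α * cls c M 0 z + β * cls c M (-(m : ℤ)) z) =
        ∑ s ∈ Finset.range M, (α + β * w ^ m * (ζ ^ s) ^ m) *
          ∑' n : ℤ, c n * (w * ζ ^ s) ^ n := by
      have e3 : (M : ℂ) * (α * cls c M 0 z + β * cls c M (-(m : ℤ)) z) =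
          α * (M * cls c M 0 z) + β * (M * cls c M (-(m : ℤ)) z) := by ring
      rw [e3, ← e0, ← e1, Finset.mul_sum, Finset.mul_sum, ← Finset.sum_add_distrib]
      apply Finset.sum_congr rfl
      intro s _
      rw [neg_zero, zpow_zero, neg_neg, zpow_natCast, mul_pow]
      ring
    have e4 : (M : ℝ) * ‖α * cls c M 0 z + β * cls c M (-(m : ℤ)) z‖ ≤
        ∑ s ∈ Finset.range M, ‖α + β * w ^ m * (ζ ^ s) ^ m‖ * B := by
      have e5 : (M : ℝ) * ‖α * cls c M 0 z + β * cls c M (-(m : ℤ)) z‖ =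
          ‖(M : ℂ) * (α * cls c M 0 z + β * cls c M (-(m : ℤ)) z)‖ := by
        rw [norm_mul, Complex.norm_natCast]
      rw [e5, e2]
      refine (norm_sum_le _ _).trans (Finset.sum_le_sum fun s _ => ?_)
      rw [norm_mul]
      exact mul_le_mul_of_nonneg_left (hB _ (hnorm s)) (norm_nonneg _)
    simp only [hexp]
    have hMpos : (0 : ℝ) < M := by exact_mod_cast hM
    rw [← mul_div_assoc, le_div_iff₀ hMpos, mul_comm, Finset.mul_sum]
    refine e4.trans (le_of_eq (Finset.sum_congr rfl fun s _ => mul_comm _ _))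

/-- The special case of one class. -/
theorem cls_bound (c : ℤ → ℂ) (hs : Summable fun n => ‖c n‖) (B : ℝ)
    (hB : ∀ z : ℂ, ‖z‖ = 1 → ‖∑' n : ℤ, c n * z ^ n‖ ≤ B) (M : ℕ) (hM : 0 < M) (j : ℤ)
    (z : ℂ) (hz : ‖z‖ = 1) : ‖cls c M j z‖ ≤ B := by
  obtain ⟨w, hw⟩ := classFn_exists_root M hM z
  have hnorm := classFn_norm_root M hM hz hw
  have e0 := classFn_avg c hs M hM j hz hw
  set ζ := Complex.exp (2 * Real.pi * Complex.I / (M : ℂ)) with hζ
  have hMpos : (0 : ℝ) < M := by exact_mod_cast hM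
  have e4 : (M : ℝ) * ‖cls c M j z‖ ≤ ∑ s ∈ Finset.range M, B := by
    have e5 : (M : ℝ) * ‖cls c M j z‖ = ‖(M : ℂ) * cls c M j z‖ := by
      rw [norm_mul, Complex.norm_natCast]
    rw [e5, ← e0]
    refine (norm_sum_le _ _).trans (Finset.sum_le_sum fun s _ => ?_)
    rw [norm_mul, norm_zpow, hnorm s, one_zpow, one_mul]
    exact hB _ (hnorm s)
  rw [Finset.sum_const, Finset.card_range, nsmul_eq_mul] at e4
  exact le_of_mul_le_mul_left e4 hMpos

end Pool.Agent.MaxTerm59
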