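import Pool.Agent.MaxTerm59.LeafI
import Pool.Agent.MaxTerm59.ConjI

namespace Pool.Agent.MaxTerm59

/-- no admissible `q` in the square with centre `(cx, cy)/Q` and half side `1/Q` -/
def CellI (cx cy : ℤ) (Q : ℕ) : Prop :=
  ∀ q s, HypI (100 / 61) (1 / 2000) q s → |q.re * Q - cx| ≤ 1 → |q.im * Q - cy| ≤ 1 → False

/-- geometric side conditions of a leaf -/
def geomOK (cx cy : Int) (Q r rc sig : Nat) : Bool :=
  let ax := cx.natAbs
  let ay := cy.natAbs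
  (decide (8297 ≤ r) || decide (100000000 * ((ax + 1) ^ 2 + (ay + 1) ^ 2) ≤ (r - 5) ^ 2 * Q ^ 2)) &&
  decide (5 ≤ r) && decide (r ≤ rc) &&
  decide (100000000 * (ax ^ 2 + ay ^ 2) ≤ rc ^ 2 * Q ^ 2) &&
  decide (1000000000000 * Q ^ 2 ≤
    3721 * (sig ^ 2 * Q ^ 2 + ((ax - 1) ^ 2 + (ay - 1) ^ 2) * 100000000 + 200000000 * Q ^ 2))

theorem leafI_cell (cx cy : ℤ) (Q r rc sig P : ℕ) (nodes : List ℕ) (hQ : 0 < Q)
    (h : checkLeafI ⟨cx, cy⟩ Q r rc sig P nodes = true) (hg : geomOK cx cy Q r rc sig = true) :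
    CellI cx cy Q := by
  intro q s H h1 h2
  have hQ' : (0 : ℝ) < Q := by exact_mod_cast hQ
  simp only [geomOK, Bool.and_eq_true, Bool.or_eq_true, decide_eq_true_eq] at hg
  obtain ⟨⟨⟨⟨g1, g2⟩, g3⟩, g4⟩, g5⟩ := hg
  have hax : ((cx.natAbs : ℕ) : ℝ) = |(cx : ℝ)| := by
    rw [Nat.cast_natAbs]; push_cast; rfl
  have hay : ((cy.natAbs : ℕ) : ℝ) = |(cy : ℝ)| := by
    rw [Nat.cast_natAbs]; push_cast; rfl
  have hnq : ‖q‖ ^ 2 = q.re ^ 2 + q.im ^ 2 := by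
    rw [← Complex.normSq_eq_norm_sq, Complex.normSq_apply]; ring
  have hQ2 : (0 : ℝ) < (Q : ℝ) ^ 2 := by positivity
  -- upper bounds for the coordinates
  have ux : |q.re * Q| ≤ |(cx : ℝ)| + 1 := by
    calc |q.re * Q| = |(q.re * Q - cx) + cx| := by ring_nf
      _ ≤ |q.re * Q - cx| + |(cx : ℝ)| := abs_add_le _ _
      _ ≤ |(cx : ℝ)| + 1 := by linarith
  have uy : |q.im * Q| ≤ |(cy : ℝ)| + 1 := by
    calc |q.im * Q| = |(q.im * Q - cy) + cy| := by ring_nf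
      _ ≤ |q.im * Q - cy| + |(cy : ℝ)| := abs_add_le _ _
      _ ≤ |(cy : ℝ)| + 1 := by linarith
  have lx : ((cx.natAbs - 1 : ℕ) : ℝ) ≤ |q.re * Q| := by
    have h3 : |(cx : ℝ)| - 1 ≤ |q.re * Q| := by
      have h4 : |(cx : ℝ)| ≤ |q.re * Q| + |q.re * Q - cx| := by
        calc |(cx : ℝ)| = |q.re * Q - (q.re * Q - cx)| := by ring_nf
          _ ≤ |q.re * Q| + |q.re * Q - cx| := abs_sub _ _
      linarith
    rcases Nat.eq_zero_or_pos cx.natAbs with h4 | h4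
    · rw [h4]
      exact (by simp : ((0 - 1 : ℕ) : ℝ) ≤ 0).trans (abs_nonneg _)
    · rw [Nat.cast_sub h4, hax]; push_cast; exact h3
  have ly : ((cy.natAbs - 1 : ℕ) : ℝ) ≤ |q.im * Q| := by
    have h3 : |(cy : ℝ)| - 1 ≤ |q.im * Q| := by
      have h4 : |(cy : ℝ)| ≤ |q.im * Q| + |q.im * Q - cy| := by
        calc |(cy : ℝ)| = |q.im * Q - (q.im * Q - cy)| := by ring_nf
          _ ≤ |q.im * Q| + |q.im * Q - cy| := abs_sub _ _
      linarith
    rcases Nat.eq_zero_or_pos cy.natAbs with h4 | h4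
    · rw [h4]
      exact (by simp : ((0 - 1 : ℕ) : ℝ) ≤ 0).trans (abs_nonneg _)
    · rw [Nat.cast_sub h4, hay]; push_cast; exact h3
  have hsq : ‖q‖ ^ 2 * (Q : ℝ) ^ 2 = |q.re * Q| ^ 2 + |q.im * Q| ^ 2 := by
    rw [hnq, sq_abs, sq_abs]; ring
  have hre : (q - (⟨cx, cy⟩ : GI).toC / Q).re = q.re - cx / Q := by
    rw [Complex.sub_re]
    congr 1
    have : (⟨cx, cy⟩ : GI).toC / (Q : ℂ) = (⟨(cx : ℝ) / Q, (cy : ℝ) / Q⟩ : ℂ) := by
      rw [← Complex.ofReal_natCast]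
      apply Complex.ext
      · rw [Complex.div_ofReal_re]; rfl
      · rw [Complex.div_ofReal_im]; rfl
    rw [this]
  have him : (q - (⟨cx, cy⟩ : GI).toC / Q).im = q.im - cy / Q := by
    rw [Complex.sub_im]
    congr 1
    have : (⟨cx, cy⟩ : GI).toC / (Q : ℂ) = (⟨(cx : ℝ) / Q, (cy : ℝ) / Q⟩ : ℂ) := by
      rw [← Complex.ofReal_natCast]
      apply Complex.ext
      · rw [Complex.div_ofReal_re]; rfl
      · rw [Complex.div_ofReal_im]; rfl
    rw [this]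
  refine leafI_sound ⟨cx, cy⟩ Q r rc sig P nodes hQ h q s H ?_ ?_ g3 ?_ ?_
  · -- distance to the centre
    apply le_of_sq_le_sq _ (by positivity)
    rw [← Complex.normSq_eq_norm_sq, Complex.normSq_apply, hre, him]
    have e1 : q.re - cx / Q = (q.re * Q - cx) / Q := by field_simp
    have e2 : q.im - cy / Q = (q.im * Q - cy) / Q := by field_simp
    rw [e1, e2]
    have k1 : (q.re * Q - cx) ^ 2 ≤ 1 := by
      rw [← sq_abs]; exact pow_le_one₀ (abs_nonneg _) h1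
    have k2 : (q.im * Q - cy) ^ 2 ≤ 1 := by
      rw [← sq_abs]; exact pow_le_one₀ (abs_nonneg _) h2
    have k3 : (q.re * Q - cx) / Q * ((q.re * Q - cx) / Q) + (q.im * Q - cy) / Q * ((q.im * Q - cy) / Q)
        = ((q.re * Q - cx) ^ 2 + (q.im * Q - cy) ^ 2) / (Q : ℝ) ^ 2 := by
      field_simp
    rw [k3, div_pow]
    apply div_le_div_of_nonneg_right _ hQ2.le
    nlinarith
  · -- radius
    rcases g1 with g1 | g1
    · have k1 : (8297 : ℝ) ≤ r := by exact_mod_cast g1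
      have k2 := H.q_sq
      have k3 : ‖q‖ ≤ 8292 / 10000 := by
        apply le_of_sq_le_sq _ (by norm_num)
        nlinarith
      linarith
    · have k1 : (100000000 : ℝ) * ((|(cx : ℝ)| + 1) ^ 2 + (|(cy : ℝ)| + 1) ^ 2)
          ≤ ((r : ℝ) - 5) ^ 2 * (Q : ℝ) ^ 2 := by
        have := (Nat.cast_le (α := ℝ)).2 g1
        push_cast [Nat.cast_sub g2] at this
        rw [← hax, ← hay]
        simpa using this
      have k2 : |q.re * Q| ^ 2 ≤ (|(cx : ℝ)| + 1) ^ 2 := pow_le_pow_left₀ (abs_nonneg _) ux 2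
      have k3 : |q.im * Q| ^ 2 ≤ (|(cy : ℝ)| + 1) ^ 2 := pow_le_pow_left₀ (abs_nonneg _) uy 2
      have k4 : (5 : ℝ) ≤ r := by exact_mod_cast g2
      have k5 : ‖q‖ ≤ ((r : ℝ) - 5) / 10000 := by
        apply le_of_sq_le_sq _ (by linarith)
        have k6 : ‖q‖ ^ 2 * (Q : ℝ) ^ 2 * 100000000 ≤ ((r : ℝ) - 5) ^ 2 * (Q : ℝ) ^ 2 := by
          rw [hsq]; linarith
        have k7 : ‖q‖ ^ 2 * 100000000 ≤ ((r : ℝ) - 5) ^ 2 := by
          by_contra hcon
          push Not at hcon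
          have := mul_lt_mul_of_pos_right hcon hQ2
          linarith
        rw [div_pow]
        rw [le_div_iff₀ (by norm_num)]
        linarith
      linarith
  · -- centre
    have k0 : (⟨cx, cy⟩ : GI).toC / (Q : ℂ) = (⟨(cx : ℝ) / Q, (cy : ℝ) / Q⟩ : ℂ) := by
      rw [← Complex.ofReal_natCast]
      apply Complex.ext
      · rw [Complex.div_ofReal_re]; rfl
      · rw [Complex.div_ofReal_im]; rfl
    rw [k0]
    apply le_of_sq_le_sq _ (by positivity)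
    rw [← Complex.normSq_eq_norm_sq, Complex.normSq_apply]
    have k1 : (100000000 : ℝ) * ((cx : ℝ) ^ 2 + (cy : ℝ) ^ 2) ≤ (rc : ℝ) ^ 2 * (Q : ℝ) ^ 2 := by
      have := (Nat.cast_le (α := ℝ)).2 g4
      push_cast at this
      rw [← sq_abs (cx : ℝ), ← sq_abs (cy : ℝ), ← hax, ← hay]
      simpa using this
    have k3 : (cx : ℝ) / Q * ((cx : ℝ) / Q) + (cy : ℝ) / Q * ((cy : ℝ) / Q)
        = ((cx : ℝ) ^ 2 + (cy : ℝ) ^ 2) / (Q : ℝ) ^ 2 := by
      field_simp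
    simp only
    rw [k3, div_pow, div_le_div_iff₀ hQ2 (by norm_num)]
    linarith
  · -- energy
    have k1 : (1000000000000 : ℝ) * (Q : ℝ) ^ 2 ≤
        3721 * ((sig : ℝ) ^ 2 * (Q : ℝ) ^ 2 + (((cx.natAbs - 1 : ℕ) : ℝ) ^ 2 +
          ((cy.natAbs - 1 : ℕ) : ℝ) ^ 2) * 100000000 + 200000000 * (Q : ℝ) ^ 2) := by
      have := (Nat.cast_le (α := ℝ)).2 g5
      exact_mod_cast this
    have k2 : ((cx.natAbs - 1 : ℕ) : ℝ) ^ 2 ≤ |q.re * Q| ^ 2 :=
      pow_le_pow_left₀ (Nat.cast_nonneg _) lx 2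
    have k3 : ((cy.natAbs - 1 : ℕ) : ℝ) ^ 2 ≤ |q.im * Q| ^ 2 :=
      pow_le_pow_left₀ (Nat.cast_nonneg _) ly 2
    have k4 : (1000000000000 : ℝ) * (Q : ℝ) ^ 2 ≤
        3721 * ((sig : ℝ) ^ 2 + ‖q‖ ^ 2 * 100000000 + 200000000) * (Q : ℝ) ^ 2 := by
      have : 3721 * ((sig : ℝ) ^ 2 + ‖q‖ ^ 2 * 100000000 + 200000000) * (Q : ℝ) ^ 2 =
        3721 * ((sig : ℝ) ^ 2 * (Q : ℝ) ^ 2 + (‖q‖ ^ 2 * (Q : ℝ) ^ 2) * 100000000
          + 200000000 * (Q : ℝ) ^ 2) := by ring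
      rw [this, hsq]
      linarith
    have k5 := le_of_mul_le_mul_right k4 hQ2
    rw [div_pow, div_pow]
    linarith

theorem CellI.split (cx cy : ℤ) (Q : ℕ) (hQ : 0 < Q)
    (h1 : CellI (2 * cx - 1) (2 * cy - 1) (2 * Q)) (h2 : CellI (2 * cx + 1) (2 * cy - 1) (2 * Q))
    (h3 : CellI (2 * cx - 1) (2 * cy + 1) (2 * Q)) (h4 : CellI (2 * cx + 1) (2 * cy + 1) (2 * Q)) :
    CellI cx cy Q := by
  intro q s H hx hy
  rw [abs_le] at hx hy
  have e1 : ((2 * Q : ℕ) : ℝ) = 2 * Q := by push_cast; ring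
  rcases le_total (q.re * Q) cx with h5 | h5 <;> rcases le_total (q.im * Q) cy with h6 | h6
  · refine h1 q s H ?_ ?_ <;> rw [e1, abs_le] <;> push_cast <;> constructor <;> linarith
  · refine h3 q s H ?_ ?_ <;> rw [e1, abs_le] <;> push_cast <;> constructor <;> linarith
  · refine h2 q s H ?_ ?_ <;> rw [e1, abs_le] <;> push_cast <;> constructor <;> linarith
  · refine h4 q s H ?_ ?_ <;> rw [e1, abs_le] <;> push_cast <;> constructor <;> linarith

theorem CellI_upper (h1 : CellI (-1) 1 2) (h2 : CellI 1 1 2) (q : ℂ) (s : ℕ → ℂ)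
    (H : HypI (100 / 61) (1 / 2000) q s) (hq : 0 ≤ q.im) : False := by
  have h3 := Complex.abs_re_le_norm q
  have h4 := Complex.abs_im_le_norm q
  have h5 := H.q_lt
  have h6 := abs_le.1 h3
  have h7 := abs_le.1 h4
  rcases le_total q.re 0 with h | h
  · refine h1 q s H ?_ ?_ <;> rw [abs_le] <;> push_cast <;> constructor <;> linarith
  · refine h2 q s H ?_ ?_ <;> rw [abs_le] <;> push_cast <;> constructor <;> linarith

/-- the two root squares cover the upper half of the disc; the lower half by conjugation -/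
theorem noHypI_of_roots (h1 : CellI (-1) 1 2) (h2 : CellI 1 1 2) (q : ℂ) (s : ℕ → ℂ) :
    ¬ HypI (100 / 61) (1 / 2000) q s := by
  intro H
  rcases le_total 0 q.im with h | h
  · exact CellI_upper h1 h2 q s H h
  · refine CellI_upper h1 h2 _ _ H.conj ?_
    rw [Complex.conj_im]
    linarith

end Pool.Agent.MaxTerm59
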