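import Pool.Agent.MaxTerm59.LeafII

namespace Pool.Agent.MaxTerm59

/-- no admissible `t` in `[lo/10^4, hi/10^4]` for type `ty` -/
def CellII (ty lo hi : ℕ) : Prop :=
  ∀ Y t gl gr hp hn, HypII (100 / 61) (1 / 2000) ty Y t gl gr hp hn →
    (lo : ℝ) / 10000 ≤ t → t ≤ (hi : ℝ) / 10000 → False

theorem leafII_cell (ty tlo thi sig nL nR nP nN : ℕ) (nodes : List ℕ) (hty : ty < 3)
    (h : checkLeafII ty tlo thi sig nL nR nP nN nodes = true) : CellII ty tlo thi := by
  intro Y t gl gr hp hn H h1 h2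
  exact leafII_sound ty tlo thi sig nL nR nP nN nodes hty h Y t gl gr hp hn H h1 h2

theorem CellII.append {ty a b c : ℕ} (h1 : CellII ty a b) (h2 : CellII ty b c) : CellII ty a c := by
  intro Y t gl gr hp hn H ha hc
  rcases le_total t ((b : ℝ) / 10000) with h | h
  · exact h1 Y t gl gr hp hn H ha h
  · exact h2 Y t gl gr hp hn H h hc

theorem noHypII_of_cells (h0 : CellII 0 0 8298) (h1 : CellII 1 0 9398) (h2 : CellII 2 0 9110)
    (ty : ℕ) (hty : ty < 3) (Y t : ℝ) (gl gr hp hn : ℕ → ℂ) :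
    ¬ HypII (100 / 61) (1 / 2000) ty Y t gl gr hp hn := by
  intro H
  have hY : Y ≤ 8292 / 10000 := by
    have := H.Y_sq
    apply le_of_sq_le_sq _ (by norm_num)
    nlinarith
  have hp' := H.t_pow
  have ht := H.t_pos
  interval_cases ty
  · refine h0 Y t gl gr hp hn H (by simpa using ht.le) ?_
    simp only [dd] at hp'
    norm_num at hp' ⊢
    linarith
  · refine h1 Y t gl gr hp hn H (by simpa using ht.le) ?_
    have e : dd 1 = 3 := rfl
    rw [e] at hp'
    by_contra hcon
    push Not at hcon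
    have : (((9398 : ℕ) : ℝ) / 10000) ^ 3 < t ^ 3 :=
      pow_lt_pow_left₀ hcon (by positivity) (by norm_num)
    norm_num at this hp'
    linarith
  · refine h2 Y t gl gr hp hn H (by simpa using ht.le) ?_
    have e : dd 2 = 2 := rfl
    rw [e] at hp'
    by_contra hcon
    push Not at hcon
    have : (((9110 : ℕ) : ℝ) / 10000) ^ 2 < t ^ 2 :=
      pow_lt_pow_left₀ hcon (by positivity) (by norm_num)
    norm_num at this hp'
    linarith

end Pool.Agent.MaxTerm59
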