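import Pool.Agent.MaxTerm59.Gauss

namespace Pool.Agent.MaxTerm59

/-- the common scale of the computations -/
abbrev SC : Nat := 100000000
/-- denominators of the nodes -/
abbrev DN : Nat := 32045
/-- denominators of the weights -/
abbrev HN : Nat := 100000

/-- upper bound for `SC * (r/10^4)^i` -/
def powUp (r i : Nat) : Nat := r ^ i * SC / 10000 ^ i + 1

/-- state of the loop: (node, h * z^(i+2), h * conj z ^ i) -/
abbrev StI := List (GI × GI × GI)

def stepI (l : StI) : StI := l.map fun x => (x.1, x.2.1.mul x.1, x.2.2.mul x.1.conj)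

def sumU (l : StI) : GI := l.foldr (fun x s => x.2.1.add s) ⟨0, 0⟩
def sumV (l : StI) : GI := l.foldr (fun x s => x.2.2.add s) ⟨0, 0⟩

/-- accumulated penalty -/
def loopI (c : GI) (Q r rc sig : Nat) : Nat → Nat → StI → GI → Nat → Nat
  | 0, _, _, _, acc => acc
  | f+1, i, l, cp, acc =>
    let U := sumU l
    let V := sumV l
    let num := (V.smul ((DN ^ 2 * Q ^ (i+1) : Nat) : Int)).add (cp.mul U)
    let t := absUp num SC (HN * DN ^ (i+2) * Q ^ (i+1))
    let u := absUp U SC (HN * DN ^ (i+2))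
    let rp := powUp r i
    let si := min rp (sig * 10000)
    let v := u * (i+1) * powUp rc i * 141422 / (SC * 100000 * Q) + 1
    loopI c Q r rc sig f (i+1) (stepI l) (cp.mul c) (acc + (si * (t + v) / SC + 1))

/-- decode a node -/
def decodeNd (n : Nat) : GI × GI :=
  (⟨(n / 2 ^ 54 : Nat) - 32045, (n / 2 ^ 36 % 2 ^ 18 : Nat) - 32045⟩,
   ⟨(n / 2 ^ 18 % 2 ^ 18 : Nat) - 100000, (n % 2 ^ 18 : Nat) - 100000⟩)

def encodeNd (a b x y : Int) : Nat :=
  ((((a + 32045).toNat * 2 ^ 18 + (b + 32045).toNat) * 2 ^ 18) + (x + 100000).toNat) * 2 ^ 18 + (y + 100000).toNat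

def checkLeafI (c : GI) (Q r rc sig P : Nat) (nodes : List Nat) : Bool :=
  let nd := nodes.map decodeNd
  let l1 : StI := nd.map fun x => (x.1, x.2.mul (x.1.mul (x.1.mul x.1)), x.2.mul x.1.conj)
  let s0 := nd.foldr (fun x s => x.2.add s) ⟨0, 0⟩
  let s1 := nd.foldr (fun x s => (x.2.mul x.1).add s) ⟨0, 0⟩
  let s2 := nd.foldr (fun x s => (x.2.mul (x.1.mul x.1)).add s) ⟨0, 0⟩
  let acc := loopI c Q r rc sig P 1 l1 (c.mul c) 0
  let u0 := absUp s2 SC (HN * DN ^ 2) * 141422 / (100000 * Q) + 1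
  let tail := 2 * powUp r (P+1) * 10000 / (10000 - r) + 1
  let num := s0.re * ((DN ^ 2 * Q : Nat) : Int) + s1.re * ((DN * Q : Nat) : Int) + (s2.mul c).re
  let den := HN * DN ^ 2 * Q
  (nd.all fun x => decide (x.1.nsq = DN ^ 2)) &&
  decide ((nd.map fun x => absUp x.2 1000 1).sum ≤ 1000 * HN) &&
  decide (r < 10000) &&
  decide (((acc + tail + u0 : Nat) + (SC * 100 / 61 + 1) : Nat) * (den : Int) < num * SC)

end Pool.Agent.MaxTerm59
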