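import Pool.Agent.MaxTerm59.CheckI

namespace Pool.Agent.MaxTerm59

/-- the root used for the exponents -/
def dd (ty : Nat) : Nat := if ty = 0 then 1 else if ty = 1 then 3 else 2
def eL (ty i : Nat) : Nat := if ty = 0 then 2 * i + 1 else if ty = 1 then 8 * i + 5 else 8 * i + 6
def eR (ty i : Nat) : Nat := dd ty * (i + 1)
def eP (ty i : Nat) : Nat := if ty = 2 then 2 * i - 1 else dd ty * (i - 1)
def eN (ty i : Nat) : Nat := if ty = 0 then 2 * i + 3 else if ty = 1 then 8 * i + 11 else 8 * i + 10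
/-- step of the exponents of the left families -/
def stL (ty : Nat) : Nat := if ty = 0 then 2 else 8

abbrev StII := List (GI × GI)

def stepII (l : StII) : StII := l.map fun x => (x.1, x.2.mul x.1)

def sumII (l : StII) : GI := l.foldr (fun x s => x.2.add s) ⟨0, 0⟩

/-- accumulated penalty: the state holds `(multiplier, w)` where the multiplier is `z` or `conj z`,
`k` is the number of factors `DN` in the denominators of `w`. -/
def loopII (e : Nat → Nat) (r sig : Nat) : Nat → Nat → Nat → StII → Nat → Nat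
  | 0, _, _, _, acc => acc
  | f+1, i, k, l, acc =>
    let t := absUp (sumII l) SC (HN * DN ^ k)
    let si := min (powUp r (e i)) (sig * 10000)
    loopII e r sig f (i+1) (k+1) (stepII l) (acc + (si * t / SC + 1))

/-- upper bound (scale `SC`) for the averaged cost of a pair of weights of moduli `A`, `b`. -/
def costUp (ty A b : Nat) : Nat :=
  if ty = 2 then sqrtUp (A ^ 2 + b ^ 2)
  else if ty = 1 then A + (b ^ 2 / (4 * A) + 1) + (b ^ 3 / (8 * A ^ 2) + 1) + (b ^ 4 / (8 * A ^ 2 * (A - b)) + 1)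
  else A + (b ^ 2 / (4 * A) + 1) + (b ^ 4 / (16 * A ^ 2 * (A - b)) + 1)

/-- decode a node `(z, α, β)` -/
def decodeNd2 (n : Nat) : GI × GI × GI :=
  (⟨(n / 2 ^ 90 : Nat) - 32045, (n / 2 ^ 72 % 2 ^ 18 : Nat) - 32045⟩,
   ⟨(n / 2 ^ 54 % 2 ^ 18 : Nat) - 100000, (n / 2 ^ 36 % 2 ^ 18 : Nat) - 100000⟩,
   ⟨(n / 2 ^ 18 % 2 ^ 18 : Nat) - 100000, (n % 2 ^ 18 : Nat) - 100000⟩)

/-- geometric tail with first exponent `e`, step `s`, weight `W` (all at scale `SC`). -/
def tailUp (W r e s : Nat) : Nat :=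
  W * powUp r e * 10000 ^ s / (SC * (10000 ^ s - r ^ s)) + 1

def checkLeafII (ty tlo thi sig nL nR nP nN : Nat) (nodes : List Nat) : Bool :=
  let nd := nodes.map decodeNd2
  let a0 := nd.foldr (fun x s => x.2.1.add s) ⟨0, 0⟩
  let a1 := nd.foldr (fun x s => (x.2.1.mul x.1).add s) ⟨0, 0⟩
  let b0 := nd.foldr (fun x s => x.2.2.add s) ⟨0, 0⟩
  let pL := loopII (eL ty) thi sig nL 0 1 (nd.map fun x => (x.1.conj, x.2.1.mul x.1.conj)) 0
  let pR := loopII (eR ty) thi sig nR 0 2 (nd.map fun x => (x.1, (x.2.1.mul x.1).mul x.1)) 0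
  let pP := loopII (eP ty) thi sig nP 0 1 (nd.map fun x => (x.1, x.2.2.mul x.1)) 0
  let pN := loopII (eN ty) thi sig nN 0 1 (nd.map fun x => (x.1.conj, x.2.2.mul x.1.conj)) 0
  let WA := (nd.map fun x => absUp x.2.1 1000 1).sum
  let WB := (nd.map fun x => absUp x.2.2 1000 1).sum
  let tails := tailUp WA thi (eL ty nL) (stL ty) + tailUp WA thi (eR ty nR) (dd ty)
    + tailUp WB thi (eP ty nP) (dd ty) + tailUp WB thi (eN ty nN) (stL ty)
  let Ylo := tlo ^ dd ty * SC / 10000 ^ dd ty - 50000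
  let num := (a0.re * DN + a1.re) * SC + b0.re * ((DN * Ylo : Nat) : Int)
  (nd.all fun x => decide (x.1.nsq = DN ^ 2)) &&
  (nd.all fun x => decide (absUp x.2.2 1000 1 < absUp x.2.1 1000 1)) &&
  decide ((nd.map fun x => costUp ty (absUp x.2.1 1000 1) (absUp x.2.2 1000 1)).sum ≤ SC) &&
  decide (thi < 10000) && decide (1 ≤ nP) && decide (0 ≤ b0.re) &&
  decide (100000000000000000000 ≤ 3721 * (sig ^ 2 * 100000000 + Ylo ^ 2 + 20000000000000000)) &&
  decide (((pL + pR + pP + pN + tails + (SC * 100 / 61 + 1) : Nat) : Int) * ((HN * DN : Nat) : Int) < num)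

end Pool.Agent.MaxTerm59
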