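import Pool.Agent.MaxTerm59.LocDef

namespace Pool.Agent.MaxTerm59

theorem climb (Y : ℕ → ℝ) (h0 : ∀ k, 0 ≤ Y k) (h1 : ∀ k, Y k ≤ 1) (ε : ℝ) (hε : 0 < ε) :
    ∃ k, Y k ≤ Y (k+1) + ε ∧ Y (k+2) ≤ Y (k+1) + ε := by
  by_contra hcon
  push Not at hcon
  have hstep : ∀ i, 1 ≤ i → Y i + ε < Y (i - 1) ∨ Y i + ε < Y (i + 1) := by
    intro i hi
    obtain ⟨k, rfl⟩ : ∃ k, i = k + 1 := ⟨i - 1, by omega⟩
    by_cases h : Y k ≤ Y (k+1) + ε
    · exact Or.inr (hcon k h)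
    · left
      rw [Nat.add_sub_cancel]
      exact not_le.1 h
  obtain ⟨K, hK⟩ := exists_nat_gt (1 / ε)
  have hK' : 1 < K * ε := by
    rw [div_lt_iff₀ hε] at hK
    exact hK
  have key : ∀ j : ℕ, j ≤ K → ∃ i, K + 1 ≤ i + j ∧ (j : ℝ) * ε ≤ Y i := by
    intro j
    induction j with
    | zero =>
      intro _
      exact ⟨K + 1, by omega, by simpa using h0 (K + 1)⟩
    | succ j ih =>
      intro hj
      obtain ⟨i, hi, hY⟩ := ih (by omega)
      rcases hstep i (by omega) with h | h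
      · refine ⟨i - 1, by omega, ?_⟩
        push_cast
        linarith
      · refine ⟨i + 1, by omega, ?_⟩
        push_cast
        linarith
  obtain ⟨i, _, hY⟩ := key K le_rfl
  have := h1 i
  linarith

theorem Climb_shift {B : ℝ} (c : ℤ → ℂ) (N : ℤ)
    (h : ∀ z, ‖z‖ = 1 → ‖∑' n : ℤ, c n * z ^ n‖ ≤ B) (z : ℂ) (hz : ‖z‖ = 1) :
    ‖∑' n : ℤ, c (n + N) * z ^ n‖ ≤ B := by
  have hz0 : z ≠ 0 := by
    rintro rfl
    simp at hz
  have h1 : ∑' n : ℤ, c (n + N) * z ^ n = (∑' n : ℤ, c n * z ^ n) * z ^ (-N) := by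
    rw [← tsum_mul_right, ← (Equiv.addRight N).tsum_eq (fun n => c n * z ^ n * z ^ (-N))]
    refine tsum_congr fun n => ?_
    simp only [Equiv.coe_addRight]
    rw [mul_assoc, ← zpow_add₀ hz0]
    congr 2
    ring
  rw [h1, norm_mul, norm_zpow, hz, one_zpow, mul_one]
  exact h z hz

/-- Climbing: some vertex is almost extremal. -/
theorem exists_loc {B ε : ℝ} (S : Sys B) (hε : 0 < ε) : Nonempty (Loc B ε) := by
  have hg : ∀ k, 0 < (S.N (k+1) - S.N k).toNat := by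
    intro k
    have := S.Nlt k
    omega
  have hgN : ∀ k, (((S.N (k+1) - S.N k).toNat : ℕ) : ℤ) = S.N (k+1) - S.N k := by
    intro k
    have := S.Nlt k
    omega
  obtain ⟨k, hk1, hk2⟩ := climb
    (fun k => S.x k ^ min (S.N (k+1) - S.N k).toNat (S.N (k+1+1) - S.N (k+1)).toNat)
    (fun k => pow_nonneg (S.x_pos k).le _)
    (fun k => pow_le_one₀ (S.x_pos k).le (S.x_lt k).le) ε hε
  refine ⟨{
    m := (S.N (k+1+1) - S.N (k+1)).toNat
    M := (S.N (k+2+1) - S.N (k+2)).toNat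
    x := S.x (k+1)
    y₁ := S.x k
    y₂ := S.x (k+2)
    c₁ := fun n => S.c (k+1) (n + S.N (k+2))
    c₂ := fun n => S.c (k+2) (n + S.N (k+2))
    hm := hg _
    hM := hg _
    x_pos := S.x_pos _
    x_lt := S.x_lt _
    y₁_pos := S.x_pos _
    y₁_lt := S.x_lt _
    y₂_pos := S.x_pos _
    y₂_lt := S.x_lt _
    summ₁ := (S.summ (k+1)).comp_injective (add_left_injective (S.N (k+2)))
    summ₂ := (S.summ (k+2)).comp_injective (add_left_injective (S.N (k+2)))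
    le₁ := fun n => S.le_one _ _
    le₂ := fun n => S.le_one _ _
    u₁ := ?_
    u₀ := ?_
    u₂ := ?_
    rel := ?_
    bd₁ := fun z hz => Climb_shift _ _ (S.bound (k+1)) z hz
    bd₂ := fun z hz => Climb_shift _ _ (S.bound (k+2)) z hz
    dec₁ := ?_
    dec₂ := ?_
    hy₁ := ?_
    hy₂ := ?_ }⟩
  · have e : -(((S.N (k+1+1) - S.N (k+1)).toNat : ℕ) : ℤ) + S.N (k+2) = S.N (k+1) := by
      rw [hgN (k+1)]; ring
    show ‖S.c (k+1) (-(((S.N (k+1+1) - S.N (k+1)).toNat : ℕ) : ℤ) + S.N (k+2))‖ = 1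
    rw [e]
    exact S.unit_l (k+1)
  · show ‖S.c (k+1) (0 + S.N (k+2))‖ = 1
    rw [zero_add]
    exact S.unit_r (k+1)
  · show ‖S.c (k+2) ((((S.N (k+2+1) - S.N (k+2)).toNat : ℕ) : ℤ) + S.N (k+2))‖ = 1
    rw [hgN (k+2), sub_add_cancel]
    exact S.unit_r (k+2)
  · intro n
    show S.c (k+2) (n + S.N (k+2)) = S.c (k+1) (n + S.N (k+2)) * ((S.x (k+1) : ℝ) : ℂ) ^ (-n)
    have := S.rel (k+1) (n + S.N (k+2))
    rw [show S.N (k+1+1) - (n + S.N (k+2)) = -n by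
      show S.N (k+2) - (n + S.N (k+2)) = -n
      ring] at this
    exact this
  · intro n
    show ‖S.c (k+1) (-(((S.N (k+1+1) - S.N (k+1)).toNat : ℕ) : ℤ) - n + S.N (k+2))‖ ≤ S.x k ^ n
    have e : -(((S.N (k+1+1) - S.N (k+1)).toNat : ℕ) : ℤ) - n + S.N (k+2) = S.N (k+1) - n := by
      rw [hgN (k+1)]; ring
    rw [e]
    have h := S.rel k (S.N (k+1) - n)
    rw [show S.N (k+1) - (S.N (k+1) - n) = (n : ℤ) by ring, zpow_natCast] at h
    rw [h, norm_mul, norm_pow, Complex.norm_real, Real.norm_eq_abs, abs_of_pos (S.x_pos k)]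
    exact mul_le_of_le_one_left (pow_nonneg (S.x_pos k).le _) (S.le_one _ _)
  · intro n
    show ‖S.c (k+2) ((((S.N (k+2+1) - S.N (k+2)).toNat : ℕ) : ℤ) + n + S.N (k+2))‖ ≤ S.x (k+2) ^ n
    have e : (((S.N (k+2+1) - S.N (k+2)).toNat : ℕ) : ℤ) + n + S.N (k+2) = S.N (k+2+1) + n := by
      rw [hgN (k+2)]; ring
    rw [e]
    have h := S.rel (k+2) (S.N (k+2+1) + n)
    rw [show S.N (k+2+1) - (S.N (k+2+1) + n) = -(n : ℤ) by ring, zpow_neg, zpow_natCast] at h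
    have hx : (0 : ℝ) < S.x (k+2) ^ n := pow_pos (S.x_pos _) n
    have h2 : ‖S.c (k+2+1) (S.N (k+2+1) + n)‖ =
        ‖S.c (k+2) (S.N (k+2+1) + n)‖ * (S.x (k+2) ^ n)⁻¹ := by
      rw [h, norm_mul, norm_inv, norm_pow, Complex.norm_real, Real.norm_eq_abs,
        abs_of_pos (S.x_pos (k+2))]
    have h3 := S.le_one (k+2+1) (S.N (k+2+1) + n)
    rw [h2, ← div_eq_mul_inv, div_le_one hx] at h3
    exact h3
  · refine le_trans ?_ hk1
    exact pow_le_pow_of_le_one (S.x_pos k).le (S.x_lt k).le (min_le_right _ _)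
  · refine le_trans ?_ hk2
    exact pow_le_pow_of_le_one (S.x_pos (k+2)).le (S.x_lt (k+2)).le (min_le_left _ _)

end Pool.Agent.MaxTerm59
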