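import Mathlib

namespace Pool.Agent.MaxTerm59

/-- A sequence of consecutive central indices `N k` and corner radii `R k`
(`R k` is the radius at which the central index jumps from `N k` to `N (k+1)`). -/
structure CornerSys (A : ℕ → ℝ) where
  N : ℕ → ℕ
  R : ℕ → ℝ
  Nlt : ∀ k, N k < N (k+1)
  Rpos : ∀ k, 0 < R k
  Rlt : ∀ k, R k < R (k+1)
  pos : ∀ k, 0 < A (N k)
  eq : ∀ k, A (N k) * R k ^ N k = A (N (k+1)) * R k ^ N (k+1)
  le : ∀ k n, A n * R k ^ n ≤ A (N k) * R k ^ N k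
  lt : ∀ k n, N (k+1) < n → A n * R k ^ n < A (N k) * R k ^ N k

end Pool.Agent.MaxTerm59
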