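import Pool.Agent.MaxTerm59.Step
import Pool.Agent.MaxTerm59.CornerDef

namespace Pool.Agent.MaxTerm59

open Filter Topology

/-- The invariants of a central index `p.1` at the radius `p.2`. -/
def Corners_P (A : ℕ → ℝ) (p : ℕ × ℝ) : Prop :=
  0 < p.2 ∧ 0 < A p.1 ∧ (∀ n, A n * p.2 ^ n ≤ A p.1 * p.2 ^ p.1) ∧
    (∀ n, p.1 < n → A n * p.2 ^ n < A p.1 * p.2 ^ p.1)

/-- The largest central index at a radius. -/
theorem Corners_start (A : ℕ → ℝ) (h0 : ∀ n, 0 ≤ A n)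
    (hs : ∀ r : ℝ, 0 ≤ r → Summable fun n => A n * r ^ n)
    (hinf : ∀ n, ∃ m, n < m ∧ 0 < A m) (r0 : ℝ) (hr0 : 0 < r0) :
    ∃ N : ℕ, Corners_P A (N, r0) := by
  obtain ⟨m, -, hm⟩ := hinf 0
  have hpos : 0 < A m * r0 ^ m := by positivity
  have h1 : Tendsto (fun n => A n * r0 ^ n) atTop (𝓝 0) :=
    (hs r0 hr0.le).tendsto_atTop_zero
  obtain ⟨K, hK⟩ := eventually_atTop.1 (h1.eventually (gt_mem_nhds hpos))
  have hmK : m < K := by
    by_contra hcon
    exact lt_irrefl _ (hK m (not_lt.1 hcon))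
  obtain ⟨M, hM1, hM2⟩ := Finset.exists_max_image (Finset.range K) (fun n => A n * r0 ^ n)
    ⟨m, Finset.mem_range.2 hmK⟩
  have hMm : A m * r0 ^ m ≤ A M * r0 ^ M := hM2 m (Finset.mem_range.2 hmK)
  have hall : ∀ n, A n * r0 ^ n ≤ A M * r0 ^ M := by
    intro n
    rcases lt_or_ge n K with h | h
    · exact hM2 n (Finset.mem_range.2 h)
    · exact (hK n h).le.trans hMm
  have hfin : {n : ℕ | A n * r0 ^ n = A M * r0 ^ M}.Finite := by
    refine (Set.finite_Iio K).subset ?_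
    intro n hn
    by_contra hnK
    have h2 := hK n (not_lt.1 hnK)
    have h3 : A n * r0 ^ n = A M * r0 ^ M := hn
    linarith
  obtain ⟨N, hN1, hN2⟩ := Set.exists_max_image _ id hfin ⟨M, rfl⟩
  have hNe : A N * r0 ^ N = A M * r0 ^ M := hN1
  have hN3 : ∀ n, A n * r0 ^ n = A M * r0 ^ M → n ≤ N := fun n hn => hN2 n hn
  refine ⟨N, hr0, ?_, ?_, ?_⟩
  · by_contra hcon
    have h2 : A N = 0 := le_antisymm (not_lt.1 hcon) (h0 N)
    rw [h2, zero_mul] at hNe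
    linarith
  · intro n
    rw [hNe]
    exact hall n
  · intro n hn
    rw [hNe]
    refine lt_of_le_of_ne (hall n) fun h => ?_
    exact absurd (hN3 n h) (not_le.2 hn)

theorem exists_cornerSys (A : ℕ → ℝ) (h0 : ∀ n, 0 ≤ A n)
    (hs : ∀ r : ℝ, 0 ≤ r → Summable fun n => A n * r ^ n)
    (hinf : ∀ n, ∃ m, n < m ∧ 0 < A m) (r0 : ℝ) (hr0 : 0 < r0) :
    ∃ S : CornerSys A, ∀ k, r0 ≤ S.R k := by
  obtain ⟨N0, hN0⟩ := Corners_start A h0 hs hinf r0 hr0
  have hstep : ∀ p : {p : ℕ × ℝ // Corners_P A p}, ∃ p' : {p : ℕ × ℝ // Corners_P A p},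
      p.1.1 < p'.1.1 ∧ p.1.2 < p'.1.2 ∧
        A p.1.1 * p'.1.2 ^ p.1.1 = A p'.1.1 * p'.1.2 ^ p'.1.1 := by
    rintro ⟨⟨N, R⟩, hR, hN, hle, hlt⟩
    obtain ⟨N', R', h1, h2, h3, h4, h5, h6⟩ := corner_step A h0 hs hinf N R hR hN hle hlt
    exact ⟨⟨(N', R'), lt_trans hR h2, h3, h5, h6⟩, h1, h2, h4⟩
  choose st hst1 hst2 hst3 using hstep
  let q : ℕ → {p : ℕ × ℝ // Corners_P A p} := fun k => Nat.rec ⟨(N0, r0), hN0⟩ (fun _ p => st p) k
  have hq0 : q 0 = ⟨(N0, r0), hN0⟩ := rfl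
  have hq : ∀ k, q (k + 1) = st (q k) := fun k => rfl
  have hN : ∀ k, (q k).1.1 < (q (k + 1)).1.1 := fun k => by rw [hq]; exact hst1 _
  have hRl : ∀ k, (q k).1.2 < (q (k + 1)).1.2 := fun k => by rw [hq]; exact hst2 _
  have he : ∀ k, A (q k).1.1 * (q (k + 1)).1.2 ^ (q k).1.1 =
      A (q (k + 1)).1.1 * (q (k + 1)).1.2 ^ (q (k + 1)).1.1 := fun k => by
    rw [hq]; exact hst3 _
  have hr : ∀ k, r0 ≤ (q k).1.2 := by
    intro k
    induction k with
    | zero => rw [hq0]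
    | succ k ih => exact ih.trans (hRl k).le
  refine ⟨{ N := fun k => (q k).1.1
            R := fun k => (q (k + 1)).1.2
            Nlt := hN
            Rpos := fun k => (q (k + 1)).2.1
            Rlt := fun k => hRl (k + 1)
            pos := fun k => (q k).2.2.1
            eq := he
            le := fun k n => by rw [he k]; exact (q (k + 1)).2.2.2.1 n
            lt := fun k n hn => by rw [he k]; exact (q (k + 1)).2.2.2.2 n hn }, ?_⟩
  intro k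
  exact hr (k + 1)

end Pool.Agent.MaxTerm59
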