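import Pool.Agent.MaxTerm59.CostDef

namespace Pool.Agent.MaxTerm59

theorem sum_root_eq_zero (M k : ℕ) (hM : 0 < M) (hk : ¬ M ∣ k) :
    ∑ s ∈ Finset.range M, Complex.exp (2 * Real.pi * Complex.I * (s * k : ℕ) / (M : ℂ)) = 0 := by
  have hM' : (M : ℂ) ≠ 0 := by exact_mod_cast hM.ne'
  set ζ : ℂ := Complex.exp (2 * Real.pi * Complex.I * (k : ℂ) / (M : ℂ)) with hζ
  have h1 : ∀ s : ℕ, Complex.exp (2 * Real.pi * Complex.I * (s * k : ℕ) / (M : ℂ)) = ζ ^ s := by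
    intro s
    rw [hζ, ← Complex.exp_nat_mul]
    congr 1
    push_cast
    ring
  have h2 : ζ ≠ 1 := by
    intro h
    rw [hζ, Complex.exp_eq_one_iff] at h
    obtain ⟨n, hn⟩ := h
    have hpi : (2 * (Real.pi : ℂ) * Complex.I) ≠ 0 := Complex.two_pi_I_ne_zero
    have h5 : (2 * (Real.pi : ℂ) * Complex.I) * (k : ℂ) = (2 * (Real.pi : ℂ) * Complex.I) * (n * M) := by
      rw [div_eq_iff hM'] at hn
      rw [hn]
      ring
    have h6 : (k : ℂ) = n * M := mul_left_cancel₀ hpi h5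
    apply hk
    have h3 : (k : ℤ) = n * M := by exact_mod_cast h6
    have h4 : (M : ℤ) ∣ (k : ℤ) := ⟨n, by rw [h3]; ring⟩
    exact_mod_cast h4
  have h3 : ζ ^ M = 1 := by
    rw [← h1 M, Complex.exp_eq_one_iff]
    refine ⟨k, ?_⟩
    push_cast
    field_simp
  rw [Finset.sum_congr rfl (fun s _ => h1 s), geom_sum_eq h2, h3]
  simp

theorem CostA_norm_root (M k : ℕ) :
    ‖Complex.exp (2 * Real.pi * Complex.I * (k : ℕ) / (M : ℂ))‖ = 1 := by
  have : 2 * Real.pi * Complex.I * (k : ℕ) / (M : ℂ) = ((2 * Real.pi * k / M : ℝ) : ℂ) * Complex.I := by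
    push_cast
    ring
  rw [this, Complex.norm_exp_ofReal_mul_I]

theorem avgCost_l2 (M m : ℕ) (hM : 0 < M) (h1 : ¬ M ∣ m) (α u : ℂ) :
    avgCost M m α u ^ 2 ≤ ‖α‖ ^ 2 + ‖u‖ ^ 2 := by
  have hM' : (0 : ℝ) < M := by exact_mod_cast hM
  set z : ℕ → ℂ := fun s => Complex.exp (2 * Real.pi * Complex.I * (s * m : ℕ) / (M : ℂ)) with hz
  have hz1 : ∀ s, ‖z s‖ = 1 := fun s => CostA_norm_root M (s * m)
  have hz0 : ∑ s ∈ Finset.range M, z s = 0 := sum_root_eq_zero M m hM h1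
  have h2 : ∀ s, ‖α + u * z s‖ ^ 2 = ‖α‖ ^ 2 + ‖u‖ ^ 2 + 2 * (α * (starRingEnd ℂ) (u * z s)).re := by
    intro s
    rw [← Complex.normSq_eq_norm_sq, ← Complex.normSq_eq_norm_sq, Complex.normSq_add,
      Complex.normSq_mul, Complex.normSq_eq_norm_sq u, Complex.normSq_eq_norm_sq (z s), hz1 s]
    ring
  have h3 : ∑ s ∈ Finset.range M, ‖α + u * z s‖ ^ 2 = M * (‖α‖ ^ 2 + ‖u‖ ^ 2) := by
    rw [Finset.sum_congr rfl (fun s _ => h2 s), Finset.sum_add_distrib, Finset.sum_const,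
      Finset.card_range, nsmul_eq_mul, ← Finset.mul_sum, ← Complex.re_sum, ← Finset.mul_sum,
      ← map_sum, ← Finset.mul_sum, hz0]
    simp
  have h4 : (∑ s ∈ Finset.range M, ‖α + u * z s‖) ^ 2 ≤ M * (M * (‖α‖ ^ 2 + ‖u‖ ^ 2)) := by
    have := sq_sum_le_card_mul_sum_sq (s := Finset.range M) (f := fun s => ‖α + u * z s‖)
    rw [Finset.card_range, h3] at this
    exact this
  unfold avgCost
  rw [div_pow, div_le_iff₀ (by positivity)]
  calc _ ≤ (M : ℝ) * (M * (‖α‖ ^ 2 + ‖u‖ ^ 2)) := h4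
    _ = _ := by ring

end Pool.Agent.MaxTerm59
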