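import Mathlib

namespace Pool.Agent.MaxTerm59

/-- pointwise inequality behind the `q ≥ 3` and `q ≥ 5` costs -/
theorem norm_add_le_expansion (A b : ℝ) (hb : b < A) (x : ℂ) (hx : ‖x‖ ≤ b) :
    ‖(A : ℂ) + x‖ ≤ A + x.re + x.im ^ 2 / (2 * A) - x.re * x.im ^ 2 / (2 * A ^ 2)
      + x.re ^ 2 * x.im ^ 2 / (2 * A ^ 2 * (A - b)) := by
  have hb0 : 0 ≤ b := (norm_nonneg x).trans hx
  have hA : 0 < A := lt_of_le_of_lt hb0 hb
  have hre : -b ≤ x.re := by
    have h := (abs_le.1 (Complex.abs_re_le_norm x)).1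
    linarith
  have hs : 0 < A + x.re := by linarith
  have hAb : 0 < A - b := by linarith
  have h1 : ‖(A : ℂ) + x‖ ≤ (A + x.re) + x.im ^ 2 / (2 * (A + x.re)) := by
    rw [Complex.norm_eq_sqrt_sq_add_sq]
    refine Real.sqrt_le_iff.2 ⟨by positivity, ?_⟩
    simp only [Complex.add_re, Complex.add_im, Complex.ofReal_re, Complex.ofReal_im, zero_add]
    have h2 : ((A + x.re) + x.im ^ 2 / (2 * (A + x.re))) ^ 2 =
        (A + x.re) ^ 2 + x.im ^ 2 + (x.im ^ 2 / (2 * (A + x.re))) ^ 2 := by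
      field_simp
      ring
    rw [h2]
    nlinarith [sq_nonneg (x.im ^ 2 / (2 * (A + x.re)))]
  have h3 : x.im ^ 2 / (2 * (A + x.re)) =
      x.im ^ 2 / (2 * A) - x.re * x.im ^ 2 / (2 * A ^ 2)
        + x.re ^ 2 * x.im ^ 2 / (2 * A ^ 2 * (A + x.re)) := by
    field_simp
    ring
  have h4 : x.re ^ 2 * x.im ^ 2 / (2 * A ^ 2 * (A + x.re)) ≤
      x.re ^ 2 * x.im ^ 2 / (2 * A ^ 2 * (A - b)) := by
    gcongr
    linarith
  linarith

end Pool.Agent.MaxTerm59
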