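import Pool.Agent.MaxTerm59.CostA
import Pool.Agent.MaxTerm59.CostP

namespace Pool.Agent.MaxTerm59

/-- the root -/
noncomputable def CostB_E (M m s : ℕ) : ℂ :=
  Complex.exp (2 * Real.pi * Complex.I * (s * m : ℕ) / (M : ℂ))

theorem CostB_norm_E (M m s : ℕ) : ‖CostB_E M m s‖ = 1 := by
  unfold CostB_E
  have h : (2 * Real.pi * Complex.I * ((s * m : ℕ) : ℂ) / (M : ℂ) : ℂ) =
      ((2 * Real.pi * ((s * m : ℕ) : ℝ) / (M : ℝ) : ℝ) : ℂ) * Complex.I := by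
    push_cast
    ring
  rw [h, Complex.norm_exp_ofReal_mul_I]

theorem CostB_E_pow (M m s k : ℕ) :
    CostB_E M m s ^ k =
      Complex.exp (2 * Real.pi * Complex.I * (s * (k * m) : ℕ) / (M : ℂ)) := by
  unfold CostB_E
  rw [← Complex.exp_nat_mul]
  congr 1
  push_cast
  ring

theorem CostB_sum_zero (M m k : ℕ) (hM : 0 < M) (hk : ¬ M ∣ k * m) (v : ℂ) :
    ∑ s ∈ Finset.range M, ((v * CostB_E M m s) ^ k).re = 0 := by
  rw [← Complex.re_sum]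
  have h : ∑ s ∈ Finset.range M, (v * CostB_E M m s) ^ k = 0 := by
    simp only [mul_pow, CostB_E_pow]
    rw [← Finset.mul_sum, sum_root_eq_zero M (k * m) hM hk, mul_zero]
  rw [h]; simp

theorem CostB_sum_abs (M m k : ℕ) (v : ℂ) :
    |∑ s ∈ Finset.range M, ((v * CostB_E M m s) ^ k).re| ≤ M * ‖v‖ ^ k := by
  calc |∑ s ∈ Finset.range M, ((v * CostB_E M m s) ^ k).re|
      ≤ ∑ s ∈ Finset.range M, |((v * CostB_E M m s) ^ k).re| := Finset.abs_sum_le_sum_abs _ _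
    _ ≤ ∑ s ∈ Finset.range M, ‖v‖ ^ k := by
        refine Finset.sum_le_sum (fun s _ => ?_)
        refine (Complex.abs_re_le_norm _).trans ?_
        rw [norm_pow, norm_mul, CostB_norm_E, mul_one]
    _ = M * ‖v‖ ^ k := by simp

theorem CostB_point (A b : ℝ) (hb : b < A) (hb0 : 0 ≤ b) (x : ℂ) (hx : ‖x‖ = b) :
    ‖(A : ℂ) + x‖ ≤ A + (x ^ 1).re + (b ^ 2 - (x ^ 2).re) / (4 * A)
      - (b ^ 2 * (x ^ 1).re - (x ^ 3).re) / (8 * A ^ 2)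
      + (b ^ 4 - (x ^ 4).re) / (16 * A ^ 2 * (A - b)) := by
  have hA : 0 < A := lt_of_le_of_lt hb0 hb
  have hAb : 0 < A - b := by linarith
  have h := norm_add_le_expansion A b hb x hx.le
  have hn : x.re ^ 2 + x.im ^ 2 = b ^ 2 := by
    rw [← hx, Complex.sq_norm, Complex.normSq_apply]; ring
  have e1 : (x ^ 1).re = x.re := by rw [pow_one]
  have e2 : (x ^ 2).re = x.re ^ 2 - x.im ^ 2 := by
    rw [pow_two, Complex.mul_re]; ring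
  have e2' : (x ^ 2).im = 2 * x.re * x.im := by
    rw [pow_two, Complex.mul_im]; ring
  have e3 : (x ^ 3).re = x.re ^ 3 - 3 * x.re * x.im ^ 2 := by
    rw [pow_succ, Complex.mul_re, e2, e2']; ring
  have e4 : (x ^ 4).re = (x.re ^ 2 - x.im ^ 2) ^ 2 - 4 * x.re ^ 2 * x.im ^ 2 := by
    have : x ^ 4 = x ^ 2 * x ^ 2 := by ring
    rw [this, Complex.mul_re, e2, e2']; ring
  rw [e1, e2, e3, e4]
  have f1 : (b ^ 2 - (x.re ^ 2 - x.im ^ 2)) / (4 * A) = x.im ^ 2 / (2 * A) := by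
    rw [← hn]; field_simp; ring
  have f2 : (b ^ 2 * x.re - (x.re ^ 3 - 3 * x.re * x.im ^ 2)) / (8 * A ^ 2) =
      x.re * x.im ^ 2 / (2 * A ^ 2) := by
    rw [← hn]; field_simp; ring
  have f3 : (b ^ 4 - ((x.re ^ 2 - x.im ^ 2) ^ 2 - 4 * x.re ^ 2 * x.im ^ 2)) /
      (16 * A ^ 2 * (A - b)) = x.re ^ 2 * x.im ^ 2 / (2 * A ^ 2 * (A - b)) := by
    have : b ^ 4 = (x.re ^ 2 + x.im ^ 2) ^ 2 := by rw [hn]; ring
    rw [this]; field_simp; ring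
  rw [f1, f2, f3]
  exact h

theorem CostB_main (M m : ℕ) (hM : 0 < M) (h1 : ¬ M ∣ m) (h2 : ¬ M ∣ 2 * m) (α u : ℂ)
    (hb : ‖u‖ < ‖α‖) :
    ∃ v : ℂ, ‖v‖ = ‖u‖ ∧ avgCost M m α u ≤ ‖α‖ + ‖u‖ ^ 2 / (4 * ‖α‖) +
      ((∑ s ∈ Finset.range M, ((v * CostB_E M m s) ^ 3).re) / M) / (8 * ‖α‖ ^ 2) +
      (‖u‖ ^ 4 - (∑ s ∈ Finset.range M, ((v * CostB_E M m s) ^ 4).re) / M) /
        (16 * ‖α‖ ^ 2 * (‖α‖ - ‖u‖)) := by
  set A : ℝ := ‖α‖ with hA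
  set b : ℝ := ‖u‖ with hbd
  have hb0 : 0 ≤ b := norm_nonneg _
  have hA0 : 0 < A := lt_of_le_of_lt hb0 hb
  have hAb : 0 < A - b := by linarith
  set w : ℂ := (starRingEnd ℂ) α / (A : ℂ) with hw
  have hAc : (A : ℂ) ≠ 0 := by exact_mod_cast hA0.ne'
  have hwn : ‖w‖ = 1 := by
    rw [hw, norm_div, RCLike.norm_conj, Complex.norm_real, Real.norm_eq_abs, abs_of_pos hA0, ← hA]
    exact div_self hA0.ne'
  have hwα : w * α = (A : ℂ) := by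
    have e : (starRingEnd ℂ) α * α = ((A ^ 2 : ℝ) : ℂ) := by
      rw [mul_comm, Complex.mul_conj, Complex.normSq_eq_norm_sq]
    rw [hw, div_mul_eq_mul_div, e]
    push_cast
    field_simp
  set v : ℂ := w * u with hv
  have hvn : ‖v‖ = b := by rw [hv, norm_mul, hwn, one_mul]
  refine ⟨v, hvn, ?_⟩
  have hM0 : (0 : ℝ) < M := by exact_mod_cast hM
  have hpt : ∀ s, ‖α + u * CostB_E M m s‖ ≤ A + ((v * CostB_E M m s) ^ 1).re +
      (b ^ 2 - ((v * CostB_E M m s) ^ 2).re) / (4 * A)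
      - (b ^ 2 * ((v * CostB_E M m s) ^ 1).re - ((v * CostB_E M m s) ^ 3).re) / (8 * A ^ 2)
      + (b ^ 4 - ((v * CostB_E M m s) ^ 4).re) / (16 * A ^ 2 * (A - b)) := by
    intro s
    have e : ‖α + u * CostB_E M m s‖ = ‖(A : ℂ) + v * CostB_E M m s‖ := by
      rw [← hwα, hv]
      have : w * α + w * u * CostB_E M m s = w * (α + u * CostB_E M m s) := by ring
      rw [this, norm_mul, hwn, one_mul]
    rw [e]
    exact CostB_point A b hb hb0 _ (by rw [norm_mul, CostB_norm_E, mul_one, hvn])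
  have hsum : ∑ s ∈ Finset.range M, ‖α + u * CostB_E M m s‖ ≤
      ∑ s ∈ Finset.range M, (A + ((v * CostB_E M m s) ^ 1).re +
      (b ^ 2 - ((v * CostB_E M m s) ^ 2).re) / (4 * A)
      - (b ^ 2 * ((v * CostB_E M m s) ^ 1).re - ((v * CostB_E M m s) ^ 3).re) / (8 * A ^ 2)
      + (b ^ 4 - ((v * CostB_E M m s) ^ 4).re) / (16 * A ^ 2 * (A - b))) :=
    Finset.sum_le_sum (fun s _ => hpt s)
  have hS1 := CostB_sum_zero M m 1 hM (by rwa [one_mul]) v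
  have hS2 := CostB_sum_zero M m 2 hM h2 v
  have heq : ∑ s ∈ Finset.range M, (A + ((v * CostB_E M m s) ^ 1).re +
      (b ^ 2 - ((v * CostB_E M m s) ^ 2).re) / (4 * A)
      - (b ^ 2 * ((v * CostB_E M m s) ^ 1).re - ((v * CostB_E M m s) ^ 3).re) / (8 * A ^ 2)
      + (b ^ 4 - ((v * CostB_E M m s) ^ 4).re) / (16 * A ^ 2 * (A - b))) =
      M * A + M * b ^ 2 / (4 * A) +
      (∑ s ∈ Finset.range M, ((v * CostB_E M m s) ^ 3).re) / (8 * A ^ 2) +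
      (M * b ^ 4 - ∑ s ∈ Finset.range M, ((v * CostB_E M m s) ^ 4).re) /
        (16 * A ^ 2 * (A - b)) := by
    rw [Finset.sum_add_distrib, Finset.sum_sub_distrib, Finset.sum_add_distrib,
      Finset.sum_add_distrib, ← Finset.sum_div, ← Finset.sum_div, ← Finset.sum_div,
      Finset.sum_sub_distrib, Finset.sum_sub_distrib, Finset.sum_sub_distrib, ← Finset.mul_sum,
      hS1, hS2]
    simp only [Finset.sum_const, Finset.card_range, nsmul_eq_mul]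
    ring
  have hav : avgCost M m α u = (∑ s ∈ Finset.range M, ‖α + u * CostB_E M m s‖) / M := rfl
  rw [hav, div_le_iff₀ hM0]
  refine hsum.trans (le_of_eq ?_)
  rw [heq]
  field_simp

/-- cost when the moduli are exactly `A` and `b`, order at least 3 -/
theorem avgCost_q3_eq (M m : ℕ) (hM : 0 < M) (h1 : ¬ M ∣ m) (h2 : ¬ M ∣ 2 * m) (α u : ℂ)
    (hb : ‖u‖ < ‖α‖) :
    avgCost M m α u ≤ ‖α‖ + ‖u‖ ^ 2 / (4 * ‖α‖) + ‖u‖ ^ 3 / (8 * ‖α‖ ^ 2)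
      + ‖u‖ ^ 4 / (8 * ‖α‖ ^ 2 * (‖α‖ - ‖u‖)) := by
  obtain ⟨v, hv, h⟩ := CostB_main M m hM h1 h2 α u hb
  have hA0 : 0 < ‖α‖ := lt_of_le_of_lt (norm_nonneg _) hb
  have hAb : 0 < ‖α‖ - ‖u‖ := by linarith
  have hM0 : (0 : ℝ) < M := by exact_mod_cast hM
  have k3 := CostB_sum_abs M m 3 v
  have k4 := CostB_sum_abs M m 4 v
  rw [hv] at k3 k4
  have k3' : (∑ s ∈ Finset.range M, ((v * CostB_E M m s) ^ 3).re) / M ≤ ‖u‖ ^ 3 := by
    rw [div_le_iff₀ hM0]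
    have := (abs_le.1 k3).2
    linarith
  have k4' : -((∑ s ∈ Finset.range M, ((v * CostB_E M m s) ^ 4).re) / M) ≤ ‖u‖ ^ 4 := by
    rw [← neg_div, div_le_iff₀ hM0]
    have := (abs_le.1 k4).1
    linarith
  refine h.trans ?_
  have s1 : ((∑ s ∈ Finset.range M, ((v * CostB_E M m s) ^ 3).re) / M) / (8 * ‖α‖ ^ 2) ≤
      ‖u‖ ^ 3 / (8 * ‖α‖ ^ 2) := div_le_div_of_nonneg_right k3' (by positivity)
  have s2 : (‖u‖ ^ 4 - (∑ s ∈ Finset.range M, ((v * CostB_E M m s) ^ 4).re) / M) /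
        (16 * ‖α‖ ^ 2 * (‖α‖ - ‖u‖)) ≤ (2 * ‖u‖ ^ 4) / (16 * ‖α‖ ^ 2 * (‖α‖ - ‖u‖)) :=
    div_le_div_of_nonneg_right (by linarith) (by positivity)
  have s3 : (2 * ‖u‖ ^ 4) / (16 * ‖α‖ ^ 2 * (‖α‖ - ‖u‖)) =
      ‖u‖ ^ 4 / (8 * ‖α‖ ^ 2 * (‖α‖ - ‖u‖)) := by
    field_simp
    ring
  rw [s3] at s2
  linarith

/-- cost when the moduli are exactly `A` and `b`, order at least 5 -/
theorem avgCost_q5_eq (M m : ℕ) (hM : 0 < M) (h1 : ¬ M ∣ m) (h2 : ¬ M ∣ 2 * m) (h3 : ¬ M ∣ 3 * m)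
    (h4 : ¬ M ∣ 4 * m) (α u : ℂ) (hb : ‖u‖ < ‖α‖) :
    avgCost M m α u ≤ ‖α‖ + ‖u‖ ^ 2 / (4 * ‖α‖) + ‖u‖ ^ 4 / (16 * ‖α‖ ^ 2 * (‖α‖ - ‖u‖)) := by
  obtain ⟨v, hv, h⟩ := CostB_main M m hM h1 h2 α u hb
  rw [CostB_sum_zero M m 3 hM h3 v, CostB_sum_zero M m 4 hM h4 v] at h
  simpa using h

end Pool.Agent.MaxTerm59
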