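import Pool.Agent.MaxTerm59.CostB

namespace Pool.Agent.MaxTerm59

theorem CostC_split (z : ℂ) (r : ℝ) (hz : ‖z‖ ≤ r) :
    ∃ (z1 z2 : ℂ) (c1 c2 : ℝ), ‖z1‖ = r ∧ ‖z2‖ = r ∧ 0 ≤ c1 ∧ 0 ≤ c2 ∧ c1 + c2 = 1 ∧
      z = (c1 : ℂ) * z1 + (c2 : ℂ) * z2 := by
  have hr : 0 ≤ r := (norm_nonneg z).trans hz
  obtain ⟨e, he, hze⟩ : ∃ e : ℂ, ‖e‖ = 1 ∧ z = (‖z‖ : ℂ) * e := by
    by_cases h : z = 0
    · exact ⟨1, by simp, by simp [h]⟩
    · have hn : ‖z‖ ≠ 0 := norm_ne_zero_iff.2 h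
      have hn' : (‖z‖ : ℂ) ≠ 0 := by exact_mod_cast hn
      refine ⟨z / (‖z‖ : ℂ), ?_, ?_⟩
      · rw [norm_div, Complex.norm_real, norm_norm, div_self hn]
      · field_simp
  rcases eq_or_lt_of_le hr with h0 | hpos
  · have hz0 : z = 0 := by
      rw [← norm_eq_zero]; exact le_antisymm (by rw [h0]; exact hz) (norm_nonneg _)
    exact ⟨0, 0, 1, 0, by simp [← h0], by simp [← h0], by norm_num, le_refl _, by norm_num,
      by simp [hz0]⟩
  · have hq : ‖z‖ / r ≤ 1 := by rw [div_le_one hpos]; exact hz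
    have hq0 : 0 ≤ ‖z‖ / r := by positivity
    refine ⟨(r : ℂ) * e, -((r : ℂ) * e), (1 + ‖z‖ / r) / 2, (1 - ‖z‖ / r) / 2, ?_, ?_,
      by linarith, by linarith, by ring, ?_⟩
    · rw [norm_mul, he, mul_one, Complex.norm_real, Real.norm_eq_abs, abs_of_pos hpos]
    · rw [norm_neg, norm_mul, he, mul_one, Complex.norm_real, Real.norm_eq_abs, abs_of_pos hpos]
    · have hrc : (r : ℂ) ≠ 0 := by exact_mod_cast hpos.ne'
      conv_lhs => rw [hze]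
      push_cast
      field_simp
      ring

/-- convexity: a bound valid for all pairs with moduli exactly `A`, `b` is valid for all pairs with
moduli at most `A`, `b`. -/
theorem avgCost_le_of_extreme (M m : ℕ) (A b K : ℝ) (hA : 0 < A) (hb : 0 ≤ b)
    (h : ∀ α u : ℂ, ‖α‖ = A → ‖u‖ = b → avgCost M m α u ≤ K) (α u : ℂ) (hα : ‖α‖ ≤ A) (hu : ‖u‖ ≤ b) :
    avgCost M m α u ≤ K := by
  obtain ⟨a1, a2, c1, c2, ha1, ha2, hc1, hc2, hc, rfl⟩ := CostC_split α A hα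
  obtain ⟨u1, u2, d1, d2, hu1, hu2, hd1, hd2, hd, rfl⟩ := CostC_split u b hu
  have hpt : ∀ w : ℂ, ‖((c1 : ℂ) * a1 + (c2 : ℂ) * a2) + ((d1 : ℂ) * u1 + (d2 : ℂ) * u2) * w‖ ≤
      c1 * d1 * ‖a1 + u1 * w‖ + c1 * d2 * ‖a1 + u2 * w‖ + c2 * d1 * ‖a2 + u1 * w‖ +
        c2 * d2 * ‖a2 + u2 * w‖ := by
    intro w
    have hcc : (c1 : ℂ) + (c2 : ℂ) = 1 := by exact_mod_cast hc
    have hdd : (d1 : ℂ) + (d2 : ℂ) = 1 := by exact_mod_cast hd
    have e : ((c1 : ℂ) * a1 + (c2 : ℂ) * a2) + ((d1 : ℂ) * u1 + (d2 : ℂ) * u2) * w =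
        ((c1 * d1 : ℝ) : ℂ) * (a1 + u1 * w) + ((c1 * d2 : ℝ) : ℂ) * (a1 + u2 * w) +
        ((c2 * d1 : ℝ) : ℂ) * (a2 + u1 * w) + ((c2 * d2 : ℝ) : ℂ) * (a2 + u2 * w) := by
      have e1 : (c2 : ℂ) = 1 - c1 := by linear_combination hcc
      have e2 : (d2 : ℂ) = 1 - d1 := by linear_combination hdd
      push_cast
      rw [e1, e2]
      ring
    rw [e]
    refine (norm_add_le _ _).trans ?_
    refine add_le_add ((norm_add_le _ _).trans (add_le_add ((norm_add_le _ _).trans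
      (add_le_add ?_ ?_)) ?_)) ?_ <;>
    · rw [norm_mul, Complex.norm_real, Real.norm_eq_abs, abs_of_nonneg (by positivity)]
  have hav : ∀ a v : ℂ, avgCost M m a v = (∑ s ∈ Finset.range M,
    ‖a + v * Complex.exp (2 * Real.pi * Complex.I * (s * m : ℕ) / (M : ℂ))‖) / M := fun _ _ => rfl
  have hle : avgCost M m ((c1 : ℂ) * a1 + (c2 : ℂ) * a2) ((d1 : ℂ) * u1 + (d2 : ℂ) * u2) ≤
      c1 * d1 * avgCost M m a1 u1 + c1 * d2 * avgCost M m a1 u2 + c2 * d1 * avgCost M m a2 u1 +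
        c2 * d2 * avgCost M m a2 u2 := by
    have h1 : ∑ s ∈ Finset.range M, ‖((c1 : ℂ) * a1 + (c2 : ℂ) * a2) + ((d1 : ℂ) * u1 +
        (d2 : ℂ) * u2) * Complex.exp (2 * Real.pi * Complex.I * (s * m : ℕ) / (M : ℂ))‖ ≤
        c1 * d1 * (∑ s ∈ Finset.range M,
          ‖a1 + u1 * Complex.exp (2 * Real.pi * Complex.I * (s * m : ℕ) / (M : ℂ))‖) +
        c1 * d2 * (∑ s ∈ Finset.range M,
          ‖a1 + u2 * Complex.exp (2 * Real.pi * Complex.I * (s * m : ℕ) / (M : ℂ))‖) +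
        c2 * d1 * (∑ s ∈ Finset.range M,
          ‖a2 + u1 * Complex.exp (2 * Real.pi * Complex.I * (s * m : ℕ) / (M : ℂ))‖) +
        c2 * d2 * (∑ s ∈ Finset.range M,
          ‖a2 + u2 * Complex.exp (2 * Real.pi * Complex.I * (s * m : ℕ) / (M : ℂ))‖) := by
      rw [Finset.mul_sum, Finset.mul_sum, Finset.mul_sum, Finset.mul_sum,
        ← Finset.sum_add_distrib, ← Finset.sum_add_distrib, ← Finset.sum_add_distrib]
      exact Finset.sum_le_sum (fun s _ => hpt _)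
    rw [hav, hav, hav, hav, hav]
    refine (div_le_div_of_nonneg_right h1 (by positivity : (0 : ℝ) ≤ M)).trans (le_of_eq ?_)
    ring
  refine hle.trans ?_
  have k1 := h a1 u1 ha1 hu1
  have k2 := h a1 u2 ha1 hu2
  have k3 := h a2 u1 ha2 hu1
  have k4 := h a2 u2 ha2 hu2
  calc c1 * d1 * avgCost M m a1 u1 + c1 * d2 * avgCost M m a1 u2 + c2 * d1 * avgCost M m a2 u1 +
        c2 * d2 * avgCost M m a2 u2
      ≤ c1 * d1 * K + c1 * d2 * K + c2 * d1 * K + c2 * d2 * K := by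
        refine add_le_add (add_le_add (add_le_add ?_ ?_) ?_) ?_ <;>
        · apply mul_le_mul_of_nonneg_left _ (by positivity)
          assumption
    _ = (c1 + c2) * (d1 + d2) * K := by ring
    _ = K := by rw [hc, hd]; ring

theorem avgCost_le_of_costOK (ty M m : ℕ) (hM : 0 < M) (h1 : ¬ M ∣ m)
    (h2 : ty ≠ 2 → ¬ M ∣ 2 * m) (h34 : ty ≠ 2 → ty ≠ 1 → ¬ M ∣ 3 * m ∧ ¬ M ∣ 4 * m)
    (A b K : ℝ) (hc : CostOK ty A b K) (α u : ℂ) (hα : ‖α‖ ≤ A) (hu : ‖u‖ ≤ b) :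
    avgCost M m α u ≤ K := by
  obtain ⟨hA, hb, hK, hc⟩ := hc
  by_cases ht2 : ty = 2
  · rw [if_pos ht2] at hc
    have h := avgCost_l2 M m hM h1 α u
    by_contra hcon
    push Not at hcon
    have e1 : K ^ 2 < avgCost M m α u ^ 2 := pow_lt_pow_left₀ hcon hK (by norm_num)
    have e2 : ‖α‖ ^ 2 ≤ A ^ 2 := pow_le_pow_left₀ (norm_nonneg _) hα 2
    have e3 : ‖u‖ ^ 2 ≤ b ^ 2 := pow_le_pow_left₀ (norm_nonneg _) hu 2
    linarith
  · rw [if_neg ht2] at hc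
    by_cases ht1 : ty = 1
    · rw [if_pos ht1] at hc
      refine avgCost_le_of_extreme M m A b K hA hb (fun α' u' ha' hu' => ?_) α u hα hu
      have h := avgCost_q3_eq M m hM h1 (h2 ht2) α' u' (by rw [ha', hu']; exact hc.1)
      rw [ha', hu'] at h
      exact h.trans hc.2
    · rw [if_neg ht1] at hc
      refine avgCost_le_of_extreme M m A b K hA hb (fun α' u' ha' hu' => ?_) α u hα hu
      have h := avgCost_q5_eq M m hM h1 (h2 ht2) (h34 ht2 ht1).1 (h34 ht2 ht1).2 α' u'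
        (by rw [ha', hu']; exact hc.1)
      rw [ha', hu'] at h
      exact h.trans hc.2

end Pool.Agent.MaxTerm59
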