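import Mathlib

namespace Pool.Agent.MaxTerm59

/-- average over the `M`-th roots of unity of `|α + u ζ^(s m)|` -/
noncomputable def avgCost (M m : ℕ) (α u : ℂ) : ℝ :=
  (∑ s ∈ Finset.range M,
    ‖α + u * Complex.exp (2 * Real.pi * Complex.I * (s * m : ℕ) / (M : ℂ))‖) / M

/-- the cost condition of type `ty` (0: order ≥ 5, 1: order ≥ 3, 2: order ≥ 2) -/
def CostOK (ty : ℕ) (A b K : ℝ) : Prop :=
  0 < A ∧ 0 ≤ b ∧ 0 ≤ K ∧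
  (if ty = 2 then A ^ 2 + b ^ 2 ≤ K ^ 2
   else if ty = 1 then b < A ∧ A + b ^ 2 / (4 * A) + b ^ 3 / (8 * A ^ 2) + b ^ 4 / (8 * A ^ 2 * (A - b)) ≤ K
   else b < A ∧ A + b ^ 2 / (4 * A) + b ^ 4 / (16 * A ^ 2 * (A - b)) ≤ K)

end Pool.Agent.MaxTerm59
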