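import Pool.Agent.MaxTerm59.GaussSpec
import Pool.Agent.MaxTerm59.CostDef

namespace Pool.Agent.MaxTerm59

theorem CostTail_div (n m : ℕ) (hm : 0 < m) : (n : ℝ) / m ≤ ((n / m + 1 : ℕ) : ℝ) := by
  have h1 : n < m * (n / m + 1) := Nat.lt_mul_div_succ _ hm
  have h2 : (n : ℝ) ≤ (m : ℝ) * ((n / m + 1 : ℕ) : ℝ) := by exact_mod_cast h1.le
  have hm' : (0 : ℝ) < m := by exact_mod_cast hm
  rw [div_le_iff₀ hm']
  linarith

theorem CostTail_gen2 {A b K : ℕ} (hb : b < A) {s : ℝ} (hs : 0 < s)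
    (h : A ^ 2 + b ^ 2 ≤ K ^ 2) : CostOK 2 ((A : ℝ) / s) ((b : ℝ) / s) ((K : ℝ) / s) := by
  have hA : (0 : ℝ) < A := by exact_mod_cast (Nat.zero_le b).trans_lt hb
  refine ⟨by positivity, by positivity, by positivity, ?_⟩
  rw [if_pos rfl]
  have h' : ((A : ℝ) ^ 2 + (b : ℝ) ^ 2) ≤ (K : ℝ) ^ 2 := by exact_mod_cast h
  rw [div_pow, div_pow, div_pow, ← add_div]
  exact div_le_div_of_nonneg_right h' (by positivity)

theorem CostTail_gen1 {A b K : ℕ} (hb : b < A) {s : ℝ} (hs : 0 < s)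
    (h : A + (b ^ 2 / (4 * A) + 1) + (b ^ 3 / (8 * A ^ 2) + 1) +
      (b ^ 4 / (8 * A ^ 2 * (A - b)) + 1) = K) :
    CostOK 1 ((A : ℝ) / s) ((b : ℝ) / s) ((K : ℝ) / s) := by
  have hA0 : 0 < A := (Nat.zero_le b).trans_lt hb
  have hA : (0 : ℝ) < A := by exact_mod_cast hA0
  have hbA : (b : ℝ) < A := by exact_mod_cast hb
  have hsub : ((A - b : ℕ) : ℝ) = (A : ℝ) - b := Nat.cast_sub hb.le
  have hsub0 : (0 : ℝ) < (A : ℝ) - b := by linarith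
  have hsubN : 0 < A - b := Nat.sub_pos_of_lt hb
  refine ⟨by positivity, by positivity, by positivity, ?_⟩
  rw [if_neg (by norm_num), if_pos rfl]
  refine ⟨div_lt_div_of_pos_right hbA hs, ?_⟩
  have e1 := CostTail_div (b ^ 2) (4 * A) (by positivity)
  have e2 := CostTail_div (b ^ 3) (8 * A ^ 2) (by positivity)
  have e3 := CostTail_div (b ^ 4) (8 * A ^ 2 * (A - b)) (by positivity)
  have eK : (K : ℝ) = (A : ℝ) + ((b ^ 2 / (4 * A) + 1 : ℕ) : ℝ) +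
      ((b ^ 3 / (8 * A ^ 2) + 1 : ℕ) : ℝ) + ((b ^ 4 / (8 * A ^ 2 * (A - b)) + 1 : ℕ) : ℝ) := by
    rw [← h]
    push_cast
    ring
  push_cast [hsub] at e1 e2 e3
  have t1 : ((b : ℝ) / s) ^ 2 / (4 * ((A : ℝ) / s)) = ((b : ℝ) ^ 2 / (4 * A)) / s := by
    field_simp
  have t2 : ((b : ℝ) / s) ^ 3 / (8 * ((A : ℝ) / s) ^ 2) = ((b : ℝ) ^ 3 / (8 * A ^ 2)) / s := by
    field_simp
  have t3 : ((b : ℝ) / s) ^ 4 / (8 * ((A : ℝ) / s) ^ 2 * ((A : ℝ) / s - (b : ℝ) / s)) =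
      ((b : ℝ) ^ 4 / (8 * A ^ 2 * ((A : ℝ) - b))) / s := by
    rw [← sub_div]
    field_simp
  rw [t1, t2, t3, ← add_div, ← add_div, ← add_div]
  refine div_le_div_of_nonneg_right ?_ hs.le
  rw [eK]
  push_cast [hsub]
  linarith

theorem CostTail_gen0 {ty A b K : ℕ} (h2 : ty ≠ 2) (h1 : ty ≠ 1) (hb : b < A) {s : ℝ}
    (hs : 0 < s)
    (h : A + (b ^ 2 / (4 * A) + 1) + (b ^ 4 / (16 * A ^ 2 * (A - b)) + 1) = K) :
    CostOK ty ((A : ℝ) / s) ((b : ℝ) / s) ((K : ℝ) / s) := by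
  have hA0 : 0 < A := (Nat.zero_le b).trans_lt hb
  have hA : (0 : ℝ) < A := by exact_mod_cast hA0
  have hbA : (b : ℝ) < A := by exact_mod_cast hb
  have hsub : ((A - b : ℕ) : ℝ) = (A : ℝ) - b := Nat.cast_sub hb.le
  have hsub0 : (0 : ℝ) < (A : ℝ) - b := by linarith
  have hsubN : 0 < A - b := Nat.sub_pos_of_lt hb
  refine ⟨by positivity, by positivity, by positivity, ?_⟩
  rw [if_neg h2, if_neg h1]
  refine ⟨div_lt_div_of_pos_right hbA hs, ?_⟩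
  have e1 := CostTail_div (b ^ 2) (4 * A) (by positivity)
  have e3 := CostTail_div (b ^ 4) (16 * A ^ 2 * (A - b)) (by positivity)
  have eK : (K : ℝ) = (A : ℝ) + ((b ^ 2 / (4 * A) + 1 : ℕ) : ℝ) +
      ((b ^ 4 / (16 * A ^ 2 * (A - b)) + 1 : ℕ) : ℝ) := by
    rw [← h]
    push_cast
    ring
  push_cast [hsub] at e1 e3
  have t1 : ((b : ℝ) / s) ^ 2 / (4 * ((A : ℝ) / s)) = ((b : ℝ) ^ 2 / (4 * A)) / s := by
    field_simp
  have t3 : ((b : ℝ) / s) ^ 4 / (16 * ((A : ℝ) / s) ^ 2 * ((A : ℝ) / s - (b : ℝ) / s)) =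
      ((b : ℝ) ^ 4 / (16 * A ^ 2 * ((A : ℝ) - b))) / s := by
    rw [← sub_div]
    field_simp
  rw [t1, t3, ← add_div, ← add_div]
  refine div_le_div_of_nonneg_right ?_ hs.le
  rw [eK]
  push_cast [hsub]
  linarith

theorem CostTail_SC_pos : (0 : ℝ) < ((SC : ℕ) : ℝ) := by norm_num [SC]

theorem costUp_spec (ty A b : ℕ) (hb : b < A) :
    CostOK ty ((A : ℝ) / SC) ((b : ℝ) / SC) ((costUp ty A b : ℝ) / SC) := by
  by_cases h2 : ty = 2
  · subst h2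
    refine CostTail_gen2 hb CostTail_SC_pos ?_
    rw [costUp, if_pos rfl]
    exact le_sqrtUp_sq _
  · by_cases h1 : ty = 1
    · subst h1
      refine CostTail_gen1 hb CostTail_SC_pos ?_
      rw [costUp, if_neg (by norm_num), if_pos rfl]
    · refine CostTail_gen0 h2 h1 hb CostTail_SC_pos ?_
      rw [costUp, if_neg h2, if_neg h1]

theorem CostTail_tail (W P r s c e : ℕ) (hr : r < 10000) (hs : 0 < s) (hc : 0 < c)
    (hP : ((r : ℝ) / 10000) ^ e * c ≤ P) :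
    (W : ℝ) * (((r : ℝ) / 10000) ^ e / (1 - ((r : ℝ) / 10000) ^ s)) ≤
      ((W * P * 10000 ^ s / (c * (10000 ^ s - r ^ s)) + 1 : ℕ) : ℝ) := by
  have hlt : r ^ s < 10000 ^ s := Nat.pow_lt_pow_left hr hs.ne'
  have hsubN : 0 < 10000 ^ s - r ^ s := Nat.sub_pos_of_lt hlt
  have hsub : ((10000 ^ s - r ^ s : ℕ) : ℝ) = (10000 : ℝ) ^ s - (r : ℝ) ^ s := by
    rw [Nat.cast_sub hlt.le]
    push_cast
    ring
  have hpos : (0 : ℝ) < (10000 : ℝ) ^ s - (r : ℝ) ^ s := by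
    rw [← hsub]
    exact_mod_cast hsubN
  have hc' : (0 : ℝ) < c := by exact_mod_cast hc
  have h1 := CostTail_div (W * P * 10000 ^ s) (c * (10000 ^ s - r ^ s))
    (Nat.mul_pos hc hsubN)
  refine le_trans ?_ h1
  rw [Nat.cast_mul c, hsub, Nat.cast_mul, Nat.cast_mul, Nat.cast_pow]
  have h3 : (1 : ℝ) - ((r : ℝ) / 10000) ^ s =
      ((10000 : ℝ) ^ s - (r : ℝ) ^ s) / (10000 : ℝ) ^ s := by
    rw [div_pow, sub_div, div_self (by positivity)]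
  rw [h3]
  have h10 : (0 : ℝ) < (10000 : ℝ) ^ s := by positivity
  have h4 : (W : ℝ) * (((r : ℝ) / 10000) ^ e /
      (((10000 : ℝ) ^ s - (r : ℝ) ^ s) / (10000 : ℝ) ^ s)) =
      ((W : ℝ) * (((r : ℝ) / 10000) ^ e * c) * (10000 : ℝ) ^ s) /
        (c * ((10000 : ℝ) ^ s - (r : ℝ) ^ s)) := by
    field_simp
  rw [h4]
  refine div_le_div_of_nonneg_right ?_ (by positivity)
  push_cast
  refine mul_le_mul_of_nonneg_right ?_ h10.le
  exact mul_le_mul_of_nonneg_left hP (Nat.cast_nonneg W)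

theorem tailUp_spec (W r e s : ℕ) (hr : r < 10000) (hs : 0 < s) :
    (W : ℝ) * (((r : ℝ) / 10000) ^ e / (1 - ((r : ℝ) / 10000) ^ s)) ≤ tailUp W r e s := by
  have h := CostTail_tail W (powUp r e) r s SC e hr hs (by norm_num [SC]) (powUp_spec r e)
  rw [tailUp]
  exact h

end Pool.Agent.MaxTerm59
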