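import Pool.Agent.MaxTerm59.DataI0
import Pool.Agent.MaxTerm59.DataI1
import Pool.Agent.MaxTerm59.DataI2
import Pool.Agent.MaxTerm59.DataI3
import Pool.Agent.MaxTerm59.DataI4
import Pool.Agent.MaxTerm59.DataI5

namespace Pool.Agent.MaxTerm59

theorem cI_m17_1_32 : CellI (-17) (1) 32 :=
  CellI.split (-17) (1) 32 (by norm_num) cI_m35_1_64 cI_m33_1_64 cI_m35_3_64 cI_m33_3_64

theorem cI_m17_3_32 : CellI (-17) (3) 32 :=
  CellI.split (-17) (3) 32 (by norm_num) cI_m35_5_64 cI_m33_5_64 cI_m35_7_64 cI_m33_7_64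

theorem cI_m9_1_16 : CellI (-9) (1) 16 :=
  CellI.split (-9) (1) 16 (by norm_num) cI_m19_1_32 cI_m17_1_32 cI_m19_3_32 cI_m17_3_32

theorem cI_m9_3_16 : CellI (-9) (3) 16 :=
  CellI.split (-9) (3) 16 (by norm_num) cI_m19_5_32 cI_m17_5_32 cI_m19_7_32 cI_m17_7_32

theorem cI_m5_1_8 : CellI (-5) (1) 8 :=
  CellI.split (-5) (1) 8 (by norm_num) cI_m11_1_16 cI_m9_1_16 cI_m11_3_16 cI_m9_3_16

theorem cI_m5_3_8 : CellI (-5) (3) 8 :=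
  CellI.split (-5) (3) 8 (by norm_num) cI_m11_5_16 cI_m9_5_16 cI_m11_7_16 cI_m9_7_16

theorem cI_m3_1_4 : CellI (-3) (1) 4 :=
  CellI.split (-3) (1) 4 (by norm_num) cI_m7_1_8 cI_m5_1_8 cI_m7_3_8 cI_m5_3_8

theorem cI_m15_1_32 : CellI (-15) (1) 32 :=
  CellI.split (-15) (1) 32 (by norm_num) cI_m31_1_64 cI_m29_1_64 cI_m31_3_64 cI_m29_3_64

theorem cI_m13_1_32 : CellI (-13) (1) 32 :=
  CellI.split (-13) (1) 32 (by norm_num) cI_m27_1_64 cI_m25_1_64 cI_m27_3_64 cI_m25_3_64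

theorem cI_m15_3_32 : CellI (-15) (3) 32 :=
  CellI.split (-15) (3) 32 (by norm_num) cI_m31_5_64 cI_m29_5_64 cI_m31_7_64 cI_m29_7_64

theorem cI_m13_3_32 : CellI (-13) (3) 32 :=
  CellI.split (-13) (3) 32 (by norm_num) cI_m27_5_64 cI_m25_5_64 cI_m27_7_64 cI_m25_7_64

theorem cI_m7_1_16 : CellI (-7) (1) 16 :=
  CellI.split (-7) (1) 16 (by norm_num) cI_m15_1_32 cI_m13_1_32 cI_m15_3_32 cI_m13_3_32

theorem cI_m11_3_32 : CellI (-11) (3) 32 :=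
  CellI.split (-11) (3) 32 (by norm_num) cI_m23_5_64 cI_m21_5_64 cI_m23_7_64 cI_m21_7_64

theorem cI_m5_1_16 : CellI (-5) (1) 16 :=
  CellI.split (-5) (1) 16 (by norm_num) cI_m11_1_32 cI_m9_1_32 cI_m11_3_32 cI_m9_3_32

theorem cI_m15_5_32 : CellI (-15) (5) 32 :=
  CellI.split (-15) (5) 32 (by norm_num) cI_m31_9_64 cI_m29_9_64 cI_m31_11_64 cI_m29_11_64

theorem cI_m13_5_32 : CellI (-13) (5) 32 :=
  CellI.split (-13) (5) 32 (by norm_num) cI_m27_9_64 cI_m25_9_64 cI_m27_11_64 cI_m25_11_64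

theorem cI_m13_7_32 : CellI (-13) (7) 32 :=
  CellI.split (-13) (7) 32 (by norm_num) cI_m27_13_64 cI_m25_13_64 cI_m27_15_64 cI_m25_15_64

theorem cI_m7_3_16 : CellI (-7) (3) 16 :=
  CellI.split (-7) (3) 16 (by norm_num) cI_m15_5_32 cI_m13_5_32 cI_m15_7_32 cI_m13_7_32

theorem cI_m11_5_32 : CellI (-11) (5) 32 :=
  CellI.split (-11) (5) 32 (by norm_num) cI_m23_9_64 cI_m21_9_64 cI_m23_11_64 cI_m21_11_64

theorem cI_m11_7_32 : CellI (-11) (7) 32 :=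
  CellI.split (-11) (7) 32 (by norm_num) cI_m23_13_64 cI_m21_13_64 cI_m23_15_64 cI_m21_15_64

theorem cI_m5_3_16 : CellI (-5) (3) 16 :=
  CellI.split (-5) (3) 16 (by norm_num) cI_m11_5_32 cI_m9_5_32 cI_m11_7_32 cI_m9_7_32

theorem cI_m3_1_8 : CellI (-3) (1) 8 :=
  CellI.split (-3) (1) 8 (by norm_num) cI_m7_1_16 cI_m5_1_16 cI_m7_3_16 cI_m5_3_16

theorem cI_m3_3_16 : CellI (-3) (3) 16 :=
  CellI.split (-3) (3) 16 (by norm_num) cI_m7_5_32 cI_m5_5_32 cI_m7_7_32 cI_m5_7_32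

theorem cI_m1_1_8 : CellI (-1) (1) 8 :=
  CellI.split (-1) (1) 8 (by norm_num) cI_m3_1_16 cI_m1_1_16 cI_m3_3_16 cI_m1_3_16

theorem cI_m7_5_16 : CellI (-7) (5) 16 :=
  CellI.split (-7) (5) 16 (by norm_num) cI_m15_9_32 cI_m13_9_32 cI_m15_11_32 cI_m13_11_32

theorem cI_m5_5_16 : CellI (-5) (5) 16 :=
  CellI.split (-5) (5) 16 (by norm_num) cI_m11_9_32 cI_m9_9_32 cI_m11_11_32 cI_m9_11_32

theorem cI_m3_3_8 : CellI (-3) (3) 8 :=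
  CellI.split (-3) (3) 8 (by norm_num) cI_m7_5_16 cI_m5_5_16 cI_m7_7_16 cI_m5_7_16

theorem cI_m3_5_16 : CellI (-3) (5) 16 :=
  CellI.split (-3) (5) 16 (by norm_num) cI_m7_9_32 cI_m5_9_32 cI_m7_11_32 cI_m5_11_32

theorem cI_m1_3_8 : CellI (-1) (3) 8 :=
  CellI.split (-1) (3) 8 (by norm_num) cI_m3_5_16 cI_m1_5_16 cI_m3_7_16 cI_m1_7_16

theorem cI_m1_1_4 : CellI (-1) (1) 4 :=
  CellI.split (-1) (1) 4 (by norm_num) cI_m3_1_8 cI_m1_1_8 cI_m3_3_8 cI_m1_3_8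

theorem cI_m1_1_2 : CellI (-1) (1) 2 :=
  CellI.split (-1) (1) 2 (by norm_num) cI_m3_1_4 cI_m1_1_4 cI_m3_3_4 cI_m1_3_4

theorem cI_1_1_4 : CellI (1) (1) 4 :=
  CellI.split (1) (1) 4 (by norm_num) cI_1_1_8 cI_3_1_8 cI_1_3_8 cI_3_3_8

theorem cI_1_1_2 : CellI (1) (1) 2 :=
  CellI.split (1) (1) 2 (by norm_num) cI_1_1_4 cI_3_1_4 cI_1_3_4 cI_3_3_4

theorem cellI_left : CellI (-1) 1 2 := cI_m1_1_2
theorem cellI_right : CellI 1 1 2 := cI_1_1_2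

end Pool.Agent.MaxTerm59
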