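import Pool.Agent.MaxTerm59.DataII0
import Pool.Agent.MaxTerm59.DataII1
import Pool.Agent.MaxTerm59.DataII2
import Pool.Agent.MaxTerm59.DataII3
import Pool.Agent.MaxTerm59.DataII4
import Pool.Agent.MaxTerm59.DataII5

namespace Pool.Agent.MaxTerm59

theorem cellII_0 : CellII 0 0 8298 :=
  ((((((((((((((((((((((((cII_0_0_1000).append cII_0_1000_3001).append cII_0_3001_3249).append cII_0_3249_3419).append cII_0_3419_3536).append cII_0_3536_3592).append cII_0_3592_3647).append cII_0_3647_3701).append cII_0_3701_3754).append cII_0_3754_3791).append cII_0_3791_3827).append cII_0_3827_3862).append cII_0_3862_3911).append cII_0_3911_3959).append cII_0_3959_4026).append cII_0_4026_4120).append cII_0_4120_4251).append cII_0_4251_4434).append cII_0_4434_4799).append cII_0_4799_5310).append cII_0_5310_6026).append cII_0_6026_6200).append cII_0_6200_7200).append cII_0_7200_8180).append cII_0_8180_8298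

theorem cellII_1 : CellII 1 0 9398 :=
  ((((((((((((((cII_1_0_1000).append cII_1_1000_3001).append cII_1_3001_6001).append cII_1_6001_7030).append cII_1_7030_7273).append cII_1_7273_7440).append cII_1_7440_7500).append cII_1_7500_7618).append cII_1_7618_7783).append cII_1_7783_8014).append cII_1_8014_8337).append cII_1_8337_8500).append cII_1_8500_8990).append cII_1_8990_9327).append cII_1_9327_9398

theorem cellII_2 : CellII 2 0 9110 :=
  ((((((((((cII_2_0_1000).append cII_2_1000_3001).append cII_2_3001_6001).append cII_2_6001_6506).append cII_2_6506_6852).append cII_2_6852_7090).append cII_2_7090_7423).append cII_2_7423_7500).append cII_2_7500_7990).append cII_2_7990_8500).append cII_2_8500_9110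

end Pool.Agent.MaxTerm59
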