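import Mathlib

/-! Definitions: Taylor coefficients, maximum term, maximum modulus. -/

namespace Pool.Agent.MaxTerm59

open Filter

/-- the `n`-th Taylor coefficient of `f` at `0` -/
noncomputable def coeff (f : ℂ → ℂ) (n : ℕ) : ℂ := iteratedDeriv n f 0 / (n.factorial : ℂ)

/-- the maximum term `μ(r) = max_n |a_n| r^n` -/
noncomputable def maxTerm (f : ℂ → ℂ) (r : ℝ) : ℝ := ⨆ n : ℕ, ‖coeff f n‖ * r ^ n

/-- the maximum modulus `M(r) = max_{|z| = r} |f z|` -/
noncomputable def maxMod (f : ℂ → ℂ) (r : ℝ) : ℝ := sSup ((fun z => ‖f z‖) '' Metric.sphere (0 : ℂ) r)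

/-- `f` is a transcendental entire function -/
def TransEntire (f : ℂ → ℂ) : Prop :=
  Differentiable ℂ f ∧ ∀ p : Polynomial ℂ, f ≠ fun z => p.eval z

end Pool.Agent.MaxTerm59
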