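import Pool.Agent.MaxTerm59.Series

namespace Pool.Agent.MaxTerm59

/-- the terms at a fixed radius are bounded -/
theorem FinAux_bdd (f : ℂ → ℂ) (hf : TransEntire f) (r : ℝ) (hr : 0 < r) :
    BddAbove (Set.range fun n : ℕ => ‖coeff f n‖ * r ^ n) := by
  obtain ⟨-, h2, -⟩ := transEntire_series f hf
  have h := (h2 r hr.le).tendsto_atTop_zero
  exact h.bddAbove_range

/-- positivity of the maximum term and comparability for a transcendental entire function -/
theorem maxTerm_pos (f : ℂ → ℂ) (hf : TransEntire f) (r : ℝ) (hr : 0 < r) : 0 < maxTerm f r := by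
  obtain ⟨-, -, h3⟩ := transEntire_series f hf
  obtain ⟨m, -, hm⟩ := h3 0
  exact lt_of_lt_of_le (mul_pos hm (pow_pos hr m)) (le_ciSup (FinAux_bdd f hf r hr) m)

theorem maxTerm_le_maxMod (f : ℂ → ℂ) (hf : TransEntire f) (r : ℝ) (hr : 0 < r) :
    maxTerm f r ≤ maxMod f r := by
  refine ciSup_le fun n => ?_
  have hb : BddAbove ((fun z => ‖f z‖) '' Metric.sphere (0 : ℂ) r) :=
    (isCompact_sphere (0 : ℂ) r).bddAbove_image hf.1.continuous.norm.continuousOn
  have hC : ∀ z ∈ Metric.sphere (0 : ℂ) r, ‖f z‖ ≤ maxMod f r := fun z hz =>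
    le_csSup hb (Set.mem_image_of_mem _ hz)
  have h := Complex.norm_iteratedDeriv_le_of_forall_mem_sphere_norm_le n hr
    (hf.1.diffContOnCl (s := Metric.ball (0 : ℂ) r)) hC
  unfold coeff
  rw [norm_div, Complex.norm_natCast]
  have hn : (0 : ℝ) < n.factorial := by exact_mod_cast n.factorial_pos
  have hrn : 0 < r ^ n := pow_pos hr n
  rw [le_div_iff₀ hrn] at h
  rw [div_mul_eq_mul_div, div_le_iff₀ hn]
  linarith

end Pool.Agent.MaxTerm59
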