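import Pool.Agent.MaxTerm59.LocDef

namespace Pool.Agent.MaxTerm59

private theorem mirror_bd {c : ℤ → ℂ} {B : ℝ}
    (h : ∀ z : ℂ, ‖z‖ = 1 → ‖∑' n : ℤ, c n * z ^ n‖ ≤ B) (z : ℂ) (hz : ‖z‖ = 1) :
    ‖∑' n : ℤ, c (-n) * z ^ n‖ ≤ B := by
  have h1 : ∑' n : ℤ, c (-n) * z ^ n = ∑' n : ℤ, c n * (z⁻¹) ^ n := by
    rw [← (Equiv.neg ℤ).tsum_eq (fun n : ℤ => c n * (z⁻¹) ^ n)]
    congr 1
    ext n
    simp [Equiv.neg_apply]
  rw [h1]
  exact h _ (by rw [norm_inv, hz, inv_one])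

private theorem mirror_summ {c : ℤ → ℂ} (h : Summable fun n => ‖c n‖) :
    Summable fun n : ℤ => ‖c (-n)‖ :=
  (Equiv.neg ℤ).summable_iff.2 h

/-- Mirror image of a local picture. -/
theorem Loc.mirror {B ε : ℝ} (L : Loc B ε) : ∃ L' : Loc B ε, L'.m = L.M ∧ L'.M = L.m := by
  have hx : ((L.x : ℝ) : ℂ) ≠ 0 := by
    exact_mod_cast L.x_pos.ne'
  refine ⟨{ m := L.M, M := L.m, x := L.x, y₁ := L.y₂, y₂ := L.y₁,
            c₁ := fun n => L.c₂ (-n), c₂ := fun n => L.c₁ (-n),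
            hm := L.hM, hM := L.hm, x_pos := L.x_pos, x_lt := L.x_lt,
            y₁_pos := L.y₂_pos, y₁_lt := L.y₂_lt, y₂_pos := L.y₁_pos, y₂_lt := L.y₁_lt,
            summ₁ := mirror_summ L.summ₂, summ₂ := mirror_summ L.summ₁,
            le₁ := fun n => L.le₂ _, le₂ := fun n => L.le₁ _,
            u₁ := ?_, u₀ := ?_, u₂ := L.u₁, rel := ?_,
            bd₁ := mirror_bd L.bd₂, bd₂ := mirror_bd L.bd₁,
            dec₁ := ?_, dec₂ := ?_, hy₁ := ?_, hy₂ := ?_ }, rfl, rfl⟩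
  · rw [neg_neg]; exact L.u₂
  · have h := L.rel 0
    rw [neg_zero, zpow_zero, mul_one] at h
    rw [neg_zero, h]
    exact L.u₀
  · intro n
    have h := L.rel (-n)
    rw [neg_neg] at h
    change L.c₁ (-n) = L.c₂ (-n) * ((L.x : ℝ) : ℂ) ^ (-n)
    rw [h, mul_assoc, ← zpow_add₀ hx, add_neg_cancel, zpow_zero, mul_one]
  · intro n
    have h := L.dec₂ n
    have e : -(-(L.M : ℤ) - n) = (L.M : ℤ) + n := by ring
    rw [e]
    exact h
  · intro n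
    have h := L.dec₁ n
    have e : -((L.m : ℤ) + n) = -(L.m : ℤ) - n := by ring
    rw [e]
    exact h
  · have h := L.hy₂
    rw [min_comm] at h
    exact h
  · have h := L.hy₁
    rw [min_comm] at h
    exact h

end Pool.Agent.MaxTerm59
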