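import Pool.Agent.MaxTerm59.HypIDef
import Pool.Agent.MaxTerm59.ClassFn
import Pool.Agent.MaxTerm59.Parseval

namespace Pool.Agent.MaxTerm59

theorem RedI_split (g : ℤ → ℂ) (hg : Summable g) :
    Summable (fun n : ℕ => g (-(n + 1 : ℤ)) + g ((n : ℤ) + 3)) ∧
    ∑' i : ℤ, g i = g 0 + g 1 + g 2 + ∑' n : ℕ, (g (-(n + 1 : ℤ)) + g ((n : ℤ) + 3)) := by
  have h1 : Summable (fun n : ℕ => g (n : ℤ)) := hg.comp_injective Nat.cast_injective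
  have h2 : Summable (fun n : ℕ => g (-(n + 1 : ℤ))) := by
    refine hg.comp_injective (i := fun n : ℕ => (-(n + 1 : ℤ))) ?_
    intro a b hab
    simp only [neg_inj, add_left_inj, Nat.cast_inj] at hab
    exact hab
  have h3 : Summable (fun n : ℕ => g ((n : ℤ) + 3)) := by
    refine hg.comp_injective (i := fun n : ℕ => ((n : ℤ) + 3)) ?_
    intro a b hab
    simp only [add_left_inj, Nat.cast_inj] at hab
    exact hab
  refine ⟨h2.add h3, ?_⟩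
  have h4 : HasSum g (∑' n : ℕ, g (n : ℤ) + ∑' n : ℕ, g (-(n + 1 : ℤ))) :=
    HasSum.of_nat_of_neg_add_one h1.hasSum h2.hasSum
  rw [h4.tsum_eq, h2.tsum_add h3]
  have h5 := h1.sum_add_tsum_nat_add 3
  rw [← h5]
  simp only [Finset.sum_range_succ, Finset.range_zero, Finset.sum_empty, zero_add, Nat.cast_zero,
    Nat.cast_one, Nat.cast_ofNat, Nat.cast_add]
  ring

theorem RedI_E1 (a b z P : ℂ) (n : ℕ) :
    P * ((a / b * z) ^ (n + 1))⁻¹ / a = P * (b / a) ^ (n + 1) / a * (z ^ (n + 1))⁻¹ := by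
  rw [mul_pow, mul_inv, ← inv_pow (a / b), inv_div]; ring

theorem RedI_E2 (a b d z X R : ℂ) (ha : a ≠ 0) (hb : b ≠ 0) (hd : d ≠ 0) (n : ℕ) :
    R * X ^ (n + 2) * (a / b * z) ^ (n + 3) / a =
      R * (b / d) ^ (n + 1) / d * ((a * d * X / b ^ 2) ^ (n + 2) * z ^ (n + 3)) := by
  simp only [div_pow, mul_pow]
  field_simp
  ring_nf

theorem RedI_E3 (b d z R : ℂ) (hb : b ≠ 0) (hd : d ≠ 0) (hz : z ≠ 0) (n : ℕ) :
    R * ((d / b * z)⁻¹) ^ (n + 2) * (d / b * z) / d =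
      R * (b / d) ^ (n + 1) / d * (z ^ (n + 1))⁻¹ := by
  have h : ((d / b * z)⁻¹) ^ (n + 2) * (d / b * z) = ((d / b * z)⁻¹) ^ (n + 1) := by
    rw [pow_succ _ (n + 1), mul_assoc, inv_mul_cancel₀ (by positivity), mul_one]
  rw [mul_assoc R, h, mul_inv, mul_pow, inv_div, inv_pow z]; ring

theorem RedI_E4 (a b d z X P : ℂ) (ha : a ≠ 0) (hb : b ≠ 0) (hd : d ≠ 0) (n : ℕ) :
    P * X ^ (n + 2) * (((d / b * z)⁻¹) ^ (n + 2))⁻¹ * (d / b * z) / d =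
      P * (b / a) ^ (n + 1) / a * ((a * d * X / b ^ 2) ^ (n + 2) * z ^ (n + 3)) := by
  rw [inv_pow, inv_inv]
  simp only [div_pow, mul_pow]
  field_simp
  ring_nf

/-- algebraic core: the normalised sum -/
theorem RedI_core {B : ℝ} (m : ℕ) (hm : 0 < m) (x : ℝ) (hx : 0 < x) (c₁ c₂ : ℤ → ℂ)
    (summ₁ : Summable fun n => ‖c₁ n‖) (summ₂ : Summable fun n => ‖c₂ n‖)
    (ha : ‖c₁ (-(m : ℤ))‖ = 1) (hb : ‖c₁ 0‖ = 1) (hd : ‖c₂ (m : ℤ)‖ = 1)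
    (rel : ∀ n, c₁ n = c₂ n * ((x : ℝ) : ℂ) ^ n) (rel' : ∀ n, c₂ n = c₁ n * ((x : ℝ) : ℂ) ^ (-n))
    (bd₁ : ∀ z, ‖z‖ = 1 → ‖∑' n : ℤ, c₁ n * z ^ n‖ ≤ B)
    (bd₂ : ∀ z, ‖z‖ = 1 → ‖∑' n : ℤ, c₂ n * z ^ n‖ ≤ B) (l r : ℕ → ℂ) (q : ℂ)
    (hq : q = c₁ (-(m : ℤ)) * c₂ (m : ℤ) * ((x : ℂ) ^ m) / c₁ 0 ^ 2)
    (hl : ∀ i, l i = c₁ (-(m : ℤ) - ((i + 1) * m : ℕ)) * (c₁ 0 / c₁ (-(m : ℤ))) ^ (i + 1)
      / c₁ (-(m : ℤ)))
    (hr : ∀ i, r i = c₂ ((m : ℤ) + ((i + 1) * m : ℕ)) * (c₁ 0 / c₂ (m : ℤ)) ^ (i + 1)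
      / c₂ (m : ℤ)) (z : ℂ) (hz : ‖z‖ = 1) :
    ‖1 + z + q * z ^ 2 + ∑' i : ℕ, ((l i + r i) / 2) *
      (z ^ (-(i + 1 : ℤ)) + q ^ (i + 2) * z ^ (i + 3))‖ ≤ B := by
  have ha0 : c₁ (-(m : ℤ)) ≠ 0 := by
    intro h0; rw [h0] at ha; simp at ha
  have hb0 : c₁ 0 ≠ 0 := by
    intro h0; rw [h0] at hb; simp at hb
  have hd0 : c₂ (m : ℤ) ≠ 0 := by
    intro h0; rw [h0] at hd; simp at hd
  have hz0 : z ≠ 0 := by
    intro h0; rw [h0] at hz; simp at hz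
  have hx0 : (x : ℂ) ≠ 0 := by exact_mod_cast hx.ne'
  have hc20 : c₂ 0 = c₁ 0 := by rw [rel' 0]; simp
  set a := c₁ (-(m : ℤ)) with haa
  set b := c₁ 0 with hbb
  set d := c₂ (m : ℤ) with hdd
  have hc1m : c₁ (m : ℤ) = d * (x : ℂ) ^ m := by rw [rel, zpow_natCast]
  have hc2m : c₂ (-(m : ℤ)) = a * (x : ℂ) ^ m := by rw [rel', neg_neg, zpow_natCast]
  -- first function
  have hw1 : ‖a / b * z‖ = 1 := by rw [norm_mul, norm_div, ha, hb, hz]; norm_num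
  have hw2 : ‖(d / b * z)⁻¹‖ = 1 := by rw [norm_inv, norm_mul, norm_div, hd, hb, hz]; norm_num
  have s1 : Summable (fun i : ℤ => c₁ (-(m : ℤ) + i * m) * (a / b * z) ^ i) :=
    (cls_summable c₁ summ₁ m hm (-(m : ℤ)) _ hw1).of_norm
  have s2 : Summable (fun i : ℤ => c₂ (0 + i * m) * ((d / b * z)⁻¹) ^ i) :=
    (cls_summable c₂ summ₂ m hm 0 _ hw2).of_norm
  have s1' : Summable (fun i : ℤ => c₁ (-(m : ℤ) + i * m) * (a / b * z) ^ i / a) := s1.div_const a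
  have s2' : Summable (fun i : ℤ => c₂ (0 + i * m) * ((d / b * z)⁻¹) ^ i * (d / b * z) / d) :=
    (s2.mul_right _).div_const d
  have s2'' : Summable (fun i : ℤ => c₂ (0 + (1 - i) * m) * ((d / b * z)⁻¹) ^ (1 - i) *
      (d / b * z) / d) :=
    (Equiv.subLeft (1 : ℤ)).summable_iff.2 s2'
  have t1 : ∑' i : ℤ, c₁ (-(m : ℤ) + i * m) * (a / b * z) ^ i / a = cls c₁ m (-(m : ℤ)) (a / b * z) / a := by
    rw [tsum_div_const]; rfl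
  have t2 : ∑' i : ℤ, c₂ (0 + (1 - i) * m) * ((d / b * z)⁻¹) ^ (1 - i) * (d / b * z) / d =
      cls c₂ m 0 ((d / b * z)⁻¹) * (d / b * z) / d := by
    have t3 := (Equiv.subLeft (1 : ℤ)).tsum_eq (fun i : ℤ => c₂ (0 + i * m) *
      ((d / b * z)⁻¹) ^ i * (d / b * z) / d)
    simp only [Equiv.subLeft_apply] at t3
    rw [t3, tsum_div_const, tsum_mul_right]
    rfl
  have b1 : ‖cls c₁ m (-(m : ℤ)) (a / b * z) / a‖ ≤ B := by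
    rw [norm_div, ha, div_one]
    exact cls_bound c₁ summ₁ B bd₁ m hm _ _ hw1
  have b2 : ‖cls c₂ m 0 ((d / b * z)⁻¹) * (d / b * z) / d‖ ≤ B := by
    rw [norm_div, norm_mul, hd, div_one, norm_mul, norm_div, hd, hb, hz]
    have := cls_bound c₂ summ₂ B bd₂ m hm 0 _ hw2
    simpa using this
  obtain ⟨e1, f1⟩ := RedI_split _ s1'
  obtain ⟨e2, f2⟩ := RedI_split _ s2''
  rw [t1] at f1
  rw [t2] at f2
  rw [f1] at b1
  rw [f2] at b2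
  -- identify the terms
  have v10 : c₁ (-(m : ℤ) + 0 * m) * (a / b * z) ^ (0 : ℤ) / a = 1 := by
    rw [zero_mul, add_zero, ← haa, zpow_zero, mul_one, div_self ha0]
  have v11 : c₁ (-(m : ℤ) + 1 * m) * (a / b * z) ^ (1 : ℤ) / a = z := by
    rw [one_mul, neg_add_cancel, ← hbb, zpow_one]; field_simp
  have v12 : c₁ (-(m : ℤ) + 2 * m) * (a / b * z) ^ (2 : ℤ) / a = q * z ^ 2 := by
    rw [show (-(m : ℤ) + 2 * m) = m by ring, hc1m, hq, zpow_ofNat]; field_simp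
  have v20 : c₂ (0 + (1 - 0) * m) * ((d / b * z)⁻¹) ^ (1 - 0 : ℤ) * (d / b * z) / d = 1 := by
    rw [show (0 + (1 - 0) * (m : ℤ)) = m by ring, ← hdd, sub_zero, zpow_one]; field_simp
  have v21 : c₂ (0 + (1 - 1) * m) * ((d / b * z)⁻¹) ^ (1 - 1 : ℤ) * (d / b * z) / d = z := by
    rw [show (0 + (1 - 1) * (m : ℤ)) = 0 by ring, hc20, sub_self, zpow_zero]; field_simp
  have v22 : c₂ (0 + (1 - 2) * m) * ((d / b * z)⁻¹) ^ (1 - 2 : ℤ) * (d / b * z) / d = q * z ^ 2 := by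
    rw [show (0 + (1 - 2) * (m : ℤ)) = -m by ring, hc2m, hq, show (1 - 2 : ℤ) = -1 by norm_num,
      zpow_neg, zpow_one, inv_inv]
    field_simp
  have w1 : ∀ n : ℕ, c₁ (-(m : ℤ) + -(n + 1 : ℤ) * m) * (a / b * z) ^ (-(n + 1 : ℤ)) / a +
      c₁ (-(m : ℤ) + ((n : ℤ) + 3) * m) * (a / b * z) ^ ((n : ℤ) + 3) / a =
      l n * z ^ (-(n + 1 : ℤ)) + r n * (q ^ (n + 2) * z ^ (n + 3)) := by
    intro n
    rw [hl, hr]
    have i1 : (-(m : ℤ) + -(n + 1 : ℤ) * m) = (-(m : ℤ) - ((n + 1) * m : ℕ)) := by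
      push_cast; ring
    have i2 : (-(m : ℤ) + ((n : ℤ) + 3) * m) = ((m : ℤ) + ((n + 1) * m : ℕ)) := by
      push_cast; ring
    have i3 : ((n : ℤ) + 3) = ((n + 3 : ℕ) : ℤ) := by push_cast; ring
    have i4 : (n + 1 : ℤ) = ((n + 1 : ℕ) : ℤ) := by push_cast; ring
    have i5 : (m : ℤ) + ((n + 1) * m : ℕ) = ((m * (n + 2) : ℕ) : ℤ) := by push_cast; ring
    rw [i1, i2, rel ((m : ℤ) + ((n + 1) * m : ℕ)), i3, i4, zpow_neg, zpow_neg, zpow_natCast,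
      zpow_natCast, zpow_natCast]
    rw [show ((x : ℂ) ^ ((m : ℤ) + ((n + 1) * m : ℕ))) = ((x : ℂ) ^ m) ^ (n + 2) by
      rw [i5, zpow_natCast, pow_mul]]
    rw [hq, RedI_E1 a b z, RedI_E2 a b d z _ _ ha0 hb0 hd0]
  have w2 : ∀ n : ℕ, c₂ (0 + (1 - -(n + 1 : ℤ)) * m) * ((d / b * z)⁻¹) ^ (1 - -(n + 1 : ℤ)) *
      (d / b * z) / d +
      c₂ (0 + (1 - ((n : ℤ) + 3)) * m) * ((d / b * z)⁻¹) ^ (1 - ((n : ℤ) + 3)) *
      (d / b * z) / d =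
      r n * z ^ (-(n + 1 : ℤ)) + l n * (q ^ (n + 2) * z ^ (n + 3)) := by
    intro n
    rw [hl, hr]
    have i1 : (0 + (1 - -(n + 1 : ℤ)) * m) = ((m : ℤ) + ((n + 1) * m : ℕ)) := by
      push_cast; ring
    have i2 : (0 + (1 - ((n : ℤ) + 3)) * m) = (-(m : ℤ) - ((n + 1) * m : ℕ)) := by
      push_cast; ring
    have i3 : (1 - -(n + 1 : ℤ)) = ((n + 2 : ℕ) : ℤ) := by push_cast; ring
    have i4 : (1 - ((n : ℤ) + 3)) = -((n + 2 : ℕ) : ℤ) := by push_cast; ring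
    have i6 : (n + 1 : ℤ) = ((n + 1 : ℕ) : ℤ) := by push_cast; ring
    have i5 : -(-(m : ℤ) - ((n + 1) * m : ℕ)) = ((m * (n + 2) : ℕ) : ℤ) := by push_cast; ring
    rw [i1, i2, rel' (-(m : ℤ) - ((n + 1) * m : ℕ)), i3, i4, i5, i6, zpow_neg, zpow_neg,
      zpow_natCast, zpow_natCast, zpow_natCast, pow_mul]
    rw [hq, RedI_E3 b d z _ hb0 hd0 hz0, RedI_E4 a b d z _ _ ha0 hb0 hd0]
  rw [v10, v11, v12] at b1
  rw [v20, v21, v22] at b2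
  simp only [w1] at b1 e1
  simp only [w2] at b2 e2
  have key : 1 + z + q * z ^ 2 + ∑' i : ℕ, ((l i + r i) / 2) *
      (z ^ (-(i + 1 : ℤ)) + q ^ (i + 2) * z ^ (i + 3)) =
      ((1 + z + q * z ^ 2 + ∑' n : ℕ, (l n * z ^ (-(n + 1 : ℤ)) +
        r n * (q ^ (n + 2) * z ^ (n + 3)))) +
      (1 + z + q * z ^ 2 + ∑' n : ℕ, (r n * z ^ (-(n + 1 : ℤ)) +
        l n * (q ^ (n + 2) * z ^ (n + 3))))) / 2 := by
    have k1 : ∑' i : ℕ, ((l i + r i) / 2) *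
      (z ^ (-(i + 1 : ℤ)) + q ^ (i + 2) * z ^ (i + 3)) =
      (∑' n : ℕ, (l n * z ^ (-(n + 1 : ℤ)) + r n * (q ^ (n + 2) * z ^ (n + 3))) +
       ∑' n : ℕ, (r n * z ^ (-(n + 1 : ℤ)) + l n * (q ^ (n + 2) * z ^ (n + 3)))) / 2 := by
      rw [← e1.tsum_add e2, ← tsum_div_const]
      congr 1
      ext i
      ring
    rw [k1]
    ring
  rw [key, norm_div]
  have n2 : ‖(2 : ℂ)‖ = 2 := by norm_num
  rw [n2, div_le_iff₀ (by norm_num : (0 : ℝ) < 2)]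
  calc _ ≤ _ := norm_add_le _ _
    _ ≤ B + B := add_le_add b1 b2
    _ = B * 2 := by ring

theorem hypI_of_loc {B ε : ℝ} (L : Loc B ε) (h : L.m = L.M) : ∃ q s, HypI B ε q s := by
  obtain ⟨m, M, x, y₁, y₂, c₁, c₂, hm, hM, x_pos, x_lt, y₁_pos, y₁_lt, y₂_pos, y₂_lt, summ₁, summ₂,
    le₁, le₂, u₁, u₀, u₂, rel, bd₁, bd₂, dec₁, dec₂, hy₁, hy₂⟩ := L
  simp only at h
  subst h
  rw [min_self] at hy₁ hy₂
  have hx0 : (x : ℂ) ≠ 0 := by exact_mod_cast x_pos.ne'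
  have rel2 : ∀ n, c₁ n = c₂ n * ((x : ℝ) : ℂ) ^ n := by
    intro n
    rw [rel n, mul_assoc, ← zpow_add₀ hx0, neg_add_cancel, zpow_zero, mul_one]
  have ha0 : c₁ (-(m : ℤ)) ≠ 0 := by
    intro h0; rw [h0] at u₁; simp at u₁
  have hb0 : c₁ 0 ≠ 0 := by
    intro h0; rw [h0] at u₀; simp at u₀
  have hd0 : c₂ (m : ℤ) ≠ 0 := by
    intro h0; rw [h0] at u₂; simp at u₂
  have hxm : ‖((x : ℂ)) ^ m‖ = x ^ m := by
    rw [norm_pow, Complex.norm_real, Real.norm_of_nonneg x_pos.le]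
  have hc1m : ‖c₁ (m : ℤ)‖ = x ^ m := by rw [rel2, zpow_natCast, norm_mul, u₂, one_mul, hxm]
  have hc2m : ‖c₂ (-(m : ℤ))‖ = x ^ m := by
    rw [rel, neg_neg, zpow_natCast, norm_mul, u₁, one_mul, hxm]
  have hc20 : ‖c₂ 0‖ = 1 := by rw [rel]; simpa using u₀
  obtain ⟨q, hq⟩ : ∃ q, q = c₁ (-(m : ℤ)) * c₂ (m : ℤ) * ((x : ℂ) ^ m) / c₁ 0 ^ 2 := ⟨_, rfl⟩
  obtain ⟨l, hl⟩ : ∃ l : ℕ → ℂ, ∀ i, l i = c₁ (-(m : ℤ) - ((i + 1) * m : ℕ)) *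
    (c₁ 0 / c₁ (-(m : ℤ))) ^ (i + 1) / c₁ (-(m : ℤ)) := ⟨_, fun _ => rfl⟩
  obtain ⟨r, hr⟩ : ∃ r : ℕ → ℂ, ∀ i, r i = c₂ ((m : ℤ) + ((i + 1) * m : ℕ)) *
    (c₁ 0 / c₂ (m : ℤ)) ^ (i + 1) / c₂ (m : ℤ) := ⟨_, fun _ => rfl⟩
  have nq : ‖q‖ = x ^ m := by
    rw [hq, norm_div, norm_mul, norm_mul, hxm, norm_pow, u₁, u₂, u₀]; norm_num
  have nl : ∀ i, ‖l i‖ = ‖c₁ (-(m : ℤ) - ((i + 1) * m : ℕ))‖ := by
    intro i
    rw [hl, norm_div, norm_mul, norm_pow, norm_div, u₁, u₀]; norm_num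
  have nr : ∀ i, ‖r i‖ = ‖c₂ ((m : ℤ) + ((i + 1) * m : ℕ))‖ := by
    intro i
    rw [hr, norm_div, norm_mul, norm_pow, norm_div, u₂, u₀]; norm_num
  have sl : ∀ i, ‖l i‖ ≤ (x ^ m + ε) ^ (i + 1) := by
    intro i
    rw [nl]
    calc _ ≤ y₁ ^ ((i + 1) * m) := dec₁ _
      _ = (y₁ ^ m) ^ (i + 1) := by rw [mul_comm, pow_mul]
      _ ≤ _ := pow_le_pow_left₀ (by positivity) hy₁ _
  have sr : ∀ i, ‖r i‖ ≤ (x ^ m + ε) ^ (i + 1) := by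
    intro i
    rw [nr]
    calc _ ≤ y₂ ^ ((i + 1) * m) := dec₂ _
      _ = (y₂ ^ m) ^ (i + 1) := by rw [mul_comm, pow_mul]
      _ ≤ _ := pow_le_pow_left₀ (by positivity) hy₂ _
  have hm' : (m : ℤ) ≠ 0 := by exact_mod_cast hm.ne'
  have hmp : (0 : ℤ) < (m : ℤ) := by exact_mod_cast hm
  have P0 : 2 + (x ^ m) ^ 2 ≤ B ^ 2 := by
    have := parseval_le c₁ summ₁ B bd₁ {-(m : ℤ), 0, (m : ℤ)}
    rw [Finset.sum_insert, Finset.sum_insert, Finset.sum_singleton, u₁, u₀, hc1m] at this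
    · linarith
    · simp only [Finset.mem_singleton]; omega
    · simp only [Finset.mem_insert, Finset.mem_singleton]; omega
  have P1 : ∀ i, 2 + (x ^ m) ^ 2 + ‖l i‖ ^ 2 ≤ B ^ 2 := by
    intro i
    have hpos : (0 : ℤ) < ((i + 1) * m : ℕ) := by exact_mod_cast Nat.mul_pos (Nat.succ_pos i) hm
    have := parseval_le c₁ summ₁ B bd₁ {-(m : ℤ), 0, (m : ℤ), -(m : ℤ) - ((i + 1) * m : ℕ)}
    rw [Finset.sum_insert, Finset.sum_insert, Finset.sum_insert, Finset.sum_singleton, u₁, u₀,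
      hc1m, ← nl] at this
    · linarith
    · simp only [Finset.mem_singleton]; omega
    · simp only [Finset.mem_insert, Finset.mem_singleton]; omega
    · simp only [Finset.mem_insert, Finset.mem_singleton]; omega
  have P2 : ∀ i, 2 + (x ^ m) ^ 2 + ‖r i‖ ^ 2 ≤ B ^ 2 := by
    intro i
    have hpos : (0 : ℤ) < ((i + 1) * m : ℕ) := by exact_mod_cast Nat.mul_pos (Nat.succ_pos i) hm
    have := parseval_le c₂ summ₂ B bd₂ {-(m : ℤ), 0, (m : ℤ), (m : ℤ) + ((i + 1) * m : ℕ)}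
    rw [Finset.sum_insert, Finset.sum_insert, Finset.sum_insert, Finset.sum_singleton, u₂, hc20,
      hc2m, ← nr] at this
    · linarith
    · simp only [Finset.mem_singleton]; omega
    · simp only [Finset.mem_insert, Finset.mem_singleton]; omega
    · simp only [Finset.mem_insert, Finset.mem_singleton]; omega
  have ns : ∀ i, ‖(l i + r i) / 2‖ ≤ (‖l i‖ + ‖r i‖) / 2 := by
    intro i
    rw [norm_div]
    have n2 : ‖(2 : ℂ)‖ = 2 := by norm_num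
    rw [n2]
    exact div_le_div_of_nonneg_right (norm_add_le _ _) (by norm_num)
  refine ⟨q, fun i => (l i + r i) / 2, ?_, ?_, ?_, ?_, ?_⟩
  · rw [nq]; exact pow_lt_one₀ x_pos.le x_lt hm.ne'
  · rw [nq]; exact P0
  · intro i
    rw [nq]
    have h1 := sl i
    have h2 := sr i
    have h3 := ns i
    linarith
  · intro i
    rw [nq]
    have h1 := P1 i
    have h2 := P2 i
    have h3 := ns i
    have h4 : ‖(l i + r i) / 2‖ ^ 2 ≤ ((‖l i‖ + ‖r i‖) / 2) ^ 2 :=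
      pow_le_pow_left₀ (norm_nonneg _) h3 2
    nlinarith [sq_nonneg (‖l i‖ - ‖r i‖)]
  · intro z hz
    exact RedI_core m hm x x_pos c₁ c₂ summ₁ summ₂ u₁ u₀ u₂ rel2 rel bd₁ bd₂ l r q hq hl hr z hz

end Pool.Agent.MaxTerm59
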