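import Pool.Agent.MaxTerm59.SizeII
import Pool.Agent.MaxTerm59.ClassFn
import Pool.Agent.MaxTerm59.Parseval
import Pool.Agent.MaxTerm59.CostC

namespace Pool.Agent.MaxTerm59

/-- The type of a pair of gaps. -/
def RedII_ty (m M : ℕ) : ℕ :=
  if M = 2 * m then 2 else if M ∣ 3 * m ∨ M ∣ 4 * m then 1 else 0

theorem RedII_typeOK {m M : ℕ} (_hm : 0 < m) (h : m < M) : TypeOK (RedII_ty m M) m M := by
  unfold TypeOK RedII_ty
  refine ⟨by split_ifs <;> omega, ?_, ?_⟩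
  · split_ifs with h1 h2
    · intro h3; exact absurd h3 (by norm_num)
    · intro _
      rcases h2 with ⟨k, hk⟩ | ⟨k, hk⟩
      · have hk3 : k < 3 := by
          by_contra h3
          have : M * 3 ≤ M * k := Nat.mul_le_mul_left _ (not_lt.1 h3)
          omega
        interval_cases k <;> omega
      · have hk3 : k < 4 := by
          by_contra h3
          have : M * 4 ≤ M * k := Nat.mul_le_mul_left _ (not_lt.1 h3)
          omega
        interval_cases k <;> omega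
    · intro h3; exact absurd h3 (by norm_num)
  · split_ifs with h1 h2
    · intro _; exact h1
    · intro h3; exact absurd h3 (by norm_num)
    · intro h3; exact absurd h3 (by norm_num)

theorem RedII_dvd1 {m M : ℕ} (hm : 0 < m) (h : m < M) : ¬ M ∣ m := fun h1 =>
  absurd (Nat.le_of_dvd hm h1) (not_le.2 h)

theorem RedII_dvd2 {m M : ℕ} (hm : 0 < m) (h : m < M) (hty : RedII_ty m M ≠ 2) : ¬ M ∣ 2 * m := by
  rintro ⟨k, hk⟩
  apply hty
  have hk3 : k < 2 := by
    by_contra h3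
    have : M * 2 ≤ M * k := Nat.mul_le_mul_left _ (not_lt.1 h3)
    omega
  have h1 : M = 2 * m := by interval_cases k <;> omega
  unfold RedII_ty
  rw [if_pos h1]

theorem RedII_dvd34 {m M : ℕ} (hty : RedII_ty m M ≠ 2) (hty' : RedII_ty m M ≠ 1) :
    ¬ M ∣ 3 * m ∧ ¬ M ∣ 4 * m := by
  unfold RedII_ty at *
  by_cases h1 : M = 2 * m
  · rw [if_pos h1] at hty; exact absurd rfl hty
  · rw [if_neg h1] at hty hty'
    by_cases h2 : M ∣ 3 * m ∨ M ∣ 4 * m
    · rw [if_pos h2] at hty'; exact absurd rfl hty'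
    · exact not_or.1 h2

/-- Splitting a two sided sum. -/
theorem RedII_split {f : ℤ → ℂ} (hf : Summable f) :
    ∑' n : ℤ, f n = f 0 + ∑' n : ℕ, f (n + 1) + ∑' n : ℕ, f (-(n + 1)) := by
  have h1 : Summable fun n : ℕ => f n := hf.comp_injective Nat.cast_injective
  have h2 : Summable fun n : ℕ => f (-(n + 1)) := by
    refine hf.comp_injective (i := fun n : ℕ => (-(n + 1) : ℤ)) ?_
    intro a b hab
    simp only at hab
    omega
  rw [tsum_of_nat_of_neg_add_one h1 h2, h1.tsum_eq_zero_add]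
  push_cast
  rfl

theorem RedII_B_nonneg {B ε : ℝ} (L : Loc B ε) : 0 ≤ B :=
  (norm_nonneg _).trans (L.bd₁ 1 (by simp))

theorem RedII_c20 {B ε : ℝ} (L : Loc B ε) : ‖L.c₂ 0‖ = 1 := by
  rw [L.rel 0]
  simp [L.u₀]

theorem RedII_c2m {B ε : ℝ} (L : Loc B ε) : ‖L.c₂ (-(L.m : ℤ))‖ = L.x ^ L.m := by
  rw [L.rel, norm_mul, L.u₁, one_mul, neg_neg, zpow_natCast, norm_pow, Complex.norm_real,
    Real.norm_of_nonneg L.x_pos.le]

/-- Four coefficients. -/
theorem RedII_energy {B ε : ℝ} (L : Loc B ε) {p : ℤ} (h0 : p ≠ 0) (h1 : p ≠ L.M)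
    (h2 : p ≠ -(L.m : ℤ)) : 2 + (L.x ^ L.m) ^ 2 + ‖L.c₂ p‖ ^ 2 ≤ B ^ 2 := by
  have hm := L.hm
  have hM := L.hM
  have h3 := parseval_le L.c₂ L.summ₂ B L.bd₂ {p, 0, (L.M : ℤ), -(L.m : ℤ)}
  rw [Finset.sum_insert, Finset.sum_insert, Finset.sum_insert, Finset.sum_singleton,
    RedII_c20, RedII_c2m, L.u₂] at h3
  · linarith
  · simp only [Finset.mem_singleton]; omega
  · simp only [Finset.mem_insert, Finset.mem_singleton]; omega
  · simp only [Finset.mem_insert, Finset.mem_singleton, not_or]; exact ⟨h0, h1, h2⟩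

/-- The rotated coefficients. -/
theorem RedII_rot {B ε : ℝ} (L : Loc B ε) : ∃ ct : ℤ → ℂ, ct 0 = 1 ∧ ct L.M = 1 ∧
    (∀ n, ‖ct n‖ = ‖L.c₂ n‖) ∧ ∀ z : ℂ, ‖z‖ = 1 → ‖∑' n : ℤ, ct n * z ^ n‖ ≤ B := by
  obtain ⟨θ, hθ⟩ := IsAlgClosed.exists_pow_nat_eq (L.c₂ 0 / L.c₂ L.M) L.hM
  have h0 := RedII_c20 L
  have h0' : L.c₂ 0 ≠ 0 := by rw [← norm_ne_zero_iff, h0]; exact one_ne_zero
  have hM' : L.c₂ L.M ≠ 0 := by rw [← norm_ne_zero_iff, L.u₂]; exact one_ne_zero
  have hθn : ‖θ‖ = 1 := by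
    have h1 : ‖θ‖ ^ L.M = 1 := by rw [← norm_pow, hθ, norm_div, h0, L.u₂, div_one]
    exact (pow_eq_one_iff_of_nonneg (norm_nonneg _) L.hM.ne').1 h1
  have hθ0 : θ ≠ 0 := by rw [← norm_ne_zero_iff, hθn]; exact one_ne_zero
  refine ⟨fun n => L.c₂ n * θ ^ n / L.c₂ 0, ?_, ?_, ?_, ?_⟩
  · simp only [zpow_zero, mul_one]; exact div_self h0'
  · simp only [zpow_natCast, hθ]
    field_simp
  · intro n
    rw [norm_div, norm_mul, h0, norm_zpow, hθn, one_zpow, mul_one, div_one]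
  · intro z hz
    have h1 : ∀ n : ℤ, L.c₂ n * θ ^ n / L.c₂ 0 * z ^ n = (L.c₂ 0)⁻¹ * (L.c₂ n * (θ * z) ^ n) := by
      intro n
      rw [mul_zpow]
      field_simp
    simp only [h1]
    rw [tsum_mul_left, norm_mul, norm_inv, h0, inv_one, one_mul]
    exact L.bd₂ _ (by rw [norm_mul, hθn, hz, one_mul])

/-- The mismatched vertex, larger gap on the right. -/
theorem hypII_of_loc {B ε : ℝ} (hε : 0 < ε) (L : Loc B ε) (h : L.m < L.M) :
    ∃ ty Y t gl gr hp hn, ty < 3 ∧ HypII B ε ty Y t gl gr hp hn := by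
  have hm := L.hm
  have hM := L.hM
  have hty := RedII_typeOK hm h
  obtain ⟨ct, ct0, ctM, ctn, ctB⟩ := RedII_rot L
  have hsum : Summable fun n => ‖ct n‖ := by simp only [ctn]; exact L.summ₂
  have hYpos : 0 < L.x ^ L.m := pow_pos L.x_pos _
  have hYlt : L.x ^ L.m < 1 := pow_lt_one₀ L.x_pos.le L.x_lt hm.ne'
  set Y : ℝ := L.x ^ L.m with hY
  set ty := RedII_ty L.m L.M with htydef
  have hdd : dd ty ≠ 0 := by unfold dd; split_ifs <;> norm_num
  obtain ⟨t, ht0, htp⟩ : ∃ t : ℝ, 0 < t ∧ t ^ dd ty = Y + ε :=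
    ⟨(Y + ε) ^ ((dd ty : ℝ)⁻¹), Real.rpow_pos_of_pos (by linarith) _,
      Real.rpow_inv_natCast_pow (by linarith) hdd⟩
  have hctm : ‖ct (-(L.m : ℤ))‖ = Y := by rw [ctn, RedII_c2m]
  set e : ℂ := ct (-(L.m : ℤ)) / (Y : ℂ) with he
  have hYC : (Y : ℂ) ≠ 0 := by exact_mod_cast hYpos.ne'
  have hen : ‖e‖ = 1 := by
    rw [he, norm_div, hctm, Complex.norm_real, Real.norm_of_nonneg hYpos.le]
    exact div_self hYpos.ne'
  have he0 : e ≠ 0 := by rw [← norm_ne_zero_iff, hen]; exact one_ne_zero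
  have hctm' : ct (-(L.m : ℤ)) = Y * e := by rw [he]; field_simp
  have hB := RedII_B_nonneg L
  have hGG : ∀ z : ℂ, ‖z‖ = 1 → GG (fun i => ct (-((i + 1 : ℤ) * L.M)))
      (fun i => ct ((i + 2 : ℤ) * L.M)) z = cls ct L.M 0 z := by
    intro z hz
    have hs := (cls_summable ct hsum L.M hM 0 z hz).of_norm
    rw [cls, RedII_split hs]
    have h1 : Summable fun n : ℕ => ct (0 + ((n : ℤ) + 1) * L.M) * z ^ ((n : ℤ) + 1) := by
      refine hs.comp_injective (i := fun n : ℕ => ((n : ℤ) + 1)) ?_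
      intro a b hab
      simp only at hab
      omega
    rw [h1.tsum_eq_zero_add, GG]
    have e1 : ct (0 + 0 * (L.M : ℤ)) * z ^ (0 : ℤ) = 1 := by
      rw [zero_mul, zero_add, ct0, zpow_zero, mul_one]
    have e2 : ct (0 + (((0 : ℕ) : ℤ) + 1) * L.M) * z ^ (((0 : ℕ) : ℤ) + 1) = z := by
      simp [ctM]
    have e3 : ∀ n : ℕ, ct (0 + (((n + 1 : ℕ) : ℤ) + 1) * L.M) * z ^ (((n + 1 : ℕ) : ℤ) + 1)
        = ct ((n + 2 : ℤ) * L.M) * z ^ (n + 2) := by
      intro n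
      have : (((n + 1 : ℕ) : ℤ) + 1) = ((n + 2 : ℕ) : ℤ) := by push_cast; ring
      rw [this, zpow_natCast, zero_add]
      push_cast
      rfl
    have e4 : ∀ n : ℕ, ct (0 + -((n : ℤ) + 1) * L.M) * z ^ (-((n : ℤ) + 1))
        = ct (-((n + 1 : ℤ) * L.M)) * z ^ (-(n + 1 : ℤ)) := by
      intro n
      rw [zero_add, neg_mul]
    simp only [e1, e2, e3, e4]
    ring
  have hHH : ∀ z : ℂ, ‖z‖ = 1 → HH Y (fun i => ct (-(L.m : ℤ) + (i + 1 : ℤ) * L.M) / e)
      (fun i => ct (-(L.m : ℤ) - (i + 1 : ℤ) * L.M) / e) z = cls ct L.M (-(L.m : ℤ)) z / e := by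
    intro z hz
    have hs := (cls_summable ct hsum L.M hM (-(L.m : ℤ)) z hz).of_norm
    rw [cls, RedII_split hs, HH, add_div, add_div, ← tsum_div_const, ← tsum_div_const]
    have e1 : ct (-(L.m : ℤ) + 0 * (L.M : ℤ)) * z ^ (0 : ℤ) / e = Y := by
      rw [zero_mul, add_zero, hctm', zpow_zero, mul_one]
      field_simp
    have e3 : ∀ n : ℕ, ct (-(L.m : ℤ) + ((n : ℤ) + 1) * L.M) * z ^ ((n : ℤ) + 1) / e
        = ct (-(L.m : ℤ) + (n + 1 : ℤ) * L.M) / e * z ^ (n + 1) := by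
      intro n
      have : ((n : ℤ) + 1) = ((n + 1 : ℕ) : ℤ) := by push_cast; ring
      rw [this, zpow_natCast]
      ring
    have e4 : ∀ n : ℕ, ct (-(L.m : ℤ) + -((n : ℤ) + 1) * L.M) * z ^ (-((n : ℤ) + 1)) / e
        = ct (-(L.m : ℤ) - (n + 1 : ℤ) * L.M) / e * z ^ (-(n + 1 : ℤ)) := by
      intro n
      have : -(L.m : ℤ) + -((n : ℤ) + 1) * L.M = -(L.m : ℤ) - (n + 1 : ℤ) * L.M := by ring
      rw [this]
      ring
    simp only [e1, e3, e4]
  have hMi : ∀ i : ℕ, (L.M : ℤ) ≤ (i + 1 : ℤ) * L.M := by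
    intro i
    nlinarith [(Nat.cast_nonneg i : (0 : ℤ) ≤ i), (Nat.cast_nonneg L.M : (0 : ℤ) ≤ L.M)]
  have hmM : (L.m : ℤ) < L.M := by exact_mod_cast h
  have hm0 : (0 : ℤ) < L.m := by exact_mod_cast hm
  refine ⟨ty, Y, t, fun i => ct (-((i + 1 : ℤ) * L.M)), fun i => ct ((i + 2 : ℤ) * L.M),
    fun i => ct (-(L.m : ℤ) + (i + 1 : ℤ) * L.M) / e,
    fun i => ct (-(L.m : ℤ) - (i + 1 : ℤ) * L.M) / e, hty.1, ?_⟩
  have nhp : ∀ i : ℕ, ‖ct (-(L.m : ℤ) + (i + 1 : ℤ) * L.M) / e‖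
      = ‖L.c₂ (-(L.m : ℤ) + (i + 1 : ℤ) * L.M)‖ := by
    intro i; rw [norm_div, hen, div_one, ctn]
  have nhn : ∀ i : ℕ, ‖ct (-(L.m : ℤ) - (i + 1 : ℤ) * L.M) / e‖
      = ‖L.c₂ (-(L.m : ℤ) - (i + 1 : ℤ) * L.M)‖ := by
    intro i; rw [norm_div, hen, div_one, ctn]
  exact
  { Y_pos := hYpos
    Y_lt := hYlt
    Y_sq := by
      have h1 := RedII_energy L (p := -(L.m : ℤ) - 1) (by omega) (by omega) (by omega)
      have h2 := sq_nonneg ‖L.c₂ (-(L.m : ℤ) - 1)‖
      linarith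
    t_pos := ht0
    t_pow := htp
    sgl := fun i => by
      simp only [ctn]
      exact size_L L h ty hty hε t ht0 htp i
    sgr := fun i => by
      simp only [ctn]
      exact size_R L h ty hty hε t ht0 htp i
    shp := fun i => by
      simp only [nhp]
      exact size_P L h ty hty hε t ht0 htp i
    shn := fun i => by
      simp only [nhn]
      exact size_N L h ty hty hε t ht0 htp i
    engl := fun i => by
      simp only [ctn]
      have := hMi i
      exact RedII_energy L (by omega) (by omega) (by omega)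
    engr := fun i => by
      simp only [ctn]
      have := hMi i
      have h2 : ((i : ℤ) + 2) * L.M = ((i : ℤ) + 1) * L.M + L.M := by ring
      exact RedII_energy L (by omega) (by omega) (by omega)
    enhp := fun i => by
      simp only [nhp]
      have h1 := hMi i
      refine RedII_energy L (by omega) ?_ (by omega)
      intro h2
      have h3 : (i : ℤ) * L.M = L.m := by linear_combination h2
      rcases Nat.eq_zero_or_pos i with rfl | hi
      · simp at h3; omega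
      · have hi' : (1 : ℤ) ≤ i := by exact_mod_cast hi
        nlinarith
    enhn := fun i => by
      simp only [nhn]
      have := hMi i
      exact RedII_energy L (by omega) (by omega) (by omega)
    func := fun z α β A b K hz hα hβ hK => by
      rw [hGG z hz, hHH z hz]
      obtain ⟨u, hu1, hu2⟩ := cls_pair_bound ct hsum B ctB L.M hM L.m z α (β / e) hz
      have h1 : β * (cls ct L.M (-(L.m : ℤ)) z / e) = β / e * cls ct L.M (-(L.m : ℤ)) z := by ring
      rw [h1]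
      refine hu2.trans (mul_le_mul_of_nonneg_left ?_ hB)
      refine avgCost_le_of_costOK ty L.M L.m hM (RedII_dvd1 hm h) (RedII_dvd2 hm h)
        (RedII_dvd34) A b K hK α u hα ?_
      rw [hu1, norm_div, hen, div_one]
      exact hβ }

end Pool.Agent.MaxTerm59
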