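import Pool.Agent.MaxTerm59.Defs

namespace Pool.Agent.MaxTerm59

/-- An entire function which is not a polynomial has infinitely many nonzero coefficients, is the
sum of its Taylor series, and the series converges absolutely everywhere. -/
theorem transEntire_series (f : ℂ → ℂ) (hf : TransEntire f) :
    (∀ z, HasSum (fun n => coeff f n * z ^ n) (f z)) ∧
    (∀ r : ℝ, 0 ≤ r → Summable fun n => ‖coeff f n‖ * r ^ n) ∧
    (∀ n, ∃ m, n < m ∧ 0 < ‖coeff f m‖) := by
  have h1 : ∀ z, HasSum (fun n => coeff f n * z ^ n) (f z) := by
    intro z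
    have h := Complex.hasSum_taylorSeries_of_entire hf.1 0 z
    refine h.congr_fun ?_
    intro n
    simp only [coeff, sub_zero, smul_eq_mul]
    ring
  refine ⟨h1, ?_, ?_⟩
  · intro r hr
    have h2 := (h1 (r : ℂ)).summable.norm
    refine h2.congr ?_
    intro n
    rw [norm_mul, norm_pow, Complex.norm_real, Real.norm_of_nonneg hr]
  · intro n
    by_contra hcon
    push Not at hcon
    have h0 : ∀ m, n < m → coeff f m = 0 := fun m hm => norm_le_zero_iff.1 (hcon m hm)
    refine hf.2 (∑ k ∈ Finset.range (n + 1), Polynomial.monomial k (coeff f k)) ?_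
    funext z
    have h3 : HasSum (fun n => coeff f n * z ^ n)
        (∑ k ∈ Finset.range (n + 1), coeff f k * z ^ k) := by
      refine hasSum_sum_of_ne_finset_zero ?_
      intro m hm
      rw [Finset.mem_range, not_lt] at hm
      rw [h0 m (by omega), zero_mul]
    rw [(h1 z).unique h3, Polynomial.eval_finsetSum]
    simp [Polynomial.eval_monomial]

end Pool.Agent.MaxTerm59
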