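import Pool.Agent.MaxTerm59.SysDef
import Pool.Agent.MaxTerm59.Corners
import Pool.Agent.MaxTerm59.Series

namespace Pool.Agent.MaxTerm59

/-- extension by zero to the integers -/
noncomputable def Sys_ext (a : ℕ → ℂ) (n : ℤ) : ℂ := if 0 ≤ n then a n.toNat else 0

theorem Sys_ext_nat (a : ℕ → ℂ) (n : ℕ) : Sys_ext a (n : ℤ) = a n := by
  unfold Sys_ext
  rw [if_pos (Int.natCast_nonneg n), Int.toNat_natCast]

theorem Sys_ext_neg (a : ℕ → ℂ) {n : ℤ} (h : n ∉ Set.range ((↑) : ℕ → ℤ)) : Sys_ext a n = 0 := by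
  unfold Sys_ext
  rw [if_neg]
  intro h0
  exact h ⟨n.toNat, Int.toNat_of_nonneg h0⟩

theorem Sys_forall {p : ℤ → Prop} (h1 : ∀ n : ℕ, p n)
    (h2 : ∀ n : ℤ, n ∉ Set.range ((↑) : ℕ → ℤ) → p n) : ∀ n, p n := by
  intro n
  by_cases h : n ∈ Set.range ((↑) : ℕ → ℤ)
  · obtain ⟨m, rfl⟩ := h
    exact h1 m
  · exact h2 n h

/-- From corners to the system. -/
theorem exists_sys (f : ℂ → ℂ) (hf : TransEntire f) (B r0 : ℝ) (hr0 : 0 < r0)
    (hB : ∀ r, r0 ≤ r → maxMod f r ≤ B * maxTerm f r) : Nonempty (Sys B) := by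
  obtain ⟨hs, hsum, hinf⟩ := transEntire_series f hf
  obtain ⟨C, hC⟩ := exists_cornerSys (fun n => ‖coeff f n‖) (fun n => norm_nonneg _) hsum hinf r0 hr0
  have hR : ∀ k, 0 < C.R k := C.Rpos
  have hμ : ∀ k, 0 < ‖coeff f (C.N k)‖ * C.R k ^ C.N k :=
    fun k => mul_pos (C.pos k) (pow_pos (hR k) _)
  have hA : ∀ k j, ‖coeff f j * (C.R k : ℂ) ^ j / ((‖coeff f (C.N k)‖ * C.R k ^ C.N k : ℝ) : ℂ)‖ =
      ‖coeff f j‖ * C.R k ^ j / (‖coeff f (C.N k)‖ * C.R k ^ C.N k) := by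
    intro k j
    rw [norm_div, norm_mul, norm_pow, Complex.norm_real, Complex.norm_real,
      Real.norm_of_nonneg (hR k).le, Real.norm_of_nonneg (hμ k).le]
  have hterm : ∀ k, maxTerm f (C.R k) = ‖coeff f (C.N k)‖ * C.R k ^ C.N k := by
    intro k
    unfold maxTerm
    apply le_antisymm
    · exact ciSup_le (fun n => C.le k n)
    · exact le_ciSup (f := fun n => ‖coeff f n‖ * C.R k ^ n)
        ⟨_, by rintro _ ⟨n, rfl⟩; exact C.le k n⟩ (C.N k)
  refine ⟨{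
    N := fun k => (C.N k : ℤ)
    x := fun k => C.R k / C.R (k+1)
    c := fun k => Sys_ext (fun j => coeff f j * (C.R k : ℂ) ^ j /
      ((‖coeff f (C.N k)‖ * C.R k ^ C.N k : ℝ) : ℂ))
    Nlt := fun k => by exact_mod_cast C.Nlt k
    x_pos := fun k => div_pos (hR k) (hR (k+1))
    x_lt := fun k => (div_lt_one (hR (k+1))).2 (C.Rlt k)
    summ := ?_
    le_one := ?_
    unit_l := ?_
    unit_r := ?_
    rel := ?_
    bound := ?_ }⟩
  · intro k
    refine (Nat.cast_injective.summable_iff (f := fun n : ℤ => ‖Sys_ext (fun j => coeff f j *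
      (C.R k : ℂ) ^ j / ((‖coeff f (C.N k)‖ * C.R k ^ C.N k : ℝ) : ℂ)) n‖) ?_).1 ?_
    · intro n hn
      show ‖Sys_ext _ n‖ = 0
      rw [Sys_ext_neg _ hn, norm_zero]
    · refine ((hsum (C.R k) (hR k).le).div_const (‖coeff f (C.N k)‖ * C.R k ^ C.N k)).congr ?_
      intro n
      simp only [Function.comp_apply]
      rw [Sys_ext_nat, hA]
  · intro k
    refine Sys_forall ?_ ?_
    · intro n
      rw [Sys_ext_nat, hA, div_le_one (hμ k)]
      exact C.le k n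
    · intro n hn
      rw [Sys_ext_neg _ hn, norm_zero]
      exact zero_le_one
  · intro k
    show ‖Sys_ext _ ((C.N k : ℕ) : ℤ)‖ = 1
    rw [Sys_ext_nat, hA, div_self (hμ k).ne']
  · intro k
    show ‖Sys_ext _ ((C.N (k+1) : ℕ) : ℤ)‖ = 1
    rw [Sys_ext_nat, hA, div_eq_one_iff_eq (hμ k).ne']
    exact (C.eq k).symm
  · intro k
    refine Sys_forall ?_ ?_
    · intro n
      show Sys_ext _ ((n : ℕ) : ℤ) = Sys_ext _ ((n : ℕ) : ℤ) * _
      rw [Sys_ext_nat, Sys_ext_nat]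
      have e : ‖coeff f (C.N k)‖ * C.R k ^ C.N k = ‖coeff f (C.N (k+1))‖ * C.R k ^ C.N (k+1) :=
        C.eq k
      have h1 : (C.R k : ℂ) ≠ 0 := by exact_mod_cast (hR k).ne'
      have h2 : (C.R (k+1) : ℂ) ≠ 0 := by exact_mod_cast (hR (k+1)).ne'
      have h3 : ((‖coeff f (C.N (k+1))‖ : ℝ) : ℂ) ≠ 0 := by exact_mod_cast (C.pos (k+1)).ne'
      rw [e]
      have h4 : (((C.R k / C.R (k+1) : ℝ)) : ℂ) ^ ((C.N (k+1) : ℤ) - (n : ℤ)) =
          (C.R k : ℂ) ^ C.N (k+1) / (C.R (k+1) : ℂ) ^ C.N (k+1) /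
            ((C.R k : ℂ) ^ n / (C.R (k+1) : ℂ) ^ n) := by
        rw [Complex.ofReal_div, zpow_sub₀ (div_ne_zero h1 h2), zpow_natCast, zpow_natCast,
          div_pow, div_pow]
      show coeff f n * (C.R (k+1) : ℂ) ^ n / _ = coeff f n * (C.R k : ℂ) ^ n / _ * _
      rw [h4]
      push_cast
      field_simp
    · intro n hn
      show Sys_ext _ n = Sys_ext _ n * _
      rw [Sys_ext_neg _ hn, Sys_ext_neg _ hn, zero_mul]
  · intro k z hz
    have h1 : ∑' n : ℤ, Sys_ext (fun j => coeff f j * (C.R k : ℂ) ^ j /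
        ((‖coeff f (C.N k)‖ * C.R k ^ C.N k : ℝ) : ℂ)) n * z ^ n =
        f (C.R k * z) / ((‖coeff f (C.N k)‖ * C.R k ^ C.N k : ℝ) : ℂ) := by
      rw [← Nat.cast_injective.tsum_eq (g := ((↑) : ℕ → ℤ))]
      · rw [← (hs (C.R k * z)).tsum_eq, ← tsum_div_const]
        refine tsum_congr fun n => ?_
        rw [Sys_ext_nat, zpow_natCast, mul_pow]
        ring
      · intro n hn
        by_contra h
        apply hn
        show Sys_ext _ n * z ^ n = 0
        rw [Sys_ext_neg _ h, zero_mul]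
    show ‖∑' n : ℤ, Sys_ext _ n * z ^ n‖ ≤ B
    rw [h1, norm_div, Complex.norm_real, Real.norm_of_nonneg (hμ k).le, div_le_iff₀ (hμ k)]
    have h2 : ‖f (C.R k * z)‖ ≤ maxMod f (C.R k) := by
      unfold maxMod
      refine le_csSup ((isCompact_sphere (0 : ℂ) (C.R k)).bddAbove_image
        (hf.1.continuous.norm.continuousOn)) ⟨C.R k * z, ?_, rfl⟩
      rw [mem_sphere_zero_iff_norm, norm_mul, Complex.norm_real, Real.norm_of_nonneg (hR k).le, hz,
        mul_one]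
    refine h2.trans ?_
    have h3 := hB (C.R k) (hC k)
    rwa [hterm k] at h3

end Pool.Agent.MaxTerm59
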