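import Pool.Agent.MaxTerm59.DataI
import Pool.Agent.MaxTerm59.DataII
import Pool.Agent.MaxTerm59.Sys
import Pool.Agent.MaxTerm59.Climb
import Pool.Agent.MaxTerm59.Mirror
import Pool.Agent.MaxTerm59.RedI
import Pool.Agent.MaxTerm59.RedII
import Pool.Agent.MaxTerm59.FinAux

namespace Pool.Agent.MaxTerm59

open Filter

theorem no_loc (L : Loc (100 / 61) (1 / 2000)) : False := by
  rcases lt_trichotomy L.m L.M with h | h | h
  · obtain ⟨ty, Y, t, gl, gr, hp, hn, hty, H⟩ :=
      hypII_of_loc (by norm_num) L h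
    exact noHypII_of_cells cellII_0 cellII_1 cellII_2 ty hty Y t gl gr hp hn H
  · obtain ⟨q, s, H⟩ := hypI_of_loc L h
    exact noHypI_of_roots cellI_left cellI_right q s H
  · obtain ⟨L', h1, h2⟩ := L.mirror
    obtain ⟨ty, Y, t, gl, gr, hp, hn, hty, H⟩ :=
      hypII_of_loc (by norm_num) L' (by omega)
    exact noHypII_of_cells cellII_0 cellII_1 cellII_2 ty hty Y t gl gr hp hn H

theorem liminf_le (f : ℂ → ℂ) (hf : TransEntire f) :
    liminf (fun r => maxTerm f r / maxMod f r) atTop ≤ 61 / 100 := by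
  by_contra hcon
  push Not at hcon
  have h1 : ∀ᶠ r in (atTop : Filter ℝ), 61 / 100 < maxTerm f r / maxMod f r := by
    refine Filter.eventually_lt_of_lt_liminf hcon ?_
    refine Filter.isBoundedUnder_of_eventually_ge (a := 0) ?_
    filter_upwards [eventually_gt_atTop (0 : ℝ)] with r hr
    have h2 := maxTerm_pos f hf r hr
    exact div_nonneg h2.le (h2.le.trans (maxTerm_le_maxMod f hf r hr))
  obtain ⟨r0, h2⟩ := Filter.eventually_atTop.1 (h1.and (eventually_gt_atTop (0 : ℝ)))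
  have h0 : 0 < r0 := (h2 r0 le_rfl).2
  have hB : ∀ r, r0 ≤ r → maxMod f r ≤ (100 / 61) * maxTerm f r := by
    intro r hr
    obtain ⟨h3, h4⟩ := h2 r hr
    have h5 : 0 < maxMod f r := lt_of_lt_of_le (maxTerm_pos f hf r h4) (maxTerm_le_maxMod f hf r h4)
    rw [lt_div_iff₀ h5] at h3
    linarith
  obtain ⟨S⟩ := exists_sys f hf (100 / 61) r0 h0 hB
  obtain ⟨L⟩ := exists_loc S (ε := 1 / 2000) (by norm_num)
  exact no_loc L

end Pool.Agent.MaxTerm59
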