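import Mathlib

/-! Kernel-computable Gaussian integers and rounding helpers. -/

namespace Pool.Agent.MaxTerm59

/-- Gaussian integers as plain pairs (for kernel evaluation). -/
structure GI where
  re : Int
  im : Int

namespace GI

def add (a b : GI) : GI := ⟨a.re + b.re, a.im + b.im⟩
def mul (a b : GI) : GI := ⟨a.re * b.re - a.im * b.im, a.re * b.im + a.im * b.re⟩
def smul (n : Int) (a : GI) : GI := ⟨n * a.re, n * a.im⟩
def conj (a : GI) : GI := ⟨a.re, -a.im⟩
def nsq (a : GI) : Nat := (a.re * a.re + a.im * a.im).toNat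

/-- the complex number attached to a pair -/
noncomputable def toC (a : GI) : ℂ := ⟨(a.re : ℝ), (a.im : ℝ)⟩

end GI

/-- an upper bound for the square root of `n` -/
def sqrtUp (n : Nat) : Nat :=
  let g := 2 ^ (Nat.log2 n / 2 + 1)
  let g := (g + n / g) / 2
  let g := (g + n / g) / 2
  let g := (g + n / g) / 2
  let g := (g + n / g) / 2
  let g := (g + n / g) / 2
  let t := g + 1
  bif Nat.ble n (t * t) then t else n

/-- `absUp w sc den` is an upper bound for `|w| * sc / den`. -/
def absUp (w : GI) (sc den : Nat) : Nat :=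
  sqrtUp (w.nsq * sc ^ 2 / den ^ 2 + 1)

end Pool.Agent.MaxTerm59
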