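import Pool.Agent.MaxTerm59.CheckI
import Pool.Agent.MaxTerm59.CheckII

namespace Pool.Agent.MaxTerm59

namespace GI

/-- powers by repeated multiplication on the right -/
def powG (a : GI) : ℕ → GI
  | 0 => ⟨1, 0⟩
  | n+1 => (a.powG n).mul a

theorem toC_add (a b : GI) : (a.add b).toC = a.toC + b.toC := by
  apply Complex.ext <;> simp [toC, add]
theorem toC_mul (a b : GI) : (a.mul b).toC = a.toC * b.toC := by
  apply Complex.ext <;> simp [toC, mul]
theorem toC_smul (n : ℤ) (a : GI) : (a.smul n).toC = (n : ℂ) * a.toC := by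
  apply Complex.ext <;> simp [toC, smul]
theorem toC_conj (a : GI) : a.conj.toC = (starRingEnd ℂ) a.toC := by
  apply Complex.ext <;> simp [toC, conj]
theorem toC_powG (a : GI) (n : ℕ) : (a.powG n).toC = a.toC ^ n := by
  induction n with
  | zero => apply Complex.ext <;> simp [toC, powG]
  | succ n ih => rw [powG, toC_mul, ih, pow_succ]
theorem nsq_eq (a : GI) : (a.nsq : ℝ) = ‖a.toC‖ ^ 2 := by
  have h0 : 0 ≤ a.re * a.re + a.im * a.im :=
    add_nonneg (mul_self_nonneg _) (mul_self_nonneg _)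
  have h1 : ((a.nsq : ℤ)) = a.re * a.re + a.im * a.im := by
    rw [nsq]
    exact Int.toNat_of_nonneg h0
  have h2 : (a.nsq : ℝ) = ((a.nsq : ℤ) : ℝ) := by simp
  rw [h2, h1, ← Complex.normSq_eq_norm_sq, Complex.normSq_apply]
  simp [toC]
theorem mul_assoc' (a b c : GI) : (a.mul b).mul c = a.mul (b.mul c) := by
  simp only [mul, GI.mk.injEq]
  constructor <;> ring

end GI

theorem GaussSpec_aux (n t : ℕ) : n ≤ (bif Nat.ble n (t * t) then t else n) ^ 2 := by
  cases h : Nat.ble n (t * t) with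
  | true =>
    have := Nat.le_of_ble_eq_true h
    simp only [cond_true]
    rw [sq]
    exact this
  | false =>
    simp only [cond_false]
    exact Nat.le_self_pow two_ne_zero n

theorem le_sqrtUp_sq (n : ℕ) : n ≤ sqrtUp n ^ 2 := GaussSpec_aux n _

theorem GaussSpec_div (a b : ℕ) : (a : ℝ) / b ≤ ((a / b + 1 : ℕ) : ℝ) := by
  have h1 := Nat.lt_floor_add_one ((a : ℝ) / b)
  rw [Nat.floor_div_eq_div] at h1
  push_cast
  exact h1.le

theorem absUp_spec (w : GI) (sc den : ℕ) (hd : 0 < den) :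
    ‖w.toC‖ * sc / den ≤ absUp w sc den := by
  have h1 : (‖w.toC‖ * sc / den) ^ 2 ≤ ((absUp w sc den : ℕ) : ℝ) ^ 2 := by
    calc (‖w.toC‖ * sc / den) ^ 2 = ((w.nsq * sc ^ 2 : ℕ) : ℝ) / ((den ^ 2 : ℕ) : ℝ) := by
          push_cast
          rw [GI.nsq_eq]
          ring
      _ ≤ ((w.nsq * sc ^ 2 / den ^ 2 + 1 : ℕ) : ℝ) := GaussSpec_div _ _
      _ ≤ ((absUp w sc den ^ 2 : ℕ) : ℝ) := by
          exact_mod_cast le_sqrtUp_sq _
      _ = ((absUp w sc den : ℕ) : ℝ) ^ 2 := by push_cast; ring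
  exact (pow_le_pow_iff_left₀ (by positivity) (by positivity) two_ne_zero).1 h1

theorem powUp_spec (r i : ℕ) : ((r : ℝ) / 10000) ^ i * SC ≤ powUp r i := by
  calc ((r : ℝ) / 10000) ^ i * SC = ((r ^ i * SC : ℕ) : ℝ) / ((10000 ^ i : ℕ) : ℝ) := by
        push_cast
        rw [div_pow]
        ring
    _ ≤ ((r ^ i * SC / 10000 ^ i + 1 : ℕ) : ℝ) := GaussSpec_div _ _

theorem toC_sum_foldr {α : Type} (l : List α) (f : α → GI) :
    (l.foldr (fun x s => (f x).add s) ⟨0, 0⟩).toC = (l.map fun x => (f x).toC).sum := by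
  induction l with
  | nil =>
    simp only [List.foldr_nil, List.map_nil, List.sum_nil]
    apply Complex.ext <;> simp [GI.toC]
  | cons a l ih =>
    rw [List.foldr_cons, GI.toC_add, ih, List.map_cons, List.sum_cons]

theorem norm_div_DN (a : GI) (h : a.nsq = DN ^ 2) : ‖a.toC / DN‖ = 1 := by
  have h1 : ‖a.toC‖ ^ 2 = (DN : ℝ) ^ 2 := by
    rw [← GI.nsq_eq, h]
    push_cast
    ring
  have h2 : ‖a.toC‖ = (DN : ℝ) :=
    (pow_left_inj₀ (norm_nonneg _) (by positivity) two_ne_zero).1 h1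
  rw [norm_div, h2, Complex.norm_natCast, div_self]
  norm_num

/-- the conjugate of a node is its inverse -/
theorem conj_div_DN (a : GI) (h : a.nsq = DN ^ 2) : a.conj.toC / DN = (a.toC / DN)⁻¹ := by
  have h1 := norm_div_DN a h
  rw [Complex.inv_def, Complex.normSq_eq_norm_sq, h1]
  rw [GI.toC_conj, map_div₀, map_natCast]
  simp

end Pool.Agent.MaxTerm59
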