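import Pool.Agent.MaxTerm59.LocDef

namespace Pool.Agent.MaxTerm59

/-- What the two corners at an almost extremal vertex between two equal gaps give:
`q` is the normalised second quotient, `s` the averaged remaining coefficients. -/
structure HypI (B ε : ℝ) (q : ℂ) (s : ℕ → ℂ) : Prop where
  q_lt : ‖q‖ < 1
  q_sq : 2 + ‖q‖ ^ 2 ≤ B ^ 2
  size : ∀ i, ‖s i‖ ≤ (‖q‖ + ε) ^ (i + 1)
  energy : ∀ i, 2 + ‖q‖ ^ 2 + ‖s i‖ ^ 2 ≤ B ^ 2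
  bound : ∀ z : ℂ, ‖z‖ = 1 →
    ‖1 + z + q * z ^ 2 + ∑' i : ℕ, s i * (z ^ (-(i + 1 : ℤ)) + q ^ (i + 2) * z ^ (i + 3))‖ ≤ B

end Pool.Agent.MaxTerm59
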