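import Pool.Agent.MaxTerm59.LocDef
import Pool.Agent.MaxTerm59.CostDef
import Pool.Agent.MaxTerm59.CheckII

namespace Pool.Agent.MaxTerm59

/-- the main class function -/
noncomputable def GG (gl gr : ℕ → ℂ) (z : ℂ) : ℂ :=
  1 + z + ∑' i : ℕ, gl i * z ^ (-(i + 1 : ℤ)) + ∑' i : ℕ, gr i * z ^ (i + 2)

/-- the class function of the vertex at distance `m` on the left -/
noncomputable def HH (Y : ℝ) (hp hn : ℕ → ℂ) (z : ℂ) : ℂ :=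
  (Y : ℂ) + ∑' i : ℕ, hp i * z ^ (i + 1) + ∑' i : ℕ, hn i * z ^ (-(i + 1 : ℤ))

/-- What the corner with the larger gap at an almost extremal vertex between different gaps gives. -/
structure HypII (B ε : ℝ) (ty : ℕ) (Y t : ℝ) (gl gr hp hn : ℕ → ℂ) : Prop where
  Y_pos : 0 < Y
  Y_lt : Y < 1
  Y_sq : 2 + Y ^ 2 ≤ B ^ 2
  t_pos : 0 < t
  t_pow : t ^ dd ty = Y + ε
  sgl : ∀ i, ‖gl i‖ ≤ t ^ eL ty i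
  sgr : ∀ i, ‖gr i‖ ≤ t ^ eR ty i
  shp : ∀ i, ‖hp i‖ ≤ t ^ eP ty i
  shn : ∀ i, ‖hn i‖ ≤ t ^ eN ty i
  engl : ∀ i, 2 + Y ^ 2 + ‖gl i‖ ^ 2 ≤ B ^ 2
  engr : ∀ i, 2 + Y ^ 2 + ‖gr i‖ ^ 2 ≤ B ^ 2
  enhp : ∀ i, 2 + Y ^ 2 + ‖hp i‖ ^ 2 ≤ B ^ 2
  enhn : ∀ i, 2 + Y ^ 2 + ‖hn i‖ ^ 2 ≤ B ^ 2
  func : ∀ (z α β : ℂ) (A b K : ℝ), ‖z‖ = 1 → ‖α‖ ≤ A → ‖β‖ ≤ b → CostOK ty A b K →
    ‖α * GG gl gr z + β * HH Y hp hn z‖ ≤ B * K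

end Pool.Agent.MaxTerm59
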