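import Pool.Agent.MaxTerm59.GaussSpec

namespace Pool.Agent.MaxTerm59

/-- the moments of a list of nodes `(z, h)` -/
noncomputable def lamI (nd : List (GI × GI)) (k : ℤ) : ℂ :=
  (nd.map fun x => (x.2.toC / ((HN : ℕ) : ℂ)) * (x.1.toC / ((DN : ℕ) : ℂ)) ^ k).sum

end Pool.Agent.MaxTerm59
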