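import Pool.Agent.MaxTerm59.LoopI
import Pool.Agent.MaxTerm59.HypIDef

namespace Pool.Agent.MaxTerm59

theorem LeafI_norm_sum_le (l : List (GI × GI)) (f : GI × GI → ℂ) :
    ‖(l.map f).sum‖ ≤ (l.map fun x => ‖f x‖).sum := by
  induction l with
  | nil => simp
  | cons a t ih =>
    simp only [List.map_cons, List.sum_cons]
    exact (norm_add_le _ _).trans (by linarith)

theorem LeafI_sum_le_sum (l : List (GI × GI)) (f g : GI × GI → ℝ)
    (h : ∀ x ∈ l, f x ≤ g x) : (l.map f).sum ≤ (l.map g).sum := by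
  induction l with
  | nil => simp
  | cons a t ih =>
    simp only [List.map_cons, List.sum_cons]
    have h1 := h a (by simp)
    have h2 := ih (fun x hx => h x (by simp [hx]))
    linarith

theorem LeafI_cast_sum (l : List (GI × GI)) (f : GI × GI → ℕ) :
    (((l.map f).sum : ℕ) : ℝ) = (l.map fun x => (f x : ℝ)).sum := by
  induction l with
  | nil => simp
  | cons a t ih =>
    simp only [List.map_cons, List.sum_cons]
    rw [Nat.cast_add, ih]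

theorem LeafI_lam_le (nd : List (GI × GI)) (hz : ∀ x ∈ nd, x.1.nsq = DN ^ 2)
    (hw : (nd.map fun x => ‖x.2.toC / ((HN : ℕ) : ℂ)‖).sum ≤ 1) (k : ℤ) :
    ‖lamI nd k‖ ≤ 1 := by
  unfold lamI
  refine (LeafI_norm_sum_le nd _).trans (le_trans (LeafI_sum_le_sum nd _ _ ?_) hw)
  intro x hx
  rw [norm_mul, norm_zpow, norm_div_DN x.1 (hz x hx), one_zpow, mul_one]

theorem LeafI_hasSum (nd : List (GI × GI)) (h z : GI × GI → ℂ) (g : ℕ → ℂ → ℂ)
    (hs : ∀ x ∈ nd, Summable fun i => g i (z x)) :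
    HasSum (fun i => (nd.map fun x => h x * g i (z x)).sum)
      ((nd.map fun x => h x * ∑' i, g i (z x)).sum) := by
  induction nd with
  | nil => simp
  | cons a t ih =>
    simp only [List.map_cons, List.sum_cons]
    exact ((hs a (by simp)).hasSum.mul_left _).add (ih fun x hx => hs x (by simp [hx]))

theorem LeafI_term (nd : List (GI × GI)) (s q : ℂ) (a b : ℤ) :
    (nd.map fun x => (x.2.toC / ((HN : ℕ) : ℂ)) *
      (s * ((x.1.toC / ((DN : ℕ) : ℂ)) ^ a + q * (x.1.toC / ((DN : ℕ) : ℂ)) ^ b))).sum =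
    s * (lamI nd a + q * lamI nd b) := by
  unfold lamI
  induction nd with
  | nil => simp
  | cons x t ih =>
    simp only [List.map_cons, List.sum_cons]
    rw [ih]
    ring

theorem LeafI_head (nd : List (GI × GI)) (q : ℂ) (T : GI × GI → ℂ) :
    (nd.map fun x => (x.2.toC / ((HN : ℕ) : ℂ)) *
      (1 + (x.1.toC / ((DN : ℕ) : ℂ)) + q * (x.1.toC / ((DN : ℕ) : ℂ)) ^ 2 + T x)).sum =
    lamI nd 0 + lamI nd 1 + q * lamI nd 2 +
      (nd.map fun x => (x.2.toC / ((HN : ℕ) : ℂ)) * T x).sum := by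
  unfold lamI
  induction nd with
  | nil => simp
  | cons x t ih =>
    simp only [List.map_cons, List.sum_cons]
    rw [ih]
    have e2 : (x.1.toC / ((DN : ℕ) : ℂ)) ^ (2 : ℤ) = (x.1.toC / ((DN : ℕ) : ℂ)) ^ 2 := by
      norm_cast
    rw [e2]
    simp only [zpow_zero, zpow_one]
    ring

/-- the penalty series, split after `P` terms -/
theorem LeafI_tail (u v : ℕ → ℂ) (S : ℕ → ℝ) (ρ : ℝ) (hρ0 : 0 ≤ ρ) (hρ : ρ < 1) (P : ℕ)
    (hS : ∀ i, ‖u i‖ ≤ S (i + 1)) (hu : ∀ i, ‖u i‖ ≤ ρ ^ (i + 1)) (hv : ∀ i, ‖v i‖ ≤ 2) :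
    Summable (fun i => u i * v i) ∧
    ‖∑' i, u i * v i‖ ≤ (∑ j ∈ Finset.range P, S (1 + j) * ‖v j‖) + 2 * ρ ^ (P + 1) / (1 - ρ) := by
  have hb : ∀ i, ‖u i * v i‖ ≤ 2 * ρ ^ (i + 1) := by
    intro i
    rw [norm_mul]
    calc ‖u i‖ * ‖v i‖ ≤ ρ ^ (i + 1) * 2 :=
          mul_le_mul (hu i) (hv i) (norm_nonneg _) (by positivity)
      _ = 2 * ρ ^ (i + 1) := by ring
  have hg : Summable fun i : ℕ => 2 * ρ ^ (i + 1) := by
    have := (summable_geometric_of_lt_one hρ0 hρ).mul_left (2 * ρ)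
    refine this.congr fun i => ?_
    ring
  have hsn : Summable fun i => ‖u i * v i‖ := Summable.of_nonneg_of_le (fun i => norm_nonneg _) hb hg
  refine ⟨hsn.of_norm, ?_⟩
  refine (norm_tsum_le_tsum_norm hsn).trans ?_
  rw [← hsn.sum_add_tsum_nat_add P]
  refine add_le_add ?_ ?_
  · refine Finset.sum_le_sum fun j _ => ?_
    rw [norm_mul, add_comm 1 j]
    exact mul_le_mul_of_nonneg_right (hS j) (norm_nonneg _)
  · have h1 : Summable fun i : ℕ => 2 * ρ ^ (P + 1) * ρ ^ i :=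
      (summable_geometric_of_lt_one hρ0 hρ).mul_left _
    have h2 : ∑' i : ℕ, 2 * ρ ^ (P + 1) * ρ ^ i = 2 * ρ ^ (P + 1) / (1 - ρ) := by
      rw [tsum_mul_left, tsum_geometric_of_lt_one hρ0 hρ]
      rw [div_eq_mul_inv]
    rw [← h2]
    refine Summable.tsum_le_tsum (fun i => ?_) ((summable_nat_add_iff P).2 hsn) h1
    refine (hb (i + P)).trans (le_of_eq ?_)
    rw [show i + P + 1 = (P + 1) + i by ring, pow_add]
    ring

theorem LeafI_natdiv (a b : ℕ) (hb : 0 < b) : (a : ℝ) / b ≤ ((a / b + 1 : ℕ) : ℝ) := by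
  rw [div_le_iff₀ (by exact_mod_cast hb)]
  have h : a < (a / b + 1) * b := by
    have := Nat.lt_div_mul_add hb (a := a)
    nlinarith
  exact_mod_cast h.le

theorem LeafI_one_mul (a : GI) : (⟨1, 0⟩ : GI).mul a = a := by
  simp [GI.mul]

theorem LeafI_lamI_foldr (nd : List (GI × GI)) (f : GI × GI → GI) (k : ℕ)
    (hf : ∀ x, (f x).toC = x.2.toC * x.1.toC ^ k) :
    (nd.foldr (fun x s => (f x).add s) ⟨0, 0⟩).toC =
      lamI nd (k : ℤ) * (((HN : ℕ) : ℂ) * ((DN : ℕ) : ℂ) ^ k) := by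
  rw [toC_sum_foldr]
  unfold lamI
  have hD : (((DN : ℕ) : ℂ)) ≠ 0 := by norm_num [DN]
  have hH : (((HN : ℕ) : ℂ)) ≠ 0 := by norm_num [HN]
  induction nd with
  | nil => simp
  | cons x t ih =>
    simp only [List.map_cons, List.sum_cons]
    rw [ih, hf x, add_mul, zpow_natCast, div_pow]
    congr 1
    field_simp

theorem LeafI_weights (nd : List (GI × GI))
    (h : (nd.map fun x => absUp x.2 1000 1).sum ≤ 1000 * HN) :
    (nd.map fun x => ‖x.2.toC / ((HN : ℕ) : ℂ)‖).sum ≤ 1 := by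
  have h1 : (nd.map fun x => ‖x.2.toC‖ * 1000).sum ≤ 1000 * HN := by
    have h2 : (((nd.map fun x => absUp x.2 1000 1).sum : ℕ) : ℝ) ≤ ((1000 * HN : ℕ) : ℝ) := by
      exact_mod_cast h
    rw [LeafI_cast_sum] at h2
    refine (LeafI_sum_le_sum nd _ _ ?_).trans (h2.trans (le_of_eq (by push_cast; rfl)))
    intro x _
    have := absUp_spec x.2 1000 1 one_pos
    simpa using this
  have h3 : (nd.map fun x => ‖x.2.toC‖ * 1000).sum =
      (nd.map fun x => ‖x.2.toC / ((HN : ℕ) : ℂ)‖).sum * (1000 * HN) := by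
    clear h h1
    induction nd with
    | nil => simp
    | cons x t ih =>
      simp only [List.map_cons, List.sum_cons]
      rw [ih, norm_div, Complex.norm_natCast, add_mul]
      congr 1
      have hH : (((HN : ℕ) : ℝ)) ≠ 0 := by norm_num [HN]
      field_simp
  rw [h3] at h1
  have hH : (0 : ℝ) < 1000 * ((HN : ℕ) : ℝ) := by norm_num [HN]
  by_contra hc
  push Not at hc
  nlinarith

/-- soundness of a leaf -/
theorem leafI_sound (c : GI) (Q r rc sig P : ℕ) (nodes : List ℕ) (hQ : 0 < Q)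
    (h : checkLeafI c Q r rc sig P nodes = true)
    (q : ℂ) (s : ℕ → ℂ) (H : HypI (100 / 61) (1 / 2000) q s)
    (hq : ‖q - c.toC / Q‖ ≤ 1.41422 / Q) (hqr : ‖q‖ + 1 / 2000 ≤ (r : ℝ) / 10000)
    (hrc : r ≤ rc) (hcr : ‖c.toC / Q‖ ≤ (rc : ℝ) / 10000)
    (hsig : (100 / 61 : ℝ) ^ 2 ≤ 2 + ‖q‖ ^ 2 + ((sig : ℝ) / 10000) ^ 2) : False := by
  unfold checkLeafI at h
  simp only [Bool.and_eq_true, decide_eq_true_eq, List.all_eq_true] at h
  obtain ⟨⟨⟨hnode, hwt⟩, hr⟩, hmain⟩ := h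
  generalize hnd : nodes.map decodeNd = nd at hnode hwt hmain
  have hz : ∀ x ∈ nd, x.1.nsq = DN ^ 2 := hnode
  have hw := LeafI_weights nd hwt
  have hlam := LeafI_lam_le nd hz hw
  have hlist : (nd.map fun x => (x.1, x.2.mul (x.1.mul (x.1.mul x.1)), x.2.mul x.1.conj)) =
      (nd.map fun x => (x.1, (x.2.mul (x.1.powG (1 + 2)), x.2.mul (x.1.conj.powG 1)))) := by
    refine List.map_congr_left fun x _ => ?_
    simp only [GI.powG, LeafI_one_mul, GI.mul_assoc']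
  have hcc : c.mul c = c.powG (1 + 1) := by
    simp only [GI.powG, LeafI_one_mul]
  rw [hlist, hcc] at hmain
  generalize hacc : loopI c Q r rc sig P 1
    (nd.map fun x => (x.1, (x.2.mul (x.1.powG (1 + 2)), x.2.mul (x.1.conj.powG 1))))
    (c.powG (1 + 1)) 0 = acc at hmain
  /- basic positivity -/
  have hQ' : (0 : ℝ) < Q := by exact_mod_cast hQ
  have hq0 := norm_nonneg q
  have hρ0 : (0 : ℝ) ≤ (r : ℝ) / 10000 := by positivity
  have hρ1 : (r : ℝ) / 10000 < 1 := by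
    rw [div_lt_one (by norm_num)]
    exact_mod_cast hr
  /- the loop -/
  have hS1 : ∀ i, ‖s i‖ ≤ min ((‖q‖ + 1 / 2000) ^ (i + 1)) ((sig : ℝ) / 10000) := by
    intro i
    refine le_min (H.size i) ?_
    have h1 := H.energy i
    have h2 : ‖s i‖ ^ 2 ≤ ((sig : ℝ) / 10000) ^ 2 := by linarith
    exact abs_le_of_sq_le_sq' h2 (by positivity) |>.2
  have hloop := loopI_spec c Q r rc sig hQ nd hz q
    (by
      have : (r : ℝ) ≤ rc := by exact_mod_cast hrc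
      have h2 : (r : ℝ) / 10000 ≤ (rc : ℝ) / 10000 := by gcongr
      linarith) hcr hq
    (fun i => min ((‖q‖ + 1 / 2000) ^ i) ((sig : ℝ) / 10000))
    (fun i => le_min (by positivity) (by positivity))
    (fun i => (min_le_left _ _).trans (pow_le_pow_left₀ (by positivity) hqr i))
    (fun i => min_le_right _ _) P 1 0
  rw [hacc] at hloop
  /- the tail -/
  obtain ⟨hsum, htail⟩ := LeafI_tail s
    (fun i => lamI nd (-(i + 1 : ℤ)) + q ^ (i + 2) * lamI nd ((i + 3 : ℕ) : ℤ))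
    (fun i => min ((‖q‖ + 1 / 2000) ^ i) ((sig : ℝ) / 10000)) ((r : ℝ) / 10000) hρ0 hρ1 P hS1
    (fun i => (H.size i).trans (pow_le_pow_left₀ (by positivity) hqr _))
    (fun i => by
      refine (norm_add_le _ _).trans ?_
      rw [norm_mul, norm_pow]
      have h1 : ‖q‖ ^ (i + 2) ≤ 1 := pow_le_one₀ hq0 H.q_lt.le
      have h2 := hlam (-(i + 1 : ℤ))
      have h3 := hlam ((i + 3 : ℕ) : ℤ)
      have h4 : ‖q‖ ^ (i + 2) * ‖lamI nd ((i + 3 : ℕ) : ℤ)‖ ≤ 1 * 1 :=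
        mul_le_mul h1 h3 (norm_nonneg _) zero_le_one
      linarith)
  have hloop' : (SC : ℝ) * ∑ j ∈ Finset.range P,
      (min ((‖q‖ + 1 / 2000) ^ (1 + j)) ((sig : ℝ) / 10000)) *
        ‖lamI nd (-(j + 1 : ℤ)) + q ^ (j + 2) * lamI nd ((j + 3 : ℕ) : ℤ)‖ ≤ acc := by
    refine le_trans (le_of_eq ?_) hloop
    rw [Nat.cast_zero, zero_add]
    congr 1
    refine Finset.sum_congr rfl fun j _ => ?_
    have e1 : (-(j + 1 : ℤ)) = -(((1 : ℕ) : ℤ) + (j : ℤ)) := by push_cast; ring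
    have e2 : ((j + 3 : ℕ) : ℤ) = ((1 : ℕ) : ℤ) + (j : ℤ) + 2 := by push_cast; ring
    have e3 : j + 2 = 1 + j + 1 := by ring
    rw [e1, e2, e3]
  /- the geometric tail -/
  have hgeo : (SC : ℝ) * (2 * ((r : ℝ) / 10000) ^ (P + 1) / (1 - (r : ℝ) / 10000)) ≤
      ((2 * powUp r (P + 1) * 10000 / (10000 - r) + 1 : ℕ) : ℝ) := by
    refine le_trans ?_ (LeafI_natdiv _ _ (by omega))
    have h1 := powUp_spec r (P + 1)
    have h2 : (((10000 - r : ℕ)) : ℝ) = 10000 - r := by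
      rw [Nat.cast_sub hr.le]; norm_num
    have h3 : (0 : ℝ) < 10000 - r := by
      have : (r : ℝ) < 10000 := by exact_mod_cast hr
      linarith
    rw [h2]
    have e : (SC : ℝ) * (2 * ((r : ℝ) / 10000) ^ (P + 1) / (1 - (r : ℝ) / 10000)) =
        2 * (((r : ℝ) / 10000) ^ (P + 1) * SC) * 10000 / (10000 - r) := by
      have : (1 - (r : ℝ) / 10000) = (10000 - r) / 10000 := by ring
      rw [this]
      field_simp
    rw [e]
    push_cast at h1 ⊢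
    gcongr
  /- the node sums -/
  have hs2 : (List.foldr (fun (x : GI × GI) (s : GI) => (x.2.mul (x.1.mul x.1)).add s) (⟨0, 0⟩ : GI) nd).toC =
      lamI nd ((2 : ℕ) : ℤ) * (((HN : ℕ) : ℂ) * ((DN : ℕ) : ℂ) ^ 2) :=
    LeafI_lamI_foldr nd (fun x => x.2.mul (x.1.mul x.1)) 2
      (fun x => by rw [GI.toC_mul, GI.toC_mul]; ring)
  have hs1 : (List.foldr (fun (x : GI × GI) (s : GI) => (x.2.mul x.1).add s) (⟨0, 0⟩ : GI) nd).toC =
      lamI nd ((1 : ℕ) : ℤ) * (((HN : ℕ) : ℂ) * ((DN : ℕ) : ℂ) ^ 1) :=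
    LeafI_lamI_foldr nd (fun x => x.2.mul x.1) 1
      (fun x => by rw [GI.toC_mul]; ring)
  have hs0 : (List.foldr (fun (x : GI × GI) (s : GI) => x.2.add s) (⟨0, 0⟩ : GI) nd).toC =
      lamI nd ((0 : ℕ) : ℤ) * (((HN : ℕ) : ℂ) * ((DN : ℕ) : ℂ) ^ 0) :=
    LeafI_lamI_foldr nd (fun x => x.2) 0 (fun x => by ring)
  generalize List.foldr (fun (x : GI × GI) (s : GI) => (x.2.mul (x.1.mul x.1)).add s) (⟨0, 0⟩ : GI) nd = s2 at hs2 hmain
  generalize List.foldr (fun (x : GI × GI) (s : GI) => (x.2.mul x.1).add s) (⟨0, 0⟩ : GI) nd = s1 at hs1 hmain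
  generalize List.foldr (fun (x : GI × GI) (s : GI) => x.2.add s) (⟨0, 0⟩ : GI) nd = s0 at hs0 hmain
  have hD : (0 : ℝ) < ((DN : ℕ) : ℝ) := by norm_num [DN]
  have hH : (0 : ℝ) < ((HN : ℕ) : ℝ) := by norm_num [HN]
  have hSC : (0 : ℝ) < ((SC : ℕ) : ℝ) := by norm_num [SC]
  have hDC : ((DN : ℕ) : ℂ) ≠ 0 := by exact_mod_cast hD.ne'
  have hHC : ((HN : ℕ) : ℂ) ≠ 0 := by exact_mod_cast hH.ne'
  have hQC : (Q : ℂ) ≠ 0 := by exact_mod_cast hQ'.ne'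
  /- the replacement of q -/
  have hu0 : (SC : ℝ) * ‖(q - c.toC / Q) * lamI nd 2‖ ≤
      ((absUp s2 SC (HN * DN ^ 2) * 141422 / (100000 * Q) + 1 : ℕ) : ℝ) := by
    refine le_trans ?_ (LeafI_natdiv _ _ (by positivity))
    have h1 := absUp_spec s2 SC (HN * DN ^ 2) (by norm_num [HN, DN])
    have h2 : ‖s2.toC‖ * (SC : ℕ) / ((HN * DN ^ 2 : ℕ) : ℝ) = (SC : ℝ) * ‖lamI nd 2‖ := by
      rw [hs2, norm_mul, norm_mul, norm_pow, Complex.norm_natCast, Complex.norm_natCast]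
      push_cast
      field_simp
    rw [h2] at h1
    rw [norm_mul]
    push_cast
    rw [le_div_iff₀ (by positivity)]
    have h3 : ‖q - c.toC / Q‖ * Q ≤ 1.41422 := by
      rwa [← le_div_iff₀ hQ']
    have h4 : (0 : ℝ) ≤ (SC : ℝ) * ‖lamI nd 2‖ := by positivity
    calc (SC : ℝ) * (‖q - c.toC / Q‖ * ‖lamI nd 2‖) * (100000 * Q)
        = ((SC : ℝ) * ‖lamI nd 2‖) * (‖q - c.toC / Q‖ * Q) * 100000 := by ring
      _ ≤ ((SC : ℝ) * ‖lamI nd 2‖) * 1.41422 * 100000 := by gcongr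
      _ = ((SC : ℝ) * ‖lamI nd 2‖) * 141422 := by ring
      _ ≤ _ := by gcongr
  /- the numerator -/
  have hnum : (((s0.re * ((DN ^ 2 * Q : ℕ) : ℤ) + s1.re * ((DN * Q : ℕ) : ℤ) + (s2.mul c).re : ℤ) : ℝ)) =
      (lamI nd 0 + lamI nd 1 + (c.toC / Q) * lamI nd 2).re * ((HN * DN ^ 2 * Q : ℕ) : ℝ) := by
    have e0 : (s0.re : ℝ) = s0.toC.re := rfl
    have e1 : (s1.re : ℝ) = s1.toC.re := rfl
    have e2 : ((s2.mul c).re : ℝ) = (s2.mul c).toC.re := rfl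
    rw [Int.cast_add, Int.cast_add, Int.cast_mul, Int.cast_mul, e0, e1, e2, Int.cast_natCast,
      Int.cast_natCast]
    have f : ∀ (w : ℂ) (n : ℕ), w.re * (n : ℝ) = (w * (n : ℂ)).re := by
      intro w n
      simp [Complex.mul_re]
    rw [f, f, f, ← Complex.add_re, ← Complex.add_re, GI.toC_mul, hs0, hs1, hs2]
    congr 1
    push_cast
    field_simp
  have hmain' : ((acc : ℝ) + ((2 * powUp r (P + 1) * 10000 / (10000 - r) + 1 : ℕ) : ℝ) +
      ((absUp s2 SC (HN * DN ^ 2) * 141422 / (100000 * Q) + 1 : ℕ) : ℝ) +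
      ((SC * 100 / 61 + 1 : ℕ) : ℝ)) * ((HN * DN ^ 2 * Q : ℕ) : ℝ) <
      (((s0.re * ((DN ^ 2 * Q : ℕ) : ℤ) + s1.re * ((DN * Q : ℕ) : ℤ) + (s2.mul c).re : ℤ) : ℝ)) * SC := by
    have hm := (Int.cast_lt (R := ℝ)).2 hmain
    rw [Int.cast_mul, Int.cast_mul, Int.cast_natCast, Int.cast_natCast, Int.cast_natCast,
      Nat.cast_add, Nat.cast_add, Nat.cast_add] at hm
    exact hm
  rw [hnum] at hmain'
  have hden : (0 : ℝ) < ((HN * DN ^ 2 * Q : ℕ) : ℝ) := by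
    push_cast
    positivity
  have hmain2 : (acc : ℝ) + ((2 * powUp r (P + 1) * 10000 / (10000 - r) + 1 : ℕ) : ℝ) +
      ((absUp s2 SC (HN * DN ^ 2) * 141422 / (100000 * Q) + 1 : ℕ) : ℝ) +
      ((SC * 100 / 61 + 1 : ℕ) : ℝ) < (lamI nd 0 + lamI nd 1 + (c.toC / Q) * lamI nd 2).re * SC := by
    by_contra hc
    push Not at hc
    have := mul_le_mul_of_nonneg_right hc hden.le
    nlinarith
  have h61 : (SC : ℝ) * (100 / 61) ≤ ((SC * 100 / 61 + 1 : ℕ) : ℝ) := by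
    refine le_trans (le_of_eq ?_) (LeafI_natdiv _ _ (by norm_num))
    push_cast
    ring
  /- the average over the nodes -/
  have hzn : ∀ x ∈ nd, ‖x.1.toC / ((DN : ℕ) : ℂ)‖ = 1 := fun x hx => norm_div_DN x.1 (hz x hx)
  have hts : ∀ x ∈ nd, Summable fun i : ℕ => (fun (i : ℕ) (z : ℂ) =>
      s i * (z ^ (-(i + 1 : ℤ)) + q ^ (i + 2) * z ^ ((i + 3 : ℕ) : ℤ))) i
        ((fun x : GI × GI => x.1.toC / ((DN : ℕ) : ℂ)) x) := by
    intro x hx
    exact (LeafI_tail s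
      (fun i => (x.1.toC / ((DN : ℕ) : ℂ)) ^ (-(i + 1 : ℤ)) +
        q ^ (i + 2) * (x.1.toC / ((DN : ℕ) : ℂ)) ^ ((i + 3 : ℕ) : ℤ))
      (fun i => min ((‖q‖ + 1 / 2000) ^ i) ((sig : ℝ) / 10000)) ((r : ℝ) / 10000) hρ0 hρ1 P hS1
      (fun i => (H.size i).trans (pow_le_pow_left₀ (by positivity) hqr _))
      (fun i => by
        refine (norm_add_le _ _).trans ?_
        rw [norm_mul, norm_pow, norm_zpow, norm_zpow, hzn x hx, one_zpow, one_zpow]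
        have h1 : ‖q‖ ^ (i + 2) ≤ 1 := pow_le_one₀ hq0 H.q_lt.le
        linarith)).1
  have hH1 := LeafI_hasSum nd (fun x => x.2.toC / ((HN : ℕ) : ℂ))
    (fun x => x.1.toC / ((DN : ℕ) : ℂ))
    (fun (i : ℕ) (z : ℂ) => s i * (z ^ (-(i + 1 : ℤ)) + q ^ (i + 2) * z ^ ((i + 3 : ℕ) : ℤ))) hts
  have hH2 : (nd.map fun x => (x.2.toC / ((HN : ℕ) : ℂ)) * ∑' i : ℕ,
      s i * ((x.1.toC / ((DN : ℕ) : ℂ)) ^ (-(i + 1 : ℤ)) +
        q ^ (i + 2) * (x.1.toC / ((DN : ℕ) : ℂ)) ^ ((i + 3 : ℕ) : ℤ))).sum =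
      ∑' i : ℕ, s i * (lamI nd (-(i + 1 : ℤ)) + q ^ (i + 2) * lamI nd ((i + 3 : ℕ) : ℤ)) := by
    refine hH1.tsum_eq.symm.trans (tsum_congr fun i => ?_)
    exact LeafI_term nd (s i) (q ^ (i + 2)) (-(i + 1 : ℤ)) ((i + 3 : ℕ) : ℤ)
  have hhead := LeafI_head nd q (fun x => ∑' i : ℕ,
      s i * ((x.1.toC / ((DN : ℕ) : ℂ)) ^ (-(i + 1 : ℤ)) +
        q ^ (i + 2) * (x.1.toC / ((DN : ℕ) : ℂ)) ^ ((i + 3 : ℕ) : ℤ)))
  rw [hH2] at hhead
  have hbd : ‖(nd.map fun x => (x.2.toC / ((HN : ℕ) : ℂ)) *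
      (1 + (x.1.toC / ((DN : ℕ) : ℂ)) + q * (x.1.toC / ((DN : ℕ) : ℂ)) ^ 2 + ∑' i : ℕ,
      s i * ((x.1.toC / ((DN : ℕ) : ℂ)) ^ (-(i + 1 : ℤ)) +
        q ^ (i + 2) * (x.1.toC / ((DN : ℕ) : ℂ)) ^ ((i + 3 : ℕ) : ℤ)))).sum‖ ≤ 100 / 61 := by
    refine (LeafI_norm_sum_le nd _).trans ?_
    have h1 : (nd.map fun x => ‖(x.2.toC / ((HN : ℕ) : ℂ)) *
      (1 + (x.1.toC / ((DN : ℕ) : ℂ)) + q * (x.1.toC / ((DN : ℕ) : ℂ)) ^ 2 + ∑' i : ℕ,
      s i * ((x.1.toC / ((DN : ℕ) : ℂ)) ^ (-(i + 1 : ℤ)) +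
        q ^ (i + 2) * (x.1.toC / ((DN : ℕ) : ℂ)) ^ ((i + 3 : ℕ) : ℤ)))‖).sum ≤
        (nd.map fun x => ‖x.2.toC / ((HN : ℕ) : ℂ)‖ * (100 / 61 : ℝ)).sum := by
      refine LeafI_sum_le_sum nd _ _ fun x hx => ?_
      rw [norm_mul]
      refine mul_le_mul_of_nonneg_left ?_ (norm_nonneg _)
      have := H.bound _ (hzn x hx)
      refine le_trans (le_of_eq ?_) this
      congr 1
    refine h1.trans ?_
    have h2 : (nd.map fun x => ‖x.2.toC / ((HN : ℕ) : ℂ)‖ * (100 / 61 : ℝ)).sum =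
        (nd.map fun x => ‖x.2.toC / ((HN : ℕ) : ℂ)‖).sum * (100 / 61) := by
      rw [List.sum_map_mul_right]
    rw [h2]
    linarith
  rw [hhead] at hbd
  /- final comparison -/
  generalize hTT : ∑' i : ℕ, s i * (lamI nd (-(i + 1 : ℤ)) +
    q ^ (i + 2) * lamI nd ((i + 3 : ℕ) : ℤ)) = TT at hbd htail
  have hre : (lamI nd 0 + lamI nd 1 + (c.toC / Q) * lamI nd 2).re ≤
      100 / 61 + ‖TT‖ + ‖(q - c.toC / Q) * lamI nd 2‖ := by
    have e : lamI nd 0 + lamI nd 1 + (c.toC / Q) * lamI nd 2 =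
        (lamI nd 0 + lamI nd 1 + q * lamI nd 2 + TT) - TT - (q - c.toC / Q) * lamI nd 2 := by ring
    refine (Complex.re_le_norm _).trans ?_
    rw [e]
    refine (norm_sub_le _ _).trans (add_le_add ?_ le_rfl)
    exact (norm_sub_le _ _).trans (add_le_add hbd le_rfl)
  have hfin : (SC : ℝ) * ‖TT‖ ≤ acc +
      ((2 * powUp r (P + 1) * 10000 / (10000 - r) + 1 : ℕ) : ℝ) := by
    have := mul_le_mul_of_nonneg_left htail hSC.le
    rw [mul_add] at this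
    linarith
  have hre' := mul_le_mul_of_nonneg_left hre hSC.le
  have e3 : (SC : ℝ) * (100 / 61 + ‖TT‖ + ‖(q - c.toC / Q) * lamI nd 2‖) =
      (SC : ℝ) * (100 / 61) + SC * ‖TT‖ + SC * ‖(q - c.toC / Q) * lamI nd 2‖ := by ring
  rw [e3] at hre'
  linarith

end Pool.Agent.MaxTerm59
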