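import Pool.Agent.MaxTerm59.LoopII
import Pool.Agent.MaxTerm59.CostTail
import Pool.Agent.MaxTerm59.HypIIDef

namespace Pool.Agent.MaxTerm59

private lemma LeafII_norm_sum {ι : Type} (L : List ι) (f : ι → ℂ) (b : ι → ℝ)
    (h : ∀ x ∈ L, ‖f x‖ ≤ b x) : ‖(L.map f).sum‖ ≤ (L.map b).sum := by
  induction L with
  | nil => simp
  | cons x L ih =>
    simp only [List.map_cons, List.sum_cons]
    refine (norm_add_le _ _).trans (add_le_add (h x (by simp)) (ih fun y hy => h y ?_))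
    exact List.mem_cons_of_mem _ hy

private lemma LeafII_summ {g : ℕ → ℂ} {e : ℕ → ℕ} {n s : ℕ} {t ρ : ℝ}
    (ht : 0 ≤ t) (htρ : t ≤ ρ) (hρ : ρ < 1) (hs : 0 < s) (he : ∀ j, e (n + j) = e n + s * j)
    (hg : ∀ i, ‖g i‖ ≤ t ^ e i) : Summable fun i => ‖g i‖ := by
  have hρ0 : 0 ≤ ρ := ht.trans htρ
  have hρs : ρ ^ s < 1 := pow_lt_one₀ hρ0 hρ hs.ne'
  have hb : ∀ j, ‖g (j + n)‖ ≤ ρ ^ e n * (ρ ^ s) ^ j := by
    intro j
    have h1 := hg (n + j)
    rw [he] at h1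
    rw [add_comm j n, ← pow_mul, ← pow_add]
    exact h1.trans (pow_le_pow_left₀ ht htρ _)
  have hgeo : Summable fun j : ℕ => ρ ^ e n * (ρ ^ s) ^ j :=
    (summable_geometric_of_lt_one (by positivity) hρs).mul_left _
  exact (summable_nat_add_iff n).mp
    (Summable.of_nonneg_of_le (fun _ => norm_nonneg _) hb hgeo)

private lemma LeafII_family {g c : ℕ → ℂ} {S : ℕ → ℝ} {e : ℕ → ℕ} {n s : ℕ} {t ρ W : ℝ}
    (ht : 0 ≤ t) (htρ : t ≤ ρ) (hρ : ρ < 1) (hs : 0 < s) (he : ∀ j, e (n + j) = e n + s * j)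
    (hg : ∀ i, ‖g i‖ ≤ t ^ e i) (hgS : ∀ i, ‖g i‖ ≤ S i) (hc : ∀ i, ‖c i‖ ≤ W) :
    ‖∑' i, g i * c i‖ ≤
      ∑ j ∈ Finset.range n, S j * ‖c j‖ + W * (ρ ^ e n / (1 - ρ ^ s)) := by
  have hρ0 : 0 ≤ ρ := ht.trans htρ
  have hρs : ρ ^ s < 1 := pow_lt_one₀ hρ0 hρ hs.ne'
  have hW : 0 ≤ W := (norm_nonneg _).trans (hc 0)
  have hb : ∀ j, ‖g (j + n) * c (j + n)‖ ≤ W * ρ ^ e n * (ρ ^ s) ^ j := by
    intro j
    rw [norm_mul]
    have h1 : ‖g (j + n)‖ ≤ ρ ^ (e n + s * j) := by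
      have h1 := hg (n + j)
      rw [he] at h1
      rw [add_comm j n]
      exact h1.trans (pow_le_pow_left₀ ht htρ _)
    calc ‖g (j + n)‖ * ‖c (j + n)‖ ≤ ρ ^ (e n + s * j) * W :=
          mul_le_mul h1 (hc _) (norm_nonneg _) (by positivity)
      _ = W * ρ ^ e n * (ρ ^ s) ^ j := by rw [pow_add, pow_mul]; ring
  have hgeo : Summable fun j : ℕ => W * ρ ^ e n * (ρ ^ s) ^ j :=
    (summable_geometric_of_lt_one (by positivity) hρs).mul_left _
  have hsn0 : Summable fun j => ‖g (j + n) * c (j + n)‖ :=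
    Summable.of_nonneg_of_le (fun _ => norm_nonneg _) hb hgeo
  have hsn : Summable fun i => ‖g i * c i‖ := (summable_nat_add_iff n).mp hsn0
  calc ‖∑' i, g i * c i‖ ≤ ∑' i, ‖g i * c i‖ := norm_tsum_le_tsum_norm hsn
    _ = ∑ j ∈ Finset.range n, ‖g j * c j‖ + ∑' j, ‖g (j + n) * c (j + n)‖ :=
        (hsn.sum_add_tsum_nat_add n).symm
    _ ≤ _ := by
        refine add_le_add (Finset.sum_le_sum fun j _ => ?_) ?_
        · rw [norm_mul]
          exact mul_le_mul_of_nonneg_right (hgS j) (norm_nonneg _)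
        · refine (Summable.tsum_le_tsum hb hsn0 hgeo).trans (le_of_eq ?_)
          rw [tsum_mul_left, tsum_geometric_of_lt_one (by positivity) hρs]
          rw [div_eq_mul_inv]
          ring

private lemma LeafII_swap {ι : Type} (L : List ι) (a z : ι → ℂ) (g : ℕ → ℂ) (k : ℕ → ℤ)
    (hz : ∀ x ∈ L, ‖z x‖ = 1) (hg : Summable fun i => ‖g i‖) :
    (L.map fun x => a x * ∑' i, g i * z x ^ k i).sum =
      ∑' i, g i * (L.map fun x => a x * z x ^ k i).sum := by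
  induction L with
  | nil => simp
  | cons x L ih =>
    have hzx := hz x (by simp)
    have hzL : ∀ y ∈ L, ‖z y‖ = 1 := fun y hy => hz y (List.mem_cons_of_mem _ hy)
    have h1 : Summable fun i => g i * (a x * z x ^ k i) := by
      refine Summable.of_norm_bounded (hg.mul_right ‖a x‖) fun i => ?_
      rw [norm_mul, norm_mul, norm_zpow, hzx, one_zpow, mul_one]
    have h2 : Summable fun i => g i * (L.map fun x => a x * z x ^ k i).sum := by
      refine Summable.of_norm_bounded (hg.mul_right (L.map fun x => ‖a x‖).sum) fun i => ?_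
      rw [norm_mul]
      refine mul_le_mul_of_nonneg_left (LeafII_norm_sum L _ _ fun y hy => ?_) (norm_nonneg _)
      rw [norm_mul, norm_zpow, hzL y hy, one_zpow, mul_one]
    simp only [List.map_cons, List.sum_cons, mul_add]
    rw [ih hzL, Summable.tsum_add h1 h2, ← tsum_mul_left]
    congr 2
    funext i
    ring

private lemma LeafII_powG_one (a : GI) : a.powG 1 = a := by
  simp [GI.powG, GI.mul]

private lemma LeafII_eL {ty : ℕ} (hty : ty < 3) (n j : ℕ) :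
    eL ty (n + j) = eL ty n + stL ty * j := by
  unfold eL stL
  interval_cases ty <;> simp <;> ring

private lemma LeafII_eN {ty : ℕ} (hty : ty < 3) (n j : ℕ) :
    eN ty (n + j) = eN ty n + stL ty * j := by
  unfold eN stL
  interval_cases ty <;> simp <;> ring

private lemma LeafII_eR (ty n j : ℕ) : eR ty (n + j) = eR ty n + dd ty * j := by
  unfold eR
  ring

private lemma LeafII_eP {ty : ℕ} (hty : ty < 3) {n : ℕ} (hn : 1 ≤ n) (j : ℕ) :
    eP ty (n + j) = eP ty n + dd ty * j := by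
  obtain ⟨m, rfl⟩ : ∃ m, n = m + 1 := ⟨n - 1, by omega⟩
  unfold eP dd
  interval_cases ty <;> simp <;> omega

private lemma LeafII_SC : (SC : ℝ) = 100000000 := by norm_num [SC]
private lemma LeafII_HN : (HN : ℝ) = 100000 := by norm_num [HN]
private lemma LeafII_DN : (DN : ℝ) = 32045 := by norm_num [DN]

private lemma LeafII_norm_wt (w : GI) : ‖w.toC / ((HN : ℕ) : ℂ)‖ ≤ (absUp w 1000 1 : ℝ) / SC := by
  have h := absUp_spec w 1000 1 one_pos
  rw [norm_div, LeafII_SC]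
  have h2 : ‖((HN : ℕ) : ℂ)‖ = 100000 := by
    rw [Complex.norm_natCast, LeafII_HN]
  rw [h2]
  rw [div_le_div_iff₀ (by norm_num) (by norm_num)]
  norm_num at h
  linarith

private lemma LeafII_cast_sum {ι : Type} (L : List ι) (f : ι → ℕ) (C : ℝ) :
    (L.map fun x => (f x : ℝ) / C).sum = (((L.map f).sum : ℕ) : ℝ) / C := by
  induction L with
  | nil => simp
  | cons x L ih =>
    simp only [List.map_cons, List.sum_cons, ih]
    push_cast
    ring

private lemma LeafII_re (w : GI) (n : ℕ) : (w.toC / ((n : ℕ) : ℂ)).re = (w.re : ℝ) / n := by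
  rw [Complex.div_natCast_re]
  rfl

private lemma LeafII_final (pL pR pP pN T1 T2 T3 T4 Ylo : ℕ) (a0 a1 b0 : ℤ)
    (hfin : (((pL + pR + pP + pN + (T1 + T2 + T3 + T4) + (SC * 100 / 61 + 1) : ℕ) : ℤ) *
      ((HN * DN : ℕ) : ℤ) < (a0 * DN + a1) * SC + b0 * ((DN * Ylo : ℕ) : ℤ))) :
    (100 / 61 : ℝ) + ((pL : ℝ) + pR + pP + pN + (T1 + T2 + T3 + T4)) / 100000000 <
      (a0 : ℝ) / 100000 + (a1 : ℝ) / (100000 * 32045)
        + ((Ylo : ℝ) / 100000000) * ((b0 : ℝ) / 100000) := by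
  have h1 : ((((pL + pR + pP + pN + (T1 + T2 + T3 + T4) + (163934426 + 1) : ℕ) : ℤ) *
      ((100000 * 32045 : ℕ) : ℤ) : ℤ) : ℝ) <
      ((((a0 * 32045 + a1) * 100000000 + b0 * ((32045 * Ylo : ℕ) : ℤ) : ℤ)) : ℝ) := by
    exact_mod_cast hfin
  push_cast at h1
  rw [← sub_pos] at h1 ⊢
  have e : (a0 : ℝ) / 100000 + (a1 : ℝ) / (100000 * 32045)
        + ((Ylo : ℝ) / 100000000) * ((b0 : ℝ) / 100000)
        - ((100 / 61 : ℝ) + ((pL : ℝ) + pR + pP + pN + (T1 + T2 + T3 + T4)) / 100000000)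
      = ((((a0 : ℝ) * 32045 + a1) * 100000000 + b0 * (32045 * Ylo))
        - ((pL : ℝ) + pR + pP + pN + (T1 + T2 + T3 + T4) + 10000000000 / 61)
          * (100000 * 32045)) / (100000000 * 100000 * 32045) := by
    ring
  rw [e]
  apply div_pos _ (by norm_num)
  linarith

private lemma LeafII_sig (sig Ylo : ℕ)
    (hsig : 100000000000000000000 ≤ 3721 * (sig ^ 2 * 100000000 + Ylo ^ 2 + 20000000000000000)) :
    ((100 : ℝ) / 61) ^ 2 ≤ 2 + ((Ylo : ℝ) / 100000000) ^ 2 + ((sig : ℝ) / 10000) ^ 2 := by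
  have e1 : (100000000000000000000 : ℝ) ≤
      3721 * ((sig : ℝ) ^ 2 * 100000000 + (Ylo : ℝ) ^ 2 + 20000000000000000) := by
    exact_mod_cast hsig
  rw [div_pow, div_pow, div_pow]
  norm_num
  linarith

private lemma LeafII_Y (tlo D Ylo : ℕ) (Y t : ℝ) (hY0 : 0 < Y) (ht : t ^ D = Y + 1 / 2000)
    (h1 : (tlo : ℝ) / 10000 ≤ t)
    (hYlo : Ylo = tlo ^ D * SC / 10000 ^ D - 50000) : (Ylo : ℝ) / 100000000 ≤ Y := by
  have e4 : ((tlo : ℝ) / 10000) ^ D ≤ t ^ D :=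
    pow_le_pow_left₀ (div_nonneg (Nat.cast_nonneg _) (by norm_num)) h1 _
  have e2 : ((tlo ^ D * SC / 10000 ^ D : ℕ) : ℝ) ≤ ((tlo : ℝ) / 10000) ^ D * 100000000 := by
    refine (Nat.cast_div_le (α := ℝ)).trans (le_of_eq ?_)
    rw [Nat.cast_mul, Nat.cast_pow, Nat.cast_pow, LeafII_SC, div_pow, Nat.cast_ofNat]
    ring
  generalize tlo ^ D * SC / 10000 ^ D = q at hYlo e2
  rw [div_le_iff₀ (by norm_num)]
  rcases le_total 50000 q with hcase | hcase
  · have e1 : (Ylo : ℝ) = (q : ℝ) - 50000 := by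
      rw [hYlo, Nat.cast_sub hcase, Nat.cast_ofNat]
    rw [e1]
    linarith
  · have : Ylo = 0 := by
      rw [hYlo]
      exact Nat.sub_eq_zero_of_le hcase
    rw [this, Nat.cast_zero]
    linarith

private lemma LeafII_combine {E S X W p T : ℝ} (f : E ≤ S + W / 100000000 * X)
    (b : 100000000 * S ≤ p) (t : W * X ≤ T) : E ≤ (p + T) / 100000000 := by
  have e : W / 100000000 * X = (W * X) / 100000000 := by ring
  rw [e] at f
  linarith

private lemma LeafII_norm_main {M E1 E2 E3 E4 : ℂ} {c e1 e2 e3 e4 : ℝ}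
    (h : ‖M + E1 + E2 + E3 + E4‖ ≤ c) (h1 : ‖E1‖ ≤ e1) (h2 : ‖E2‖ ≤ e2) (h3 : ‖E3‖ ≤ e3)
    (h4 : ‖E4‖ ≤ e4) : M.re ≤ c + e1 + e2 + e3 + e4 := by
  have e : M = (M + E1 + E2 + E3 + E4) - E1 - E2 - E3 - E4 := by ring
  have k1 := norm_sub_le ((M + E1 + E2 + E3 + E4) - E1 - E2 - E3) E4
  have k2 := norm_sub_le ((M + E1 + E2 + E3 + E4) - E1 - E2) E3
  have k3 := norm_sub_le ((M + E1 + E2 + E3 + E4) - E1) E2
  have k4 := norm_sub_le (M + E1 + E2 + E3 + E4) E1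
  rw [← e] at k1
  have k5 := Complex.re_le_norm M
  linarith

/-- soundness of a leaf -/
theorem leafII_sound (ty tlo thi sig nL nR nP nN : ℕ) (nodes : List ℕ) (hty : ty < 3)
    (h : checkLeafII ty tlo thi sig nL nR nP nN nodes = true)
    (Y t : ℝ) (gl gr hp hn : ℕ → ℂ) (H : HypII (100 / 61) (1 / 2000) ty Y t gl gr hp hn)
    (h1 : (tlo : ℝ) / 10000 ≤ t) (h2 : t ≤ (thi : ℝ) / 10000) : False := by
  unfold checkLeafII at h
  simp only [Bool.and_eq_true, decide_eq_true_eq, List.all_eq_true] at h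
  generalize nodes.map decodeNd2 = nd at h
  obtain ⟨⟨⟨⟨⟨⟨⟨hz, hAB⟩, hK⟩, hthi⟩, hnP⟩, hb0⟩, hsig⟩, hfin⟩ := h
  have hF := LeafII_final _ _ _ _ _ _ _ _ _ _ _ _ hfin
  clear hfin
  have hSig := LeafII_sig _ _ hsig
  clear hsig
  have hYb := LeafII_Y tlo (dd ty) _ Y t H.Y_pos H.t_pow h1 rfl
  generalize tlo ^ dd ty * SC / 10000 ^ dd ty - 50000 = Ylo at hF hSig hYb
  have hKR : (((nd.map fun x => costUp ty (absUp x.2.1 1000 1) (absUp x.2.2 1000 1)).sum : ℕ)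
        : ℝ) ≤ 100000000 := by exact_mod_cast hK
  clear hK
  set lA : List (GI × GI) := nd.map fun x => (x.1, x.2.1) with hlA
  set lB : List (GI × GI) := nd.map fun x => (x.1, x.2.2) with hlB
  set pL := loopII (eL ty) thi sig nL 0 1 (nd.map fun x => (x.1.conj, x.2.1.mul x.1.conj)) 0
    with hpL
  set pR := loopII (eR ty) thi sig nR 0 2 (nd.map fun x => (x.1, (x.2.1.mul x.1).mul x.1)) 0
    with hpR
  set pP := loopII (eP ty) thi sig nP 0 1 (nd.map fun x => (x.1, x.2.2.mul x.1)) 0 with hpP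
  set pN := loopII (eN ty) thi sig nN 0 1 (nd.map fun x => (x.1.conj, x.2.2.mul x.1.conj)) 0
    with hpN
  set WA := (nd.map fun x => absUp x.2.1 1000 1).sum with hWA
  set WB := (nd.map fun x => absUp x.2.2 1000 1).sum with hWB
  set a0 := nd.foldr (fun x s => x.2.1.add s) ⟨0, 0⟩ with ha0
  set a1 := nd.foldr (fun x s => (x.2.1.mul x.1).add s) ⟨0, 0⟩ with ha1
  set b0 := nd.foldr (fun x s => x.2.2.add s) ⟨0, 0⟩ with hb0'
  -- elementary facts
  have ht0 : 0 ≤ t := H.t_pos.le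
  have hthiR : (thi : ℝ) < 10000 := by exact_mod_cast hthi
  have hρ1 : (thi : ℝ) / 10000 < 1 := by rw [div_lt_one (by norm_num)]; exact hthiR
  have hdd : 0 < dd ty := by unfold dd; split_ifs <;> norm_num
  have hst : 0 < stL ty := by unfold stL; split_ifs <;> norm_num
  have hY0 : 0 < Y := H.Y_pos
  have hYb0 : 0 ≤ (Ylo : ℝ) / 100000000 := by positivity
  have hsq : ((100 : ℝ) / 61) ^ 2 ≤ 2 + Y ^ 2 + ((sig : ℝ) / 10000) ^ 2 := by
    have e2 : ((Ylo : ℝ) / 100000000) ^ 2 ≤ Y ^ 2 := pow_le_pow_left₀ hYb0 hYb 2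
    linarith
  have hsig0 : 0 ≤ (sig : ℝ) / 10000 := by positivity
  have hco : ∀ w : ℂ, 2 + Y ^ 2 + ‖w‖ ^ 2 ≤ (100 / 61 : ℝ) ^ 2 → ‖w‖ ≤ (sig : ℝ) / 10000 := by
    intro w hw
    have : ‖w‖ ^ 2 ≤ ((sig : ℝ) / 10000) ^ 2 := by linarith
    exact (pow_le_pow_iff_left₀ (norm_nonneg _) hsig0 two_ne_zero).mp this
  -- summability
  have sL : Summable fun i => ‖gl i‖ :=
    LeafII_summ ht0 h2 hρ1 hst (LeafII_eL hty nL) H.sgl
  have sR : Summable fun i => ‖gr i‖ :=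
    LeafII_summ ht0 h2 hρ1 hdd (LeafII_eR ty nR) H.sgr
  have sP : Summable fun i => ‖hp i‖ :=
    LeafII_summ ht0 h2 hρ1 hdd (LeafII_eP hty hnP) H.shp
  have sN : Summable fun i => ‖hn i‖ :=
    LeafII_summ ht0 h2 hρ1 hst (LeafII_eN hty nN) H.shn
  -- the moments
  have hlamA : ∀ k : ℤ, lamII lA k =
      (nd.map fun x => (x.2.1.toC / ((HN : ℕ) : ℂ)) * (x.1.toC / ((DN : ℕ) : ℂ)) ^ k).sum := by
    intro k
    rw [lamII, hlA, List.map_map]
    rfl
  have hlamB : ∀ k : ℤ, lamII lB k =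
      (nd.map fun x => (x.2.2.toC / ((HN : ℕ) : ℂ)) * (x.1.toC / ((DN : ℕ) : ℂ)) ^ k).sum := by
    intro k
    rw [lamII, hlB, List.map_map]
    rfl
  have hz1 : ∀ x ∈ nd, ‖x.1.toC / ((DN : ℕ) : ℂ)‖ = 1 := fun x hx => norm_div_DN _ (hz x hx)
  have hWAb : ∀ k : ℤ, ‖lamII lA k‖ ≤ (WA : ℝ) / SC := by
    intro k
    rw [hlamA, hWA, ← LeafII_cast_sum]
    refine LeafII_norm_sum nd _ _ fun x hx => ?_
    rw [norm_mul, norm_zpow, hz1 x hx, one_zpow, mul_one]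
    exact LeafII_norm_wt _
  have hWBb : ∀ k : ℤ, ‖lamII lB k‖ ≤ (WB : ℝ) / SC := by
    intro k
    rw [hlamB, hWB, ← LeafII_cast_sum]
    refine LeafII_norm_sum nd _ _ fun x hx => ?_
    rw [norm_mul, norm_zpow, hz1 x hx, one_zpow, mul_one]
    exact LeafII_norm_wt _
  have hzA : ∀ x ∈ lA, x.1.nsq = DN ^ 2 := by
    intro x hx
    obtain ⟨y, hy, rfl⟩ := List.mem_map.mp hx
    exact hz y hy
  have hzB : ∀ x ∈ lB, x.1.nsq = DN ^ 2 := by
    intro x hx
    obtain ⟨y, hy, rfl⟩ := List.mem_map.mp hx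
    exact hz y hy
  -- the loops
  have hS0 : ∀ e : ℕ → ℕ, ∀ i, 0 ≤ min (t ^ e i) ((sig : ℝ) / 10000) :=
    fun e i => le_min (pow_nonneg ht0 _) hsig0
  have hS1 : ∀ e : ℕ → ℕ, ∀ i, min (t ^ e i) ((sig : ℝ) / 10000) ≤ ((thi : ℝ) / 10000) ^ e i :=
    fun e i => (min_le_left _ _).trans (pow_le_pow_left₀ ht0 h2 _)
  have hS2 : ∀ e : ℕ → ℕ, ∀ i, min (t ^ e i) ((sig : ℝ) / 10000) ≤ (sig : ℝ) / 10000 :=
    fun e i => min_le_right _ _
  have bL : (SC : ℝ) * ∑ j ∈ Finset.range nL,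
      min (t ^ eL ty j) ((sig : ℝ) / 10000) * ‖lamII lA (-(j + 1 : ℤ))‖ ≤ pL := by
    have := loopII_spec_neg (eL ty) thi sig hthi lA hzA
      (fun i => min (t ^ eL ty i) ((sig : ℝ) / 10000)) (hS0 _) (hS1 _) (hS2 _) nL 0 1 0
    have e : (lA.map fun x => (x.1.conj, x.2.mul (x.1.conj.powG 1))) =
        nd.map fun x => (x.1.conj, x.2.1.mul x.1.conj) := by
      rw [hlA, List.map_map]
      refine List.map_congr_left fun x _ => ?_
      simp only [Function.comp, LeafII_powG_one]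
    rw [e, ← hpL] at this
    refine le_trans (le_of_eq ?_) this
    simp only [Nat.cast_zero, zero_add, Nat.cast_one]
    refine congrArg _ (Finset.sum_congr rfl fun j _ => ?_)
    rw [add_comm (j : ℤ) 1]
  have bN : (SC : ℝ) * ∑ j ∈ Finset.range nN,
      min (t ^ eN ty j) ((sig : ℝ) / 10000) * ‖lamII lB (-(j + 1 : ℤ))‖ ≤ pN := by
    have := loopII_spec_neg (eN ty) thi sig hthi lB hzB
      (fun i => min (t ^ eN ty i) ((sig : ℝ) / 10000)) (hS0 _) (hS1 _) (hS2 _) nN 0 1 0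
    have e : (lB.map fun x => (x.1.conj, x.2.mul (x.1.conj.powG 1))) =
        nd.map fun x => (x.1.conj, x.2.2.mul x.1.conj) := by
      rw [hlB, List.map_map]
      refine List.map_congr_left fun x _ => ?_
      simp only [Function.comp, LeafII_powG_one]
    rw [e, ← hpN] at this
    refine le_trans (le_of_eq ?_) this
    simp only [Nat.cast_zero, zero_add, Nat.cast_one]
    refine congrArg _ (Finset.sum_congr rfl fun j _ => ?_)
    rw [add_comm (j : ℤ) 1]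
  have bP : (SC : ℝ) * ∑ j ∈ Finset.range nP,
      min (t ^ eP ty j) ((sig : ℝ) / 10000) * ‖lamII lB (j + 1 : ℤ)‖ ≤ pP := by
    have := loopII_spec_pos (eP ty) thi sig hthi lB hzB
      (fun i => min (t ^ eP ty i) ((sig : ℝ) / 10000)) (hS0 _) (hS1 _) (hS2 _) nP 0 1 0
    have e : (lB.map fun x => (x.1, x.2.mul (x.1.powG 1))) =
        nd.map fun x => (x.1, x.2.2.mul x.1) := by
      rw [hlB, List.map_map]
      refine List.map_congr_left fun x _ => ?_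
      simp only [Function.comp, LeafII_powG_one]
    rw [e, ← hpP] at this
    refine le_trans (le_of_eq ?_) this
    simp only [Nat.cast_zero, zero_add, Nat.cast_one]
    refine congrArg _ (Finset.sum_congr rfl fun j _ => ?_)
    rw [add_comm (j : ℤ) 1]
  have bR : (SC : ℝ) * ∑ j ∈ Finset.range nR,
      min (t ^ eR ty j) ((sig : ℝ) / 10000) * ‖lamII lA (j + 2 : ℤ)‖ ≤ pR := by
    have := loopII_spec_pos (eR ty) thi sig hthi lA hzA
      (fun i => min (t ^ eR ty i) ((sig : ℝ) / 10000)) (hS0 _) (hS1 _) (hS2 _) nR 0 2 0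
    have e : (lA.map fun x => (x.1, x.2.mul (x.1.powG 2))) =
        nd.map fun x => (x.1, (x.2.1.mul x.1).mul x.1) := by
      rw [hlA, List.map_map]
      refine List.map_congr_left fun x _ => ?_
      have : x.1.powG 2 = x.1.mul x.1 := by
        show (x.1.powG 1).mul x.1 = _
        rw [LeafII_powG_one]
      simp only [Function.comp, this, GI.mul_assoc']
    rw [e, ← hpR] at this
    refine le_trans (le_of_eq ?_) this
    simp only [Nat.cast_zero, zero_add, Nat.cast_ofNat]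
    refine congrArg _ (Finset.sum_congr rfl fun j _ => ?_)
    rw [add_comm (j : ℤ) 2]
  -- the families
  have fL := LeafII_family (c := fun i => lamII lA (-(i + 1 : ℤ)))
    (S := fun i => min (t ^ eL ty i) ((sig : ℝ) / 10000)) ht0 h2 hρ1 hst (LeafII_eL hty nL)
    H.sgl (fun i => le_min (H.sgl i) (hco _ (H.engl i))) (fun i => hWAb _)
  have fR := LeafII_family (c := fun i => lamII lA (i + 2 : ℤ))
    (S := fun i => min (t ^ eR ty i) ((sig : ℝ) / 10000)) ht0 h2 hρ1 hdd (LeafII_eR ty nR)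
    H.sgr (fun i => le_min (H.sgr i) (hco _ (H.engr i))) (fun i => hWAb _)
  have fP := LeafII_family (c := fun i => lamII lB (i + 1 : ℤ))
    (S := fun i => min (t ^ eP ty i) ((sig : ℝ) / 10000)) ht0 h2 hρ1 hdd (LeafII_eP hty hnP)
    H.shp (fun i => le_min (H.shp i) (hco _ (H.enhp i))) (fun i => hWBb _)
  have fN := LeafII_family (c := fun i => lamII lB (-(i + 1 : ℤ)))
    (S := fun i => min (t ^ eN ty i) ((sig : ℝ) / 10000)) ht0 h2 hρ1 hst (LeafII_eN hty nN)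
    H.shn (fun i => le_min (H.shn i) (hco _ (H.enhn i))) (fun i => hWBb _)
  have tL := tailUp_spec WA thi (eL ty nL) (stL ty) hthi hst
  have tR := tailUp_spec WA thi (eR ty nR) (dd ty) hthi hdd
  have tP := tailUp_spec WB thi (eP ty nP) (dd ty) hthi hdd
  have tN := tailUp_spec WB thi (eN ty nN) (stL ty) hthi hst
  -- the sum over the nodes
  have hnode : ∀ x ∈ nd, ‖(x.2.1.toC / ((HN : ℕ) : ℂ)) * GG gl gr (x.1.toC / ((DN : ℕ) : ℂ)) +
      (x.2.2.toC / ((HN : ℕ) : ℂ)) * HH Y hp hn (x.1.toC / ((DN : ℕ) : ℂ))‖ ≤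
      (100 / 61 : ℝ) * ((costUp ty (absUp x.2.1 1000 1) (absUp x.2.2 1000 1) : ℝ) / SC) := by
    intro x hx
    exact H.func _ _ _ _ _ _ (hz1 x hx) (LeafII_norm_wt _) (LeafII_norm_wt _)
      (costUp_spec ty _ _ (hAB x hx))
  have hT := LeafII_norm_sum nd _ _ hnode
  have hT2 : (nd.map fun x => (100 / 61 : ℝ) *
      ((costUp ty (absUp x.2.1 1000 1) (absUp x.2.2 1000 1) : ℝ) / SC)).sum ≤ 100 / 61 := by
    rw [List.sum_map_mul_left, LeafII_cast_sum]
    have e2 : (((nd.map fun x => costUp ty (absUp x.2.1 1000 1) (absUp x.2.2 1000 1)).sum : ℕ)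
        : ℝ) / (SC : ℝ) ≤ 1 := by
      rw [LeafII_SC, div_le_one (by norm_num)]
      exact hKR
    linarith
  have hexp : ∀ x : GI × GI × GI,
      (x.2.1.toC / ((HN : ℕ) : ℂ)) * GG gl gr (x.1.toC / ((DN : ℕ) : ℂ)) +
      (x.2.2.toC / ((HN : ℕ) : ℂ)) * HH Y hp hn (x.1.toC / ((DN : ℕ) : ℂ)) =
      (x.2.1.toC / ((HN : ℕ) : ℂ)) * (x.1.toC / ((DN : ℕ) : ℂ)) ^ (0 : ℤ)
      + (x.2.1.toC / ((HN : ℕ) : ℂ)) * (x.1.toC / ((DN : ℕ) : ℂ)) ^ (1 : ℤ)
      + (Y : ℂ) * ((x.2.2.toC / ((HN : ℕ) : ℂ)) * (x.1.toC / ((DN : ℕ) : ℂ)) ^ (0 : ℤ))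
      + (x.2.1.toC / ((HN : ℕ) : ℂ)) *
          ∑' i : ℕ, gl i * (x.1.toC / ((DN : ℕ) : ℂ)) ^ (-(i + 1 : ℤ))
      + (x.2.1.toC / ((HN : ℕ) : ℂ)) * ∑' i : ℕ, gr i * (x.1.toC / ((DN : ℕ) : ℂ)) ^ (i + 2 : ℤ)
      + (x.2.2.toC / ((HN : ℕ) : ℂ)) * ∑' i : ℕ, hp i * (x.1.toC / ((DN : ℕ) : ℂ)) ^ (i + 1 : ℤ)
      + (x.2.2.toC / ((HN : ℕ) : ℂ)) *
          ∑' i : ℕ, hn i * (x.1.toC / ((DN : ℕ) : ℂ)) ^ (-(i + 1 : ℤ)) := by
    intro x
    have e2 : ∀ (w : ℂ) (i : ℕ), w ^ (i + 2 : ℤ) = w ^ (i + 2) := by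
      intro w i
      rw [← zpow_natCast]
      push_cast
      rfl
    have e1 : ∀ (w : ℂ) (i : ℕ), w ^ (i + 1 : ℤ) = w ^ (i + 1) := by
      intro w i
      rw [← zpow_natCast]
      push_cast
      rfl
    simp only [e1, e2, zpow_zero, zpow_one, mul_one]
    unfold GG HH
    ring
  simp only [hexp] at hT
  rw [List.sum_map_add, List.sum_map_add, List.sum_map_add, List.sum_map_add, List.sum_map_add,
    List.sum_map_add, List.sum_map_mul_left, LeafII_swap nd _ _ gl _ hz1 sL,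
    LeafII_swap nd _ _ gr _ hz1 sR, LeafII_swap nd _ _ hp _ hz1 sP,
    LeafII_swap nd _ _ hn _ hz1 sN] at hT
  simp only [← hlamA, ← hlamB] at hT
  -- the main part
  have m0 : lamII lA 0 = a0.toC / ((HN : ℕ) : ℂ) := by
    rw [hlamA, ha0, toC_sum_foldr]
    simp only [zpow_zero, mul_one, div_eq_mul_inv]
    rw [List.sum_map_mul_right]
  have m1 : lamII lA 1 = a1.toC / ((HN * DN : ℕ) : ℂ) := by
    rw [hlamA, ha1, toC_sum_foldr]
    simp only [zpow_one, GI.toC_mul, div_eq_mul_inv]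
    rw [← List.sum_map_mul_right]
    refine congrArg List.sum (List.map_congr_left fun x _ => ?_)
    push_cast
    rw [mul_inv]
    ring
  have n0 : lamII lB 0 = b0.toC / ((HN : ℕ) : ℂ) := by
    rw [hlamB, hb0', toC_sum_foldr]
    simp only [zpow_zero, mul_one, div_eq_mul_inv]
    rw [List.sum_map_mul_right]
  have hre : (lamII lA 0 + lamII lA 1 + (Y : ℂ) * lamII lB 0).re =
      (a0.re : ℝ) / HN + (a1.re : ℝ) / ((HN * DN : ℕ) : ℝ) + Y * ((b0.re : ℝ) / HN) := by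
    rw [m0, m1, n0, Complex.add_re, Complex.add_re, Complex.re_ofReal_mul, LeafII_re, LeafII_re,
      LeafII_re]
  have hHD : ((HN * DN : ℕ) : ℝ) = 100000 * 32045 := by
    rw [Nat.cast_mul, LeafII_HN, LeafII_DN]
  rw [hHD, LeafII_HN] at hre
  rw [LeafII_SC] at fL fR fP fN bL bR bP bN
  have gL := LeafII_combine fL bL tL
  have gR := LeafII_combine fR bR tR
  have gP := LeafII_combine fP bP tP
  have gN := LeafII_combine fN bN tN
  have hmain := LeafII_norm_main (hT.trans hT2) gL gR gP gN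
  rw [hre] at hmain
  have hb0R : (0 : ℝ) ≤ (b0.re : ℝ) / 100000 := by
    apply div_nonneg _ (by norm_num)
    exact_mod_cast hb0
  have hmul := mul_le_mul_of_nonneg_right hYb hb0R
  linarith

end Pool.Agent.MaxTerm59
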