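import Pool.Agent.MaxTerm59.SysDef

namespace Pool.Agent.MaxTerm59

/-- The local picture at an (almost) extremal vertex, put at index `0`: `c₁` belongs to the corner on
the left (gap `m`, units at `-m` and `0`), `c₂` to the corner on the right (gap `M`, units at `0`, `M`),
`x` is the quotient of the two radii; `y₁`, `y₂` are the quotients at the neighbouring vertices. -/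
structure Loc (B ε : ℝ) where
  m : ℕ
  M : ℕ
  x : ℝ
  y₁ : ℝ
  y₂ : ℝ
  c₁ : ℤ → ℂ
  c₂ : ℤ → ℂ
  hm : 0 < m
  hM : 0 < M
  x_pos : 0 < x
  x_lt : x < 1
  y₁_pos : 0 < y₁
  y₁_lt : y₁ < 1
  y₂_pos : 0 < y₂
  y₂_lt : y₂ < 1
  summ₁ : Summable fun n => ‖c₁ n‖
  summ₂ : Summable fun n => ‖c₂ n‖
  le₁ : ∀ n, ‖c₁ n‖ ≤ 1
  le₂ : ∀ n, ‖c₂ n‖ ≤ 1
  u₁ : ‖c₁ (-(m : ℤ))‖ = 1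
  u₀ : ‖c₁ 0‖ = 1
  u₂ : ‖c₂ (M : ℤ)‖ = 1
  rel : ∀ n, c₂ n = c₁ n * ((x : ℝ) : ℂ) ^ (-n)
  bd₁ : ∀ z, ‖z‖ = 1 → ‖∑' n : ℤ, c₁ n * z ^ n‖ ≤ B
  bd₂ : ∀ z, ‖z‖ = 1 → ‖∑' n : ℤ, c₂ n * z ^ n‖ ≤ B
  dec₁ : ∀ n : ℕ, ‖c₁ (-(m : ℤ) - n)‖ ≤ y₁ ^ n
  dec₂ : ∀ n : ℕ, ‖c₂ ((M : ℤ) + n)‖ ≤ y₂ ^ n
  hy₁ : y₁ ^ m ≤ x ^ (min m M) + ε
  hy₂ : y₂ ^ M ≤ x ^ (min m M) + ε

end Pool.Agent.MaxTerm59
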