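import Pool.Agent.MaxTerm59.LamI

namespace Pool.Agent.MaxTerm59

theorem LoopI_list_sum_mul (l : List (GI × GI)) (f : GI × GI → ℂ) (a : ℂ) :
    (l.map fun x => a * f x).sum = a * (l.map f).sum := by
  induction l with
  | nil => simp
  | cons x l ih => simp [ih, mul_add]

theorem LoopI_sumU (nd : List (GI × GI)) (i : ℕ) :
    (sumU (nd.map fun x => (x.1, (x.2.mul (x.1.powG (i + 2)), x.2.mul (x.1.conj.powG i))))).toC
      = ((HN : ℕ) : ℂ) * ((DN : ℕ) : ℂ) ^ (i + 2) * lamI nd ((i : ℤ) + 2) := by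
  unfold sumU
  rw [toC_sum_foldr _ (fun x : GI × GI × GI => x.2.1), List.map_map]
  unfold lamI
  rw [← LoopI_list_sum_mul]
  apply congrArg List.sum
  apply List.map_congr_left
  intro x hx
  simp only [Function.comp_apply, GI.toC_mul, GI.toC_powG]
  have h1 : ((HN : ℕ) : ℂ) ≠ 0 := by norm_num
  have h2 : ((DN : ℕ) : ℂ) ≠ 0 := by norm_num
  have h3 : ((i : ℤ) + 2) = ((i + 2 : ℕ) : ℤ) := by push_cast; ring
  rw [h3, zpow_natCast, div_pow]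
  field_simp

theorem LoopI_sumV (nd : List (GI × GI)) (hz : ∀ x ∈ nd, x.1.nsq = DN ^ 2) (i : ℕ) :
    (sumV (nd.map fun x => (x.1, (x.2.mul (x.1.powG (i + 2)), x.2.mul (x.1.conj.powG i))))).toC
      = ((HN : ℕ) : ℂ) * ((DN : ℕ) : ℂ) ^ i * lamI nd (-(i : ℤ)) := by
  unfold sumV
  rw [toC_sum_foldr _ (fun x : GI × GI × GI => x.2.2), List.map_map]
  unfold lamI
  rw [← LoopI_list_sum_mul]
  apply congrArg List.sum
  apply List.map_congr_left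
  intro x hx
  simp only [Function.comp_apply, GI.toC_mul, GI.toC_powG]
  have h1 : ((HN : ℕ) : ℂ) ≠ 0 := by norm_num
  have h2 : ((DN : ℕ) : ℂ) ≠ 0 := by norm_num
  have h4 := conj_div_DN x.1 (hz x hx)
  have h5 : x.1.conj.toC = ((DN : ℕ) : ℂ) * (x.1.toC / ((DN : ℕ) : ℂ))⁻¹ := by
    rw [← h4]; field_simp
  rw [h5, zpow_neg, zpow_natCast, mul_pow, inv_pow]
  field_simp

theorem LoopI_pow_sub (a b : ℂ) (R : ℝ) (ha : ‖a‖ ≤ R) (hb : ‖b‖ ≤ R) (n : ℕ) :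
    ‖a ^ (n + 1) - b ^ (n + 1)‖ ≤ (n + 1) * R ^ n * ‖a - b‖ := by
  have hR : 0 ≤ R := le_trans (norm_nonneg _) ha
  induction n with
  | zero => simp
  | succ n ih =>
    have h1 : a ^ (n + 1 + 1) - b ^ (n + 1 + 1) = a * (a ^ (n + 1) - b ^ (n + 1)) + (a - b) * b ^ (n + 1) := by
      ring
    rw [h1]
    refine le_trans (norm_add_le _ _) ?_
    rw [norm_mul, norm_mul, norm_pow]
    have h2 : ‖a‖ * ‖a ^ (n + 1) - b ^ (n + 1)‖ ≤ R * ((n + 1) * R ^ n * ‖a - b‖) :=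
      mul_le_mul ha ih (norm_nonneg _) hR
    have h3 : ‖a - b‖ * ‖b‖ ^ (n + 1) ≤ ‖a - b‖ * R ^ (n + 1) :=
      mul_le_mul_of_nonneg_left (pow_le_pow_left₀ (norm_nonneg _) hb _) (norm_nonneg _)
    push_cast
    calc ‖a‖ * ‖a ^ (n + 1) - b ^ (n + 1)‖ + ‖a - b‖ * ‖b‖ ^ (n + 1)
        ≤ R * ((n + 1) * R ^ n * ‖a - b‖) + ‖a - b‖ * R ^ (n + 1) := add_le_add h2 h3
      _ = (n + 1 + 1) * R ^ (n + 1) * ‖a - b‖ := by ring

/-- floor division is at least the real quotient minus one -/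
theorem LoopI_div_le (a b : ℕ) (hb : 0 < b) : (a : ℝ) / b ≤ ((a / b + 1 : ℕ) : ℝ) := by
  rw [div_le_iff₀ (by exact_mod_cast hb)]
  have h := Nat.lt_div_mul_add hb (a := a)
  have h2 : a ≤ (a / b + 1) * b := by
    nlinarith
  exact_mod_cast h2

/-- real part of the estimate, with the scale as a variable -/
theorem LoopI_num1 (K u p iR d L ρ Qr : ℝ) (hK : 0 < K) (hQ : 0 < Qr) (hi : 0 ≤ iR)
    (hL : 0 ≤ L) (hρ0 : 0 ≤ ρ)
    (hρ : ρ * K ≤ p) (hu : K * L ≤ u) (hd : d ≤ (iR + 1) * ρ * (1.41422 / Qr)) :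
    K * (d * L) ≤ (u * (iR + 1) * p * 141422) / (K * 100000 * Qr) := by
  have hρ' : ρ ≤ p / K := by rw [le_div_iff₀ hK]; exact hρ
  have hp : 0 ≤ p := le_trans (by positivity) hρ
  have hu0 : 0 ≤ u := le_trans (by positivity) hu
  have h5 : d ≤ (iR + 1) * (p / K) * (1.41422 / Qr) := by
    refine le_trans hd ?_
    have h7 : (0 : ℝ) ≤ iR + 1 := by positivity
    exact mul_le_mul_of_nonneg_right (mul_le_mul_of_nonneg_left hρ' h7) (by positivity)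
  calc K * (d * L) = d * (K * L) := by ring
    _ ≤ ((iR + 1) * (p / K) * (1.41422 / Qr)) * u := mul_le_mul h5 hu (by positivity) (by positivity)
    _ = (u * (iR + 1) * p * 141422) / (K * 100000 * Qr) := by
        field_simp
        ring

theorem LoopI_num2 (K s m t v si : ℝ) (hK : 0 < K) (hm : 0 ≤ m) (hs : 0 ≤ s)
    (hsi : K * s ≤ si) (hm2 : K * m ≤ t + v) : K * (s * m) ≤ si * (t + v) / K := by
  rw [le_div_iff₀ hK]
  have h1 : 0 ≤ si := le_trans (by positivity) hsi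
  calc K * (s * m) * K = (K * s) * (K * m) := by ring
    _ ≤ si * (t + v) := mul_le_mul hsi hm2 (by positivity) h1

theorem LoopI_tri (K : ℝ) (hK : 0 ≤ K) (L0 L2 a b : ℂ) (t v : ℝ)
    (h1 : K * ‖L0 + b * L2‖ ≤ t) (h2 : K * (‖a - b‖ * ‖L2‖) ≤ v) :
    K * ‖L0 + a * L2‖ ≤ t + v := by
  have h9 : L0 + a * L2 = (L0 + b * L2) + (a - b) * L2 := by ring
  rw [h9]
  calc K * ‖(L0 + b * L2) + (a - b) * L2‖ ≤ K * (‖L0 + b * L2‖ + ‖(a - b) * L2‖) :=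
        mul_le_mul_of_nonneg_left (norm_add_le _ _) hK
    _ ≤ t + v := by rw [mul_add, norm_mul]; exact add_le_add h1 h2

/-- the estimate behind one value of `absUp` -/
theorem LoopI_abs (w : GI) (sc den : ℕ) (hd : 0 < den) (z : ℂ) (hw : w.toC = (den : ℂ) * z) :
    (sc : ℝ) * ‖z‖ ≤ absUp w sc den := by
  have h := absUp_spec w sc den hd
  rw [hw, norm_mul, Complex.norm_natCast] at h
  refine le_trans (le_of_eq ?_) h
  have : (den : ℝ) ≠ 0 := by exact_mod_cast hd.ne'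
  field_simp

/-- the increment of the accumulator -/
def LoopI_incr (Q r rc sig i : ℕ) (U V cp : GI) : ℕ :=
  (min (powUp r i) (sig * 10000) *
      (absUp ((V.smul ((DN ^ 2 * Q ^ (i+1) : ℕ) : ℤ)).add (cp.mul U)) SC
        (HN * DN ^ (i+2) * Q ^ (i+1)) +
      (absUp U SC (HN * DN ^ (i+2)) * (i+1) * powUp rc i * 141422 / (SC * 100000 * Q) + 1)) / SC + 1)

theorem LoopI_unf1 (c : GI) (Q r rc sig f i : ℕ) (l : StI) (cp : GI) (acc : ℕ)
    (b : Nat.below (motive := fun _ => ℕ → StI → GI → ℕ → ℕ) (f + 1)) :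
    loopI._f c Q r rc sig (f + 1) b i l cp acc =
      b.1 (i + 1) (stepI l) (cp.mul c)
        (acc + LoopI_incr Q r rc sig i (sumU l) (sumV l) cp) := rfl

theorem LoopI_unf2 (c : GI) (Q r rc sig f : ℕ) :
    loopI c Q r rc sig (f + 1) = loopI._f c Q r rc sig (f + 1)
      (Nat.brecOn.go (motive := fun _ => ℕ → StI → GI → ℕ → ℕ) f (loopI._f c Q r rc sig)) := by
  delta loopI
  rfl

theorem LoopI_unf3 (c : GI) (Q r rc sig f : ℕ) :
    (Nat.brecOn.go (motive := fun _ => ℕ → StI → GI → ℕ → ℕ) f (loopI._f c Q r rc sig)).1 =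
      loopI c Q r rc sig f := by
  delta loopI
  rfl

theorem LoopI_zero (c : GI) (Q r rc sig i : ℕ) (l : StI) (cp : GI) (acc : ℕ) :
    loopI c Q r rc sig 0 i l cp acc = acc := by
  delta loopI
  rfl

/-- The equation of the loop. It is proved in three small steps: the generated equation
theorem is too deep for the kernel. -/
theorem LoopI_unfold (c : GI) (Q r rc sig f i : ℕ) (l : StI) (cp : GI) (acc : ℕ) :
    loopI c Q r rc sig (f + 1) i l cp acc =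
      loopI c Q r rc sig f (i + 1) (stepI l) (cp.mul c)
        (acc + LoopI_incr Q r rc sig i (sumU l) (sumV l) cp) := by
  rw [LoopI_unf2, LoopI_unf1, LoopI_unf3]

theorem LoopI_step (K : ℕ) (hK : 0 < K) (Q r rc sig : ℕ) (hQ : 0 < Q) (q cq L0 L2 : ℂ)
    (hqr : ‖q‖ ≤ (rc : ℝ) / 10000)
    (hcr : ‖cq‖ ≤ (rc : ℝ) / 10000) (hqc : ‖q - cq‖ ≤ 1.41422 / Q)
    (s : ℝ) (i : ℕ) (hs0 : 0 ≤ s) (hs : s ≤ ((r : ℝ) / 10000) ^ i)
    (hs' : s ≤ (sig : ℝ) / 10000) (t u p rp sg : ℕ)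
    (htt : (K : ℝ) * ‖L0 + cq ^ (i + 1) * L2‖ ≤ t)
    (huu : (K : ℝ) * ‖L2‖ ≤ u)
    (hrp : ((r : ℝ) / 10000) ^ i * K ≤ rp)
    (hp : ((rc : ℝ) / 10000) ^ i * K ≤ p)
    (hsg : (sig : ℝ) / 10000 * K ≤ sg) :
    (K : ℝ) * (s * ‖L0 + q ^ (i + 1) * L2‖) ≤
      ((min rp sg * (t + (u * (i + 1) * p * 141422 / (K * 100000 * Q) + 1)) / K + 1 : ℕ) : ℝ) := by
  have hQR : (0 : ℝ) < Q := by exact_mod_cast hQ
  have hKR : (0 : ℝ) < K := by exact_mod_cast hK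
  obtain ⟨v, hv⟩ : ∃ v : ℕ, v = u * (i + 1) * p * 141422 / (K * 100000 * Q) + 1 := ⟨_, rfl⟩
  have hpow := LoopI_pow_sub q cq _ hqr hcr i
  have hρ : (0 : ℝ) ≤ ((rc : ℝ) / 10000) ^ i := by positivity
  have hd : ‖q ^ (i + 1) - cq ^ (i + 1)‖ ≤ ((i : ℝ) + 1) * ((rc : ℝ) / 10000) ^ i * (1.41422 / Q) :=
    le_trans hpow (mul_le_mul_of_nonneg_left hqc (by positivity))
  have hvv := LoopI_num1 (K : ℝ) u p i ‖q ^ (i + 1) - cq ^ (i + 1)‖ ‖L2‖ _ Q hKR hQR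
    (Nat.cast_nonneg i) (norm_nonneg _) hρ hp huu hd
  have h4 := LoopI_div_le (u * (i + 1) * p * 141422) (K * 100000 * Q) (by positivity)
  rw [← hv] at h4 ⊢
  have hvv' : (K : ℝ) * (‖q ^ (i + 1) - cq ^ (i + 1)‖ * ‖L2‖) ≤ v := by
    refine le_trans hvv (le_trans (le_of_eq ?_) h4)
    push_cast
    rfl
  have htot := LoopI_tri (K : ℝ) hKR.le L0 L2 _ _ t v htt hvv'
  have hsis : (K : ℝ) * s ≤ ((min rp sg : ℕ) : ℝ) := by
    rw [Nat.cast_min]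
    refine le_min ?_ ?_
    · rw [mul_comm]
      exact le_trans (mul_le_mul_of_nonneg_right hs hKR.le) hrp
    · rw [mul_comm]
      exact le_trans (mul_le_mul_of_nonneg_right hs' hKR.le) hsg
  have hfin := LoopI_div_le (min rp sg * (t + v)) K hK
  refine le_trans ?_ hfin
  refine le_trans (LoopI_num2 (K : ℝ) s ‖L0 + q ^ (i + 1) * L2‖ t v _ hKR (norm_nonneg _) hs0
    hsis htot) (le_of_eq ?_)
  push_cast
  rfl

theorem LoopI_incr_le (c : GI) (Q r rc sig : ℕ) (hQ : 0 < Q) (nd : List (GI × GI))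
    (hz : ∀ x ∈ nd, x.1.nsq = DN ^ 2) (q : ℂ) (hqr : ‖q‖ ≤ (rc : ℝ) / 10000)
    (hcr : ‖c.toC / Q‖ ≤ (rc : ℝ) / 10000) (hqc : ‖q - c.toC / Q‖ ≤ 1.41422 / Q)
    (s : ℝ) (i : ℕ) (hs0 : 0 ≤ s) (hs : s ≤ ((r : ℝ) / 10000) ^ i)
    (hs' : s ≤ (sig : ℝ) / 10000) (U V : GI)
    (hU : U = sumU (nd.map fun x =>
      (x.1, (x.2.mul (x.1.powG (i + 2)), x.2.mul (x.1.conj.powG i)))))
    (hV : V = sumV (nd.map fun x =>
      (x.1, (x.2.mul (x.1.powG (i + 2)), x.2.mul (x.1.conj.powG i))))) :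
    ((SC : ℕ) : ℝ) * (s * ‖lamI nd (-(i : ℤ)) + q ^ (i + 1) * lamI nd ((i : ℤ) + 2)‖) ≤
      ((LoopI_incr Q r rc sig i U V (c.powG (i + 1)) : ℕ) : ℝ) := by
  have hQC : (Q : ℂ) ≠ 0 := by exact_mod_cast hQ.ne'
  have hUC := LoopI_sumU nd i
  rw [← hU] at hUC
  have hVC := LoopI_sumV nd hz i
  rw [← hV] at hVC
  obtain ⟨L0, hL0⟩ : ∃ L0, L0 = lamI nd (-(i : ℤ)) := ⟨_, rfl⟩
  obtain ⟨L2, hL2⟩ : ∃ L2, L2 = lamI nd ((i : ℤ) + 2) := ⟨_, rfl⟩
  rw [← hL2] at hUC ⊢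
  rw [← hL0] at hVC ⊢
  have hD : 0 < DN := by norm_num
  have hH : 0 < HN := by norm_num
  have hden1 : 0 < HN * DN ^ (i+2) * Q ^ (i+1) :=
    Nat.mul_pos (Nat.mul_pos hH (Nat.pow_pos hD)) (Nat.pow_pos hQ)
  have hden2 : 0 < HN * DN ^ (i+2) := Nat.mul_pos hH (Nat.pow_pos hD)
  have hnumC : ((V.smul ((DN ^ 2 * Q ^ (i+1) : ℕ) : ℤ)).add ((c.powG (i + 1)).mul U)).toC =
      ((HN * DN ^ (i+2) * Q ^ (i+1) : ℕ) : ℂ) * (L0 + (c.toC / Q) ^ (i + 1) * L2) := by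
    rw [GI.toC_add, GI.toC_smul, GI.toC_mul, GI.toC_powG, hUC, hVC]
    generalize HN = H
    generalize DN = D
    push_cast
    rw [div_pow]
    field_simp
    ring
  have htt := LoopI_abs _ SC _ hden1 _ hnumC
  have huu := LoopI_abs U SC _ hden2 L2 (by rw [hUC]; push_cast; ring)
  exact LoopI_step SC (by norm_num) Q r rc sig hQ q (c.toC / Q) L0 L2 hqr hcr hqc s i hs0 hs hs'
    _ _ _ _ _ htt huu (powUp_spec r i) (powUp_spec rc i) (by
      push_cast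
      linarith)

/-- the loop bounds the penalties -/
theorem loopI_spec (c : GI) (Q r rc sig : ℕ) (hQ : 0 < Q) (nd : List (GI × GI))
    (hz : ∀ x ∈ nd, x.1.nsq = DN ^ 2) (q : ℂ) (hqr : ‖q‖ ≤ (rc : ℝ) / 10000)
    (hcr : ‖c.toC / Q‖ ≤ (rc : ℝ) / 10000) (hqc : ‖q - c.toC / Q‖ ≤ 1.41422 / Q)
    (S : ℕ → ℝ) (hS0 : ∀ i, 0 ≤ S i) (hS : ∀ i, S i ≤ ((r : ℝ) / 10000) ^ i)
    (hS' : ∀ i, S i ≤ (sig : ℝ) / 10000) :
    ∀ (f i : ℕ) (acc : ℕ),
      (acc : ℝ) + SC * ∑ j ∈ Finset.range f, S (i + j) *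
          ‖lamI nd (-(i + j : ℤ)) + q ^ (i + j + 1) * lamI nd (i + j + 2)‖ ≤
        loopI c Q r rc sig f i
          (nd.map fun x => (x.1, (x.2.mul (x.1.powG (i + 2)), x.2.mul (x.1.conj.powG i))))
          (c.powG (i + 1)) acc := by
  intro f
  induction f with
  | zero =>
    intro i acc
    rw [LoopI_zero, Finset.range_zero, Finset.sum_empty, mul_zero, add_zero]
  | succ f ih =>
    intro i acc
    have hst := LoopI_incr_le c Q r rc sig hQ nd hz q hqr hcr hqc (S i) i (hS0 i) (hS i) (hS' i)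
      _ _ rfl rfl
    have hmap : stepI (nd.map fun x =>
        (x.1, (x.2.mul (x.1.powG (i + 2)), x.2.mul (x.1.conj.powG i)))) =
        nd.map fun x => (x.1, (x.2.mul (x.1.powG (i + 1 + 2)), x.2.mul (x.1.conj.powG (i + 1)))) := by
      unfold stepI
      rw [List.map_map]
      apply List.map_congr_left
      intro x hx
      simp only [Function.comp_apply, GI.mul_assoc']
      rfl
    rw [LoopI_unfold, hmap]
    obtain ⟨a, ha⟩ : ∃ a : ℕ, a = LoopI_incr Q r rc sig i (sumU (nd.map fun x =>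
        (x.1, (x.2.mul (x.1.powG (i + 2)), x.2.mul (x.1.conj.powG i))))) (sumV (nd.map fun x =>
        (x.1, (x.2.mul (x.1.powG (i + 2)), x.2.mul (x.1.conj.powG i))))) (c.powG (i + 1)) := ⟨_, rfl⟩
    rw [← ha] at hst ⊢
    have hih := ih (i + 1) (acc + a)
    refine le_trans ?_ hih
    rw [Finset.sum_range_succ']
    have hsum : ∑ j ∈ Finset.range f, S (i + (j + 1)) *
          ‖lamI nd (-((i : ℤ) + ((j + 1 : ℕ) : ℤ))) +
            q ^ (i + (j + 1) + 1) * lamI nd ((i : ℤ) + ((j + 1 : ℕ) : ℤ) + 2)‖ =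
        ∑ j ∈ Finset.range f, S (i + 1 + j) *
          ‖lamI nd (-(((i + 1 : ℕ) : ℤ) + (j : ℤ))) +
            q ^ (i + 1 + j + 1) * lamI nd (((i + 1 : ℕ) : ℤ) + (j : ℤ) + 2)‖ := by
      apply Finset.sum_congr rfl
      intro j hj
      have e1 : i + (j + 1) = i + 1 + j := by ring
      have e2 : (i : ℤ) + ((j + 1 : ℕ) : ℤ) = ((i + 1 : ℕ) : ℤ) + (j : ℤ) := by push_cast; ring
      rw [e1, e2]
    rw [hsum]
    have h0 : S (i + 0) * ‖lamI nd (-((i : ℤ) + ((0 : ℕ) : ℤ))) +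
        q ^ (i + 0 + 1) * lamI nd ((i : ℤ) + ((0 : ℕ) : ℤ) + 2)‖ =
        S i * ‖lamI nd (-(i : ℤ)) + q ^ (i + 1) * lamI nd ((i : ℤ) + 2)‖ := by
      simp
    rw [h0]
    rw [mul_add, Nat.cast_add acc]
    linarith

end Pool.Agent.MaxTerm59
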