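import Pool.Agent.MaxTerm59.LamII

namespace Pool.Agent.MaxTerm59

theorem LoopII_round {si t : ℕ} {x y : ℝ} (hx0 : 0 ≤ x) (hy0 : 0 ≤ y)
    (hx : ((SC : ℕ) : ℝ) * x ≤ si) (hy : y * ((SC : ℕ) : ℝ) ≤ t) :
    ((SC : ℕ) : ℝ) * (x * y) ≤ ((si * t / SC + 1 : ℕ) : ℝ) := by
  have hSC : (0 : ℝ) < ((SC : ℕ) : ℝ) := by norm_num [SC]
  have h1 : si * t < SC * (si * t / SC + 1) := Nat.lt_mul_div_succ _ (by norm_num [SC])
  have h2 : ((si * t : ℕ) : ℝ) ≤ ((SC * (si * t / SC + 1) : ℕ) : ℝ) := by exact_mod_cast h1.le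
  rw [Nat.cast_mul SC] at h2
  have h3 : (((SC : ℕ) : ℝ) * x) * (y * ((SC : ℕ) : ℝ)) ≤ (si : ℝ) * t :=
    mul_le_mul hx hy (by positivity) (by positivity)
  have h4 : ((SC : ℕ) : ℝ) * (((SC : ℕ) : ℝ) * (x * y)) ≤
      ((SC : ℕ) : ℝ) * ((si * t / SC + 1 : ℕ) : ℝ) := by
    refine le_trans ?_ h2
    rw [Nat.cast_mul]
    refine le_trans (le_of_eq ?_) h3
    ring
  exact le_of_mul_le_mul_left h4 hSC

theorem LoopII_si {r sig e : ℕ} {x : ℝ} (hS : x ≤ ((r : ℝ) / 10000) ^ e)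
    (hS' : x ≤ (sig : ℝ) / 10000) :
    ((SC : ℕ) : ℝ) * x ≤ ((min (powUp r e) (sig * 10000) : ℕ) : ℝ) := by
  have hSC : (0 : ℝ) < ((SC : ℕ) : ℝ) := by norm_num [SC]
  rw [Nat.cast_min, le_min_iff]
  constructor
  · refine le_trans ?_ (powUp_spec r e)
    rw [mul_comm]
    exact mul_le_mul_of_nonneg_right hS hSC.le
  · have h1 := mul_le_mul_of_nonneg_left hS' hSC.le
    refine h1.trans (le_of_eq ?_)
    push_cast [SC]
    ring

theorem LoopII_abs {w : GI} {k : ℕ} {z : ℂ}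
    (h : w.toC = (((HN * DN ^ k : ℕ) : ℕ) : ℂ) * z) :
    ‖z‖ * ((SC : ℕ) : ℝ) ≤ absUp w SC (HN * DN ^ k) := by
  have hd : 0 < HN * DN ^ k := by
    apply Nat.mul_pos (by norm_num [HN])
    exact pow_pos (by norm_num [DN]) k
  have h1 := absUp_spec w SC (HN * DN ^ k) hd
  refine le_trans (le_of_eq ?_) h1
  rw [h, norm_mul, Complex.norm_natCast]
  have h2 : (0 : ℝ) < ((HN * DN ^ k : ℕ) : ℝ) := by exact_mod_cast hd
  field_simp

theorem LoopII_sum (l : List (GI × GI)) (g : GI → GI) (k : ℕ) :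
    (sumII (l.map fun x => (g x.1, x.2.mul ((g x.1).powG k)))).toC =
      (((HN * DN ^ k : ℕ) : ℕ) : ℂ) *
        (l.map fun x => (x.2.toC / ((HN : ℕ) : ℂ)) * ((g x.1).toC / ((DN : ℕ) : ℂ)) ^ k).sum := by
  unfold sumII
  rw [toC_sum_foldr, List.map_map, ← List.sum_map_mul_left]
  congr 1
  refine List.map_congr_left fun x _ => ?_
  simp only [Function.comp_apply]
  rw [GI.toC_mul, GI.toC_powG]
  have h1 : ((HN : ℕ) : ℂ) ≠ 0 := by norm_num [HN]
  have h2 : ((DN : ℕ) : ℂ) ≠ 0 := by norm_num [DN]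
  rw [Nat.cast_mul, Nat.cast_pow, div_pow]
  field_simp

theorem LoopII_step (l : List (GI × GI)) (g : GI → GI) (k : ℕ) :
    stepII (l.map fun x => (g x.1, x.2.mul ((g x.1).powG k))) =
      l.map fun x => (g x.1, x.2.mul ((g x.1).powG (k + 1))) := by
  unfold stepII
  rw [List.map_map]
  refine List.map_congr_left fun x _ => ?_
  simp only [Function.comp_apply]
  rw [GI.mul_assoc']
  rfl

/-- the loop with opaque costs -/
def LoopII_G (T : ℕ → StII → ℕ) (SI : ℕ → ℕ) (sc : ℕ) : Nat → Nat → Nat → StII → Nat → Nat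
  | 0, _, _, _, acc => acc
  | f+1, i, k, l, acc =>
    let t := T k l
    let si := SI i
    LoopII_G T SI sc f (i+1) (k+1) (stepII l) (acc + (si * t / sc + 1))

theorem LoopII_G_zero (T : ℕ → StII → ℕ) (SI : ℕ → ℕ) (sc i k : ℕ) (l : StII) (acc : ℕ) :
    LoopII_G T SI sc 0 i k l acc = acc := rfl

theorem LoopII_G_succ (T : ℕ → StII → ℕ) (SI : ℕ → ℕ) (sc f i k : ℕ) (l : StII) (acc : ℕ) :
    LoopII_G T SI sc (f + 1) i k l acc =
      LoopII_G T SI sc f (i + 1) (k + 1) (stepII l) (acc + (SI i * T k l / sc + 1)) := rfl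

theorem LoopII_eq (e : ℕ → ℕ) (r sig : ℕ) :
    loopII e r sig = LoopII_G (fun k l => absUp (sumII l) SC (HN * DN ^ k))
      (fun i => min (powUp r (e i)) (sig * 10000)) SC := by
  delta loopII LoopII_G
  rfl

theorem LoopII_zero (e : ℕ → ℕ) (r sig i k : ℕ) (l : StII) (acc : ℕ) :
    loopII e r sig 0 i k l acc = acc := by
  rw [LoopII_eq, LoopII_G_zero]

theorem LoopII_succ (e : ℕ → ℕ) (r sig f i k : ℕ) (l : StII) (acc : ℕ) :
    loopII e r sig (f + 1) i k l acc =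
      loopII e r sig f (i + 1) (k + 1) (stepII l)
        (acc + (min (powUp r (e i)) (sig * 10000) * absUp (sumII l) SC (HN * DN ^ k) / SC
          + 1)) := by
  rw [LoopII_eq, LoopII_G_succ]

/-- the loop bounds the penalties; the multipliers are the nodes `z` (positive powers) -/
theorem loopII_spec_pos (e : ℕ → ℕ) (r sig : ℕ) (hr : r < 10000) (l : List (GI × GI))
    (hz : ∀ x ∈ l, x.1.nsq = DN ^ 2) (S : ℕ → ℝ) (hS0 : ∀ i, 0 ≤ S i)
    (hS : ∀ i, S i ≤ ((r : ℝ) / 10000) ^ e i) (hS' : ∀ i, S i ≤ (sig : ℝ) / 10000) :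
    ∀ (f i k acc : ℕ),
      (acc : ℝ) + SC * ∑ j ∈ Finset.range f, S (i + j) * ‖lamII l (k + j : ℤ)‖ ≤
        loopII e r sig f i k (l.map fun x => (x.1, x.2.mul (x.1.powG k))) acc := by
  intro f
  induction f with
  | zero =>
    intro i k acc
    rw [LoopII_zero]
    simp
  | succ f ih =>
    intro i k acc
    have h1 := ih (i + 1) (k + 1) (acc +
      (min (powUp r (e i)) (sig * 10000) *
        absUp (sumII (l.map fun x => (x.1, x.2.mul (x.1.powG k)))) SC (HN * DN ^ k) / SC + 1))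
    have h2 : loopII e r sig (f + 1) i k (l.map fun x => (x.1, x.2.mul (x.1.powG k))) acc =
        loopII e r sig f (i + 1) (k + 1) (l.map fun x => (x.1, x.2.mul (x.1.powG (k + 1))))
          (acc + (min (powUp r (e i)) (sig * 10000) *
            absUp (sumII (l.map fun x => (x.1, x.2.mul (x.1.powG k)))) SC (HN * DN ^ k) / SC
              + 1)) := by
      rw [LoopII_succ, LoopII_step l (fun z => z) k]
    rw [h2]
    refine le_trans ?_ h1
    have h3 : (sumII (l.map fun x => (x.1, x.2.mul (x.1.powG k)))).toC =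
        (((HN * DN ^ k : ℕ) : ℕ) : ℂ) * lamII l (k : ℤ) := by
      have := LoopII_sum l (fun z => z) k
      unfold lamII
      simp only [zpow_natCast]
      exact this
    have h4 := LoopII_round (hS0 i) (norm_nonneg (lamII l (k : ℤ)))
      (LoopII_si (hS i) (hS' i)) (LoopII_abs h3)
    rw [Finset.sum_range_succ', mul_add, Nat.cast_add]
    have h5 : ∀ j ∈ Finset.range f, S (i + (j + 1)) * ‖lamII l ((k : ℤ) + ((j + 1 : ℕ) : ℤ))‖ =
        S (i + 1 + j) * ‖lamII l (((k + 1 : ℕ) : ℤ) + (j : ℤ))‖ := by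
      intro j _
      have e1 : i + (j + 1) = i + 1 + j := by ring
      have e2 : (k : ℤ) + ((j + 1 : ℕ) : ℤ) = ((k + 1 : ℕ) : ℤ) + (j : ℤ) := by
        push_cast
        ring
      rw [e1, e2]
    rw [Finset.sum_congr rfl h5]
    have h6 : S (i + 0) * ‖lamII l ((k : ℤ) + ((0 : ℕ) : ℤ))‖ = S i * ‖lamII l (k : ℤ)‖ := by
      simp
    rw [h6]
    linarith

/-- the same with the conjugate nodes as multipliers (negative powers) -/
theorem loopII_spec_neg (e : ℕ → ℕ) (r sig : ℕ) (hr : r < 10000) (l : List (GI × GI))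
    (hz : ∀ x ∈ l, x.1.nsq = DN ^ 2) (S : ℕ → ℝ) (hS0 : ∀ i, 0 ≤ S i)
    (hS : ∀ i, S i ≤ ((r : ℝ) / 10000) ^ e i) (hS' : ∀ i, S i ≤ (sig : ℝ) / 10000) :
    ∀ (f i k acc : ℕ),
      (acc : ℝ) + SC * ∑ j ∈ Finset.range f, S (i + j) * ‖lamII l (-(k + j : ℤ))‖ ≤
        loopII e r sig f i k (l.map fun x => (x.1.conj, x.2.mul (x.1.conj.powG k))) acc := by
  intro f
  induction f with
  | zero =>
    intro i k acc
    rw [LoopII_zero]
    simp
  | succ f ih =>
    intro i k acc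
    have h1 := ih (i + 1) (k + 1) (acc +
      (min (powUp r (e i)) (sig * 10000) *
        absUp (sumII (l.map fun x => (x.1.conj, x.2.mul (x.1.conj.powG k)))) SC
          (HN * DN ^ k) / SC + 1))
    have h2 : loopII e r sig (f + 1) i k
          (l.map fun x => (x.1.conj, x.2.mul (x.1.conj.powG k))) acc =
        loopII e r sig f (i + 1) (k + 1)
          (l.map fun x => (x.1.conj, x.2.mul (x.1.conj.powG (k + 1))))
          (acc + (min (powUp r (e i)) (sig * 10000) *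
            absUp (sumII (l.map fun x => (x.1.conj, x.2.mul (x.1.conj.powG k)))) SC
              (HN * DN ^ k) / SC + 1)) := by
      rw [LoopII_succ, LoopII_step l (fun z => z.conj) k]
    rw [h2]
    refine le_trans ?_ h1
    have h3 : (sumII (l.map fun x => (x.1.conj, x.2.mul (x.1.conj.powG k)))).toC =
        (((HN * DN ^ k : ℕ) : ℕ) : ℂ) * lamII l (-(k : ℤ)) := by
      rw [LoopII_sum l (fun z => z.conj) k]
      unfold lamII
      congr 2
      refine List.map_congr_left fun x hx => ?_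
      rw [conj_div_DN _ (hz x hx), zpow_neg, zpow_natCast, inv_pow]
    have h4 := LoopII_round (hS0 i) (norm_nonneg (lamII l (-(k : ℤ))))
      (LoopII_si (hS i) (hS' i)) (LoopII_abs h3)
    rw [Finset.sum_range_succ', mul_add, Nat.cast_add]
    have h5 : ∀ j ∈ Finset.range f,
        S (i + (j + 1)) * ‖lamII l (-((k : ℤ) + ((j + 1 : ℕ) : ℤ)))‖ =
        S (i + 1 + j) * ‖lamII l (-(((k + 1 : ℕ) : ℤ) + (j : ℤ)))‖ := by
      intro j _
      have e1 : i + (j + 1) = i + 1 + j := by ring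
      have e2 : (k : ℤ) + ((j + 1 : ℕ) : ℤ) = ((k + 1 : ℕ) : ℤ) + (j : ℤ) := by
        push_cast
        ring
      rw [e1, e2]
    rw [Finset.sum_congr rfl h5]
    have h6 : S (i + 0) * ‖lamII l (-((k : ℤ) + ((0 : ℕ) : ℤ)))‖ =
        S i * ‖lamII l (-(k : ℤ))‖ := by
      simp
    rw [h6]
    linarith

end Pool.Agent.MaxTerm59
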