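import Pool.Agent.MaxTerm59.HypIIDef

namespace Pool.Agent.MaxTerm59

/-- the arithmetic condition on the two gaps attached to a type -/
def TypeOK (ty m M : ℕ) : Prop :=
  ty < 3 ∧ (ty = 1 → 4 * m ≤ 3 * M) ∧ (ty = 2 → M = 2 * m)

/-- exponent attached to the larger gap -/
def SizeII_g (ty : ℕ) : ℕ := if ty = 0 then 1 else 4

/-- exponent attached to the difference of the gaps -/
def SizeII_h (ty : ℕ) : ℕ := if ty = 0 then 0 else if ty = 1 then 1 else 2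

theorem SizeII_cases {ty m M : ℕ} (hty : TypeOK ty m M) :
    ty = 0 ∨ (ty = 1 ∧ 4 * m ≤ 3 * M) ∨ (ty = 2 ∧ M = 2 * m) := by
  obtain ⟨h1, h2, h3⟩ := hty
  rcases Nat.lt_or_ge ty 1 with h | h
  · left
    omega
  · rcases Nat.lt_or_ge ty 2 with h' | h'
    · right; left
      have : ty = 1 := by omega
      exact ⟨this, h2 this⟩
    · right; right
      have : ty = 2 := by omega
      exact ⟨this, h3 this⟩

theorem SizeII_M {a t : ℝ} {ty m M : ℕ} (ha : 0 < a) (ha1 : a < 1) (ht : 0 < t) (hmM : m < M)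
    (hty : TypeOK ty m M) (h : a ^ m ≤ t ^ dd ty) : a ^ M ≤ t ^ SizeII_g ty := by
  rcases SizeII_cases hty with rfl | ⟨rfl, h1⟩ | ⟨rfl, h1⟩
  · simp only [dd, SizeII_g, if_true] at h ⊢
    exact (pow_le_pow_of_le_one ha.le ha1.le hmM.le).trans h
  · simp only [dd, SizeII_g, one_ne_zero, if_false, if_true] at h ⊢
    have h2 : (a ^ M) ^ 3 ≤ (t ^ 4) ^ 3 := by
      calc (a ^ M) ^ 3 = a ^ (3 * M) := by rw [← pow_mul, mul_comm]
        _ ≤ a ^ (4 * m) := pow_le_pow_of_le_one ha.le ha1.le h1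
        _ = (a ^ m) ^ 4 := by rw [← pow_mul, mul_comm]
        _ ≤ (t ^ 3) ^ 4 := pow_le_pow_left₀ (by positivity) h 4
        _ = (t ^ 4) ^ 3 := by ring
    exact le_of_pow_le_pow_left₀ (by norm_num) (by positivity) h2
  · simp only [dd, SizeII_g, OfNat.ofNat_ne_zero, OfNat.ofNat_ne_one, if_false] at h ⊢
    calc a ^ M = (a ^ m) ^ 2 := by rw [← pow_mul, h1, mul_comm]
      _ ≤ (t ^ 2) ^ 2 := pow_le_pow_left₀ (by positivity) h 2
      _ = t ^ 4 := by ring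

theorem SizeII_D {a t : ℝ} {ty m M : ℕ} (ha : 0 < a) (ha1 : a < 1) (ht : 0 < t) (hmM : m < M)
    (hty : TypeOK ty m M) (h : a ^ m ≤ t ^ dd ty) : a ^ (M - m) ≤ t ^ SizeII_h ty := by
  rcases SizeII_cases hty with rfl | ⟨rfl, h1⟩ | ⟨rfl, h1⟩
  · simp only [SizeII_h, if_true, pow_zero]
    exact pow_le_one₀ ha.le ha1.le
  · simp only [dd, SizeII_h, one_ne_zero, if_false, if_true, pow_one] at h ⊢
    have h2 : (a ^ (M - m)) ^ 3 ≤ t ^ 3 := by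
      calc (a ^ (M - m)) ^ 3 = a ^ (3 * (M - m)) := by rw [← pow_mul, mul_comm]
        _ ≤ a ^ m := pow_le_pow_of_le_one ha.le ha1.le (by omega)
        _ ≤ t ^ 3 := h
    exact le_of_pow_le_pow_left₀ (by norm_num) (by positivity) h2
  · simp only [dd, SizeII_h, OfNat.ofNat_ne_zero, OfNat.ofNat_ne_one, if_false] at h ⊢
    have : M - m = m := by omega
    rw [this]
    exact h

theorem SizeII_x {B ε : ℝ} (L : Loc B ε) (hε : 0 < ε) {ty : ℕ}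
    {t : ℝ} (htp : t ^ dd ty = L.x ^ L.m + ε) : L.x ^ L.m ≤ t ^ dd ty := by
  rw [htp]
  linarith

theorem SizeII_y1 {B ε : ℝ} (L : Loc B ε) (h : L.m < L.M) {ty : ℕ}
    {t : ℝ} (htp : t ^ dd ty = L.x ^ L.m + ε) : L.y₁ ^ L.m ≤ t ^ dd ty := by
  rw [htp]
  have := L.hy₁
  rwa [min_eq_left h.le] at this

theorem SizeII_y2 {B ε : ℝ} (L : Loc B ε) (h : L.m < L.M) {ty : ℕ}
    {t : ℝ} (htp : t ^ dd ty = L.x ^ L.m + ε) : L.y₂ ^ L.M ≤ t ^ dd ty := by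
  rw [htp]
  have := L.hy₂
  rwa [min_eq_left h.le] at this

/-- the coefficients on the left of the vertex `-m`, seen from the right corner -/
theorem SizeII_rel {B ε : ℝ} (L : Loc B ε) (n : ℕ) :
    ‖L.c₂ (-(L.m : ℤ) - n)‖ ≤ L.x ^ (L.m + n) * L.y₁ ^ n := by
  rw [L.rel]
  have h1 : -(-(L.m : ℤ) - n) = ((L.m + n : ℕ) : ℤ) := by
    push_cast
    ring
  rw [h1, zpow_natCast, norm_mul, norm_pow, Complex.norm_real, Real.norm_of_nonneg L.x_pos.le,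
    mul_comm]
  exact mul_le_mul_of_nonneg_left (L.dec₁ n) (pow_nonneg L.x_pos.le _)

theorem size_L {B ε : ℝ} (L : Loc B ε) (h : L.m < L.M) (ty : ℕ) (hty : TypeOK ty L.m L.M) (hε : 0 < ε)
    (t : ℝ) (ht : 0 < t) (htp : t ^ dd ty = L.x ^ L.m + ε) (i : ℕ) :
    ‖L.c₂ (-((i + 1 : ℤ) * L.M))‖ ≤ t ^ eL ty i := by
  have hx := SizeII_M L.x_pos L.x_lt ht h hty (SizeII_x L hε htp)
  have hy := SizeII_M L.y₁_pos L.y₁_lt ht h hty (SizeII_y1 L h htp)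
  have hd := SizeII_D L.y₁_pos L.y₁_lt ht h hty (SizeII_y1 L h htp)
  have h1 : -((i + 1 : ℤ) * L.M) = -(L.m : ℤ) - ((i * L.M + (L.M - L.m) : ℕ) : ℤ) := by
    have h2 : ((L.M - L.m : ℕ) : ℤ) = (L.M : ℤ) - L.m := Nat.cast_sub h.le
    rw [Nat.cast_add, h2]
    push_cast
    ring
  have h3 := SizeII_rel L (i * L.M + (L.M - L.m))
  rw [← h1] at h3
  have h4 : L.m + (i * L.M + (L.M - L.m)) = L.M * (i + 1) := by
    have : L.m + (L.M - L.m) = L.M := Nat.add_sub_cancel' h.le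
    calc L.m + (i * L.M + (L.M - L.m)) = i * L.M + (L.m + (L.M - L.m)) := by ring
      _ = L.M * (i + 1) := by rw [this]; ring
  have h5 : L.x ^ (L.m + (i * L.M + (L.M - L.m))) ≤ (t ^ SizeII_g ty) ^ (i + 1) := by
    rw [h4, pow_mul]
    exact pow_le_pow_left₀ (pow_nonneg L.x_pos.le _) hx _
  have h6 : L.y₁ ^ (i * L.M + (L.M - L.m)) ≤ (t ^ SizeII_g ty) ^ i * t ^ SizeII_h ty := by
    rw [pow_add, mul_comm i, pow_mul]
    exact mul_le_mul (pow_le_pow_left₀ (pow_nonneg L.y₁_pos.le _) hy _) hd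
      (pow_nonneg L.y₁_pos.le _) (by positivity)
  refine h3.trans ((mul_le_mul h5 h6 (pow_nonneg L.y₁_pos.le _) (by positivity)).trans
    (le_of_eq ?_))
  rw [← pow_mul, ← pow_mul, ← pow_add, ← pow_add]
  congr 1
  rcases SizeII_cases hty with h7 | ⟨h7, -⟩ | ⟨h7, -⟩ <;>
    (rw [h7]; simp [SizeII_g, SizeII_h, eL]; try ring)

theorem size_R {B ε : ℝ} (L : Loc B ε) (h : L.m < L.M) (ty : ℕ) (hty : TypeOK ty L.m L.M) (hε : 0 < ε)
    (t : ℝ) (ht : 0 < t) (htp : t ^ dd ty = L.x ^ L.m + ε) (i : ℕ) :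
    ‖L.c₂ ((i + 2 : ℤ) * L.M)‖ ≤ t ^ eR ty i := by
  have hy := SizeII_y2 L h htp
  have h1 : ((i + 2 : ℤ) * L.M) = (L.M : ℤ) + ((L.M * (i + 1) : ℕ) : ℤ) := by
    push_cast
    ring
  rw [h1]
  refine (L.dec₂ _).trans ?_
  rw [pow_mul, eR, pow_mul]
  exact pow_le_pow_left₀ (pow_nonneg L.y₂_pos.le _) hy _

theorem size_P {B ε : ℝ} (L : Loc B ε) (h : L.m < L.M) (ty : ℕ) (hty : TypeOK ty L.m L.M) (hε : 0 < ε)
    (t : ℝ) (ht : 0 < t) (htp : t ^ dd ty = L.x ^ L.m + ε) (i : ℕ) :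
    ‖L.c₂ (-(L.m : ℤ) + (i + 1 : ℤ) * L.M)‖ ≤ t ^ eP ty i := by
  have hy := SizeII_y2 L h htp
  rcases Nat.eq_zero_or_pos i with rfl | hi
  · have h0 : eP ty 0 = 0 := by simp [eP]
    rw [h0, pow_zero]
    exact L.le₂ _
  obtain ⟨j, rfl⟩ : ∃ j, i = j + 1 := ⟨i - 1, by omega⟩
  have h1 : -(L.m : ℤ) + (((j + 1 : ℕ) : ℤ) + 1) * L.M =
      (L.M : ℤ) + ((L.M * j + (L.M - L.m) : ℕ) : ℤ) := by
    have h2 : ((L.M - L.m : ℕ) : ℤ) = (L.M : ℤ) - L.m := Nat.cast_sub h.le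
    rw [Nat.cast_add (L.M * j), h2]
    push_cast
    ring
  rw [h1]
  refine (L.dec₂ _).trans ?_
  rw [pow_add, pow_mul]
  have h5 : (L.y₂ ^ L.M) ^ j ≤ (t ^ dd ty) ^ j :=
    pow_le_pow_left₀ (pow_nonneg L.y₂_pos.le _) hy _
  by_cases h2 : ty = 2
  · subst h2
    have hM : L.M = 2 * L.m := hty.2.2 rfl
    have h6 : L.y₂ ^ (L.M - L.m) ≤ t := by
      have h7 : L.M - L.m = L.m := by omega
      rw [h7]
      have h8 : (L.y₂ ^ L.m) ^ 2 ≤ t ^ 2 := by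
        rw [← pow_mul, mul_comm, ← hM]
        simpa [dd] using hy
      exact le_of_pow_le_pow_left₀ (by norm_num) ht.le h8
    refine (mul_le_mul h5 h6 (pow_nonneg L.y₂_pos.le _) (by positivity)).trans (le_of_eq ?_)
    have h9 : eP 2 (j + 1) = dd 2 * j + 1 := by
      simp [eP, dd]
      omega
    rw [h9, pow_add, pow_mul, pow_one]
  · have h6 : L.y₂ ^ (L.M - L.m) ≤ 1 := pow_le_one₀ L.y₂_pos.le L.y₂_lt.le
    refine (mul_le_mul h5 h6 (pow_nonneg L.y₂_pos.le _) (by positivity)).trans (le_of_eq ?_)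
    have h9 : eP ty (j + 1) = dd ty * j := by
      simp [eP, h2]
    rw [h9, pow_mul, mul_one]

theorem size_N {B ε : ℝ} (L : Loc B ε) (h : L.m < L.M) (ty : ℕ) (hty : TypeOK ty L.m L.M) (hε : 0 < ε)
    (t : ℝ) (ht : 0 < t) (htp : t ^ dd ty = L.x ^ L.m + ε) (i : ℕ) :
    ‖L.c₂ (-(L.m : ℤ) - (i + 1 : ℤ) * L.M)‖ ≤ t ^ eN ty i := by
  have hxm := SizeII_x L hε htp
  have hx := SizeII_M L.x_pos L.x_lt ht h hty hxm
  have hy := SizeII_M L.y₁_pos L.y₁_lt ht h hty (SizeII_y1 L h htp)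
  have h1 : -(L.m : ℤ) - (i + 1 : ℤ) * L.M = -(L.m : ℤ) - ((L.M * (i + 1) : ℕ) : ℤ) := by
    push_cast
    ring
  have h3 := SizeII_rel L (L.M * (i + 1))
  rw [← h1] at h3
  have h5 : L.x ^ (L.m + L.M * (i + 1)) ≤ t ^ dd ty * (t ^ SizeII_g ty) ^ (i + 1) := by
    rw [pow_add, pow_mul]
    exact mul_le_mul hxm (pow_le_pow_left₀ (pow_nonneg L.x_pos.le _) hx _)
      (pow_nonneg (pow_nonneg L.x_pos.le _) _) (by positivity)
  have h6 : L.y₁ ^ (L.M * (i + 1)) ≤ (t ^ SizeII_g ty) ^ (i + 1) := by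
    rw [pow_mul]
    exact pow_le_pow_left₀ (pow_nonneg L.y₁_pos.le _) hy _
  refine h3.trans ((mul_le_mul h5 h6 (pow_nonneg L.y₁_pos.le _) (by positivity)).trans
    (le_of_eq ?_))
  rw [← pow_mul, ← pow_add, ← pow_add]
  congr 1
  rcases SizeII_cases hty with h7 | ⟨h7, -⟩ | ⟨h7, -⟩ <;>
    (rw [h7]; simp [SizeII_g, dd, eN]; try ring)

end Pool.Agent.MaxTerm59
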