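import Mathlib

namespace Pool.Agent.MaxTerm59

open Filter Topology

/-- Room to the right of a radius at which `N` is the strictly largest central index. -/
theorem Step_room (A : ℕ → ℝ) (h0 : ∀ n, 0 ≤ A n)
    (hs : ∀ r : ℝ, 0 ≤ r → Summable fun n => A n * r ^ n) (N : ℕ) (s : ℝ) (hR : 0 < s)
    (hN : 0 < A N) (hle : ∀ n, A n * s ^ n ≤ A N * s ^ N)
    (hlt : ∀ n, N < n → A n * s ^ n < A N * s ^ N) :
    ∃ t : ℝ, s < t ∧ ∀ n, A n * t ^ n ≤ A N * t ^ N := by
  have hpos : 0 < A N * s ^ N := by positivity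
  have h1 : Tendsto (fun n => A n * (2 * s) ^ n) atTop (𝓝 0) :=
    (hs (2 * s) (by linarith)).tendsto_atTop_zero
  obtain ⟨K, hK⟩ := eventually_atTop.1 (h1.eventually (gt_mem_nhds hpos))
  have h2 : ∀ᶠ t in 𝓝[>] s, ∀ n ∈ Finset.range K, N < n → A n * t ^ n < A N * t ^ N := by
    rw [Finset.eventually_all]
    intro n _
    by_cases hn : N < n
    · have hc1 : ContinuousAt (fun t : ℝ => A n * t ^ n) s := by fun_prop
      have hc2 : ContinuousAt (fun t : ℝ => A N * t ^ N) s := by fun_prop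
      have h3 : ∀ᶠ t in 𝓝 s, A n * t ^ n < A N * t ^ N :=
        hc1.eventually_lt hc2 (hlt n hn)
      filter_upwards [nhdsWithin_le_nhds h3] with t ht _
      exact ht
    · exact Eventually.of_forall fun t h => absurd h hn
  have h3 : ∀ᶠ t in 𝓝[>] s, t < 2 * s :=
    nhdsWithin_le_nhds (gt_mem_nhds (by linarith))
  obtain ⟨t, ⟨ht1, ht2⟩, ht3⟩ := ((h2.and h3).and self_mem_nhdsWithin).exists
  have hst : s < t := ht3
  have ht0 : 0 < t := hR.trans hst
  refine ⟨t, hst, fun n => ?_⟩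
  rcases le_or_gt n N with hn | hn
  · have h4 : ∀ k : ℕ, A k * t ^ k = A k * s ^ k * (t / s) ^ k := by
      intro k
      rw [div_pow]
      field_simp
    rw [h4, h4]
    have h5 : (t / s) ^ n ≤ (t / s) ^ N :=
      pow_le_pow_right₀ ((one_le_div hR).2 hst.le) hn
    exact mul_le_mul (hle n) h5 (by positivity) hpos.le
  · rcases lt_or_ge n K with hnK | hnK
    · exact (ht1 n (Finset.mem_range.2 hnK) hn).le
    · have h4 : A n * t ^ n ≤ A n * (2 * s) ^ n :=
        mul_le_mul_of_nonneg_left (pow_le_pow_left₀ (by linarith) ht2.le n) (h0 n)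
      have h5 : A N * s ^ N ≤ A N * t ^ N :=
        mul_le_mul_of_nonneg_left (pow_le_pow_left₀ hR.le hst.le N) hN.le
      exact h4.trans ((hK n hnK).le.trans h5)

/-- One step from a central index to the next corner. `A n` is `|a_n|`. -/
theorem corner_step (A : ℕ → ℝ) (h0 : ∀ n, 0 ≤ A n)
    (hs : ∀ r : ℝ, 0 ≤ r → Summable fun n => A n * r ^ n)
    (hinf : ∀ n, ∃ m, n < m ∧ 0 < A m) (N : ℕ) (R : ℝ) (hR : 0 < R) (hN : 0 < A N)
    (hle : ∀ n, A n * R ^ n ≤ A N * R ^ N)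
    (hlt : ∀ n, N < n → A n * R ^ n < A N * R ^ N) :
    ∃ (N' : ℕ) (R' : ℝ), N < N' ∧ R < R' ∧ 0 < A N' ∧
      A N * R' ^ N = A N' * R' ^ N' ∧
      (∀ n, A n * R' ^ n ≤ A N' * R' ^ N') ∧
      (∀ n, N' < n → A n * R' ^ n < A N' * R' ^ N') := by
  set S : Set ℝ := {s | R ≤ s ∧ ∀ n, A n * s ^ n ≤ A N * s ^ N} with hS
  have hRS : R ∈ S := ⟨le_refl R, hle⟩
  have hbdd : BddAbove S := by
    obtain ⟨m, hm, hAm⟩ := hinf N
    refine ⟨max 1 (A N / A m), ?_⟩
    rintro s ⟨hs1, hs2⟩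
    rcases le_or_gt s 1 with h | h
    · exact h.trans (le_max_left _ _)
    · refine le_trans ?_ (le_max_right _ _)
      rw [le_div_iff₀ hAm]
      have h3 := hs2 m
      obtain ⟨j, rfl⟩ : ∃ j, m = N + 1 + j := ⟨m - (N + 1), by omega⟩
      have h4 : s ^ (N + 1 + j) = s ^ N * (s * s ^ j) := by ring
      rw [h4] at h3
      have h5 : 0 < s ^ N := by positivity
      have h6 : A (N + 1 + j) * (s * s ^ j) ≤ A N := by
        have : s ^ N * (A (N + 1 + j) * (s * s ^ j)) ≤ s ^ N * A N := by linarith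
        exact le_of_mul_le_mul_left this h5
      have h7 : 1 ≤ s ^ j := one_le_pow₀ h.le
      have h8 : s ≤ s * s ^ j := le_mul_of_one_le_right (by linarith) h7
      calc s * A (N + 1 + j) ≤ s * s ^ j * A (N + 1 + j) :=
            mul_le_mul_of_nonneg_right h8 hAm.le
        _ = A (N + 1 + j) * (s * s ^ j) := by ring
        _ ≤ A N := h6
  have hclosed : IsClosed S := by
    have h1 : S = Set.Ici R ∩ ⋂ n, {s : ℝ | A n * s ^ n ≤ A N * s ^ N} := by
      ext s
      simp [hS]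
    rw [h1]
    exact isClosed_Ici.inter (isClosed_iInter fun n =>
      isClosed_le (by fun_prop) (by fun_prop))
  have hR'S : sSup S ∈ S := hclosed.csSup_mem ⟨R, hRS⟩ hbdd
  set R' := sSup S with hR'
  obtain ⟨t, ht1, ht2⟩ := Step_room A h0 hs N R hR hN hle hlt
  have hRR' : R < R' := lt_of_lt_of_le ht1 (le_csSup hbdd ⟨ht1.le, ht2⟩)
  have hR'0 : 0 < R' := hR.trans hRR'
  have hpos : 0 < A N * R' ^ N := by positivity
  have hex : ∃ n, N < n ∧ A n * R' ^ n = A N * R' ^ N := by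
    by_contra hcon
    push Not at hcon
    obtain ⟨u, hu1, hu2⟩ := Step_room A h0 hs N R' hR'0 hN hR'S.2
      (fun n hn => lt_of_le_of_ne (hR'S.2 n) (hcon n hn))
    have : u ≤ R' := le_csSup hbdd ⟨(hRR'.trans hu1).le, hu2⟩
    linarith
  obtain ⟨n0, hn0, hn0e⟩ := hex
  have hfin : {n : ℕ | A n * R' ^ n = A N * R' ^ N}.Finite := by
    have h1 : Tendsto (fun n => A n * R' ^ n) atTop (𝓝 0) :=
      (hs R' hR'0.le).tendsto_atTop_zero
    obtain ⟨K, hK⟩ := eventually_atTop.1 (h1.eventually (gt_mem_nhds hpos))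
    refine (Set.finite_Iio K).subset ?_
    intro n hn
    by_contra hnK
    have h2 := hK n (not_lt.1 hnK)
    have h3 : A n * R' ^ n = A N * R' ^ N := hn
    linarith
  obtain ⟨N', hN'1, hN'2⟩ := Set.exists_max_image _ id hfin ⟨n0, hn0e⟩
  have hN'e : A N' * R' ^ N' = A N * R' ^ N := hN'1
  have hN'3 : ∀ n, A n * R' ^ n = A N * R' ^ N → n ≤ N' := fun n hn => hN'2 n hn
  refine ⟨N', R', lt_of_lt_of_le hn0 (hN'3 n0 hn0e), hRR', ?_, hN'e.symm, ?_, ?_⟩
  · by_contra hcon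
    have h1 : A N' = 0 := le_antisymm (not_lt.1 hcon) (h0 N')
    rw [h1, zero_mul] at hN'e
    linarith
  · intro n
    rw [hN'e]
    exact hR'S.2 n
  · intro n hn
    rw [hN'e]
    refine lt_of_le_of_ne (hR'S.2 n) fun h => ?_
    exact absurd (hN'3 n h) (not_le.2 hn)

end Pool.Agent.MaxTerm59
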