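import Pool.Agent.MaxTerm59.Defs

namespace Pool.Agent.MaxTerm59

/-- The normalised power series at the corners, indexed by `ℤ`:
`c k n = a_n (R k)^n / μ(R k)`; `x k = R k / R (k+1)`. -/
structure Sys (B : ℝ) where
  N : ℕ → ℤ
  x : ℕ → ℝ
  c : ℕ → ℤ → ℂ
  Nlt : ∀ k, N k < N (k+1)
  x_pos : ∀ k, 0 < x k
  x_lt : ∀ k, x k < 1
  summ : ∀ k, Summable fun n => ‖c k n‖
  le_one : ∀ k n, ‖c k n‖ ≤ 1
  unit_l : ∀ k, ‖c k (N k)‖ = 1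
  unit_r : ∀ k, ‖c k (N (k+1))‖ = 1
  rel : ∀ k n, c (k+1) n = c k n * ((x k : ℝ) : ℂ) ^ (N (k+1) - n)
  bound : ∀ k z, ‖z‖ = 1 → ‖∑' n : ℤ, c k n * z ^ n‖ ≤ B

end Pool.Agent.MaxTerm59
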